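import Mathlib

/-!
# Coherence of a block
-/

set_option autoImplicit false

open Finset Real

namespace Pool.Agent.H605.Mont

/-- the phase of the block of `p` -/
noncomputable def ph (p : ℕ) (c : ZMod p) (m : ℕ) : ℝ := -(2 * π * (m * (c.val : ℝ) / p))

/-- the block of `p`: `∑_{m < h} e(- m c / p) (h p + m)^{it}` -/
noncomputable def Bl (h p : ℕ) (c : ZMod p) (t : ℝ) : ℂ :=
  ∑ m ∈ range h, Complex.exp ((ph p c m : ℝ) * Complex.I) *
    Complex.exp (((t * Real.log ((h * p + m : ℕ) : ℝ) : ℝ) : ℂ) * Complex.I)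

theorem cos_ge_half {y : ℝ} (h : |y| ≤ 1) : 1 / 2 ≤ Real.cos y := by
  have h1 := Real.one_sub_sq_div_two_le_cos (x := y)
  have h2 : y ^ 2 ≤ 1 := by
    rw [← sq_abs]
    have := abs_nonneg y
    nlinarith
  linarith

theorem log_err {u : ℝ} (hu : 0 ≤ u) : |Real.log (1 + u) - u| ≤ u ^ 2 / 2 := by
  have h1 : Real.log (1 + u) ≤ u := by
    have := Real.log_le_sub_one_of_pos (show 0 < 1 + u by linarith)
    linarith
  have h2 : u - u ^ 2 / 2 ≤ Real.log (1 + u) := by
    have h3 := Real.le_log_one_add_of_nonneg hu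
    refine le_trans ?_ h3
    rw [le_div_iff₀ (by linarith)]
    nlinarith [mul_nonneg hu hu, mul_nonneg (mul_nonneg hu hu) hu]
  rw [abs_le]
  constructor <;> linarith

theorem coherence {h p : ℕ} (hh : 1 ≤ h) (hp : 1 ≤ p) (c : ZMod p) (x : ℕ)
    (hx : (x : ZMod p) = c) (t : ℝ) (ht0 : 0 ≤ t) (h1 : |t - 2 * π * h * x| ≤ p / 2)
    (h2 : t ≤ p ^ 2) : (h : ℝ) / 2 ≤ ‖Bl h p c t‖ := by
  have hp0 : (0 : ℝ) < p := by exact_mod_cast hp
  have hh0 : (0 : ℝ) < h := by exact_mod_cast hh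
  obtain ⟨z, hz⟩ : ∃ z : ℂ, z = Complex.exp (((-(t * Real.log (h * p : ℝ)) : ℝ) : ℂ) * Complex.I) :=
    ⟨_, rfl⟩
  have hz1 : ‖z‖ = 1 := by rw [hz]; exact Complex.norm_exp_ofReal_mul_I _
  have hnz : ‖z * Bl h p c t‖ = ‖Bl h p c t‖ := by rw [norm_mul, hz1, one_mul]
  rw [← hnz]
  refine le_trans ?_ (Complex.re_le_norm _)
  rw [Bl, mul_sum, Complex.re_sum]
  have key : ∀ m ∈ range h, (1 : ℝ) / 2 ≤ (z * (Complex.exp ((ph p c m : ℝ) * Complex.I) *
      Complex.exp (((t * Real.log ((h * p + m : ℕ) : ℝ) : ℝ) : ℂ) * Complex.I))).re := by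
    intro m hm
    rw [mem_range] at hm
    have hmr : (m : ℝ) < h := by exact_mod_cast hm
    have hm0 : (0 : ℝ) ≤ m := Nat.cast_nonneg m
    haveI : NeZero p := ⟨by omega⟩
    have hdvd : (p : ℤ) ∣ (x : ℤ) - (c.val : ℤ) := by
      rw [← ZMod.intCast_zmod_eq_zero_iff_dvd]
      push_cast
      rw [hx, ZMod.natCast_val, ZMod.cast_id', id, sub_self]
    obtain ⟨k, hk⟩ := hdvd
    have hkr : (x : ℝ) - (c.val : ℝ) = p * k := by exact_mod_cast hk
    obtain ⟨y, hy⟩ : ∃ y : ℝ, y = t * (Real.log (1 + (m : ℝ) / (h * p))) - 2 * π * (m * x / p) :=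
      ⟨_, rfl⟩
    have hlog : Real.log ((h * p + m : ℕ) : ℝ)
        = Real.log (h * p : ℝ) + Real.log (1 + (m : ℝ) / (h * p)) := by
      rw [← Real.log_mul (by positivity) (by positivity)]
      congr 1
      push_cast
      field_simp
    have hangle : -(t * Real.log (h * p : ℝ)) + (ph p c m + t * Real.log ((h * p + m : ℕ) : ℝ))
        = y + ((m * k : ℤ) : ℝ) * (2 * π) := by
      rw [hlog, hy, ph]
      have : (c.val : ℝ) = x - p * k := by linarith
      rw [this]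
      push_cast
      field_simp
      ring
    rw [hz, ← Complex.exp_add, ← Complex.exp_add, ← add_mul, ← add_mul, ← Complex.ofReal_add,
      ← Complex.ofReal_add, hangle, Complex.exp_ofReal_mul_I_re, Real.cos_add_int_mul_two_pi]
    apply cos_ge_half
    have e1 : y = (m : ℝ) / (h * p) * (t - 2 * π * h * x)
        + t * (Real.log (1 + (m : ℝ) / (h * p)) - (m : ℝ) / (h * p)) := by
      rw [hy]
      field_simp
      ring
    obtain ⟨u, hu⟩ : ∃ u : ℝ, u = (m : ℝ) / (h * p) := ⟨_, rfl⟩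
    rw [← hu] at e1
    have hu0 : 0 ≤ u := by rw [hu]; positivity
    have hup : u * p ≤ 1 := by
      rw [hu, div_mul_eq_mul_div, div_le_one (by positivity)]
      nlinarith
    have e2 : |u * (t - 2 * π * h * x)| ≤ 1 / 2 := by
      rw [abs_mul, abs_of_nonneg hu0]
      calc u * |t - 2 * π * h * x| ≤ u * (p / 2) := mul_le_mul_of_nonneg_left h1 hu0
        _ ≤ 1 / 2 := by linarith
    have e3 : |t * (Real.log (1 + u) - u)| ≤ 1 / 2 := by
      rw [abs_mul, abs_of_nonneg ht0]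
      calc t * |Real.log (1 + u) - u| ≤ t * (u ^ 2 / 2) :=
            mul_le_mul_of_nonneg_left (log_err hu0) ht0
        _ ≤ p ^ 2 * (u ^ 2 / 2) := mul_le_mul_of_nonneg_right h2 (by positivity)
        _ = (u * p) ^ 2 / 2 := by ring
        _ ≤ 1 / 2 := by
            have : (u * p) ^ 2 ≤ 1 := pow_le_one₀ (by positivity) hup
            linarith
    rw [e1]
    calc _ ≤ |u * (t - 2 * π * h * x)| + |t * (Real.log (1 + u) - u)| := abs_add_le _ _
      _ ≤ 1 := by linarith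
  have := Finset.sum_le_sum key
  rw [sum_const, card_range, nsmul_eq_mul] at this
  linarith

end Pool.Agent.H605.Mont
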