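import Pool.Agent.H605.Web.Theta

/-!
# Progressions with all differences of a set cover few residues
-/

set_option autoImplicit false

open Finset Filter

namespace Pool.Agent.H605.Mont

open Pool.Agent.H170R2.PC Pool.Agent.H605.Web

/-- a choice of residues covering few integers of `[1, n]`, from a set with long progressions -/
theorem cover_le {n : ℕ} (hn : 1 ≤ n) (P : Finset ℕ) (E : Finset ℤ) (K : ℝ)
    (hE : ∀ p ∈ P, 1 ≤ p ∧ HasAP E K p ∧ 2 * (n : ℝ) ≤ K * p) :
    ∃ a : (p : ℕ) → ZMod p, (Cov P a n).card ≤ E.card := by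
  classical
  have h1 : ∀ p : ℕ, ∃ b t : ℤ, p ∈ P → ∀ y : ℤ, t * n < y → y ≤ t * n + n →
      (p : ℤ) ∣ y - b → y ∈ E := by
    intro p
    by_cases hp : p ∈ P
    · obtain ⟨hp1, ⟨b, hb⟩, hK⟩ := hE p hp
      have hppos : (0 : ℤ) < p := by exact_mod_cast hp1
      -- `t n` is the first multiple of `n` which is at least `b`
      refine ⟨b, (b + n - 1) / n, fun _ y hy1 hy2 hy3 => ?_⟩
      have hn0 : (0 : ℤ) < n := by exact_mod_cast hn
      have h2 := Int.emod_nonneg (b + n - 1) hn0.ne'
      have h3 := Int.emod_lt_of_pos (b + n - 1) hn0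
      have h4 := Int.emod_add_mul_ediv (b + n - 1) n
      have h5 : b ≤ (b + n - 1) / n * n := by linarith
      have h6 : (b + n - 1) / n * n ≤ b + n - 1 := by linarith
      obtain ⟨c, hc⟩ := hy3
      have hc0 : 0 ≤ c := by
        by_contra hcon
        push Not at hcon
        have : (p : ℤ) * c < 0 := mul_neg_of_pos_of_neg hppos hcon
        linarith
      obtain ⟨j, rfl⟩ := Int.eq_ofNat_of_zero_le hc0
      have h7 : y = b + j * p := by linarith
      rw [h7]
      apply hb
      have h8 : (j : ℤ) * p ≤ 2 * n := by linarith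
      have h9 : (j : ℝ) * p ≤ K * p := by
        have : (j : ℝ) * p ≤ 2 * n := by exact_mod_cast h8
        linarith
      exact le_of_mul_le_mul_right h9 (by exact_mod_cast hp1)
    · exact ⟨0, 0, fun h => absurd h hp⟩
  choose b t hbt using h1
  refine ⟨fun p => ((b p - t p * n : ℤ) : ZMod p), ?_⟩
  -- every covered integer is congruent modulo `n` to an element of `E`
  have h2 : ∀ y ∈ Cov P (fun p => ((b p - t p * n : ℤ) : ZMod p)) n,
      ∃ e ∈ E, (n : ℤ) ∣ e - y := by
    intro y hy
    rw [Cov, mem_filter, mem_Icc] at hy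
    obtain ⟨⟨h3, h4⟩, p, hp, h5⟩ := hy
    have h6 : (p : ℤ) ∣ (y + t p * n) - b p := by
      have h7 : ((y - (b p - t p * n) : ℤ) : ZMod p) = 0 := by
        rw [Int.cast_sub, sub_eq_zero]
        rw [← h5]
        push_cast
        rfl
      rw [ZMod.intCast_zmod_eq_zero_iff_dvd] at h7
      have h8 : (y : ℤ) - (b p - t p * n) = (y + t p * n) - b p := by ring
      rwa [h8] at h7
    refine ⟨y + t p * n, hbt p hp _ (by omega) (by omega) h6, ?_⟩
    exact ⟨t p, by ring⟩
  choose! e he1 he2 using h2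
  apply Finset.card_le_card_of_injOn e (fun y hy => he1 y hy)
  intro y hy z hz hyz
  have h3 := he2 y hy
  have h4 := he2 z hz
  rw [mem_coe, Cov, mem_filter, mem_Icc] at hy hz
  rw [← hyz] at h4
  have h5 : (n : ℤ) ∣ (z : ℤ) - y := by
    have := dvd_sub h3 h4
    have h6 : e y - (y : ℤ) - (e y - z) = z - y := by ring
    rwa [h6] at this
  obtain ⟨c, hc⟩ := h5
  have hn0 : (0 : ℤ) < n := by exact_mod_cast hn
  have h7 : (n : ℤ) * c < n * 1 := by
    have := hy.1.1
    have := hz.1.2
    linarith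
  have h8 : (n : ℤ) * (-1) < n * c := by
    have := hy.1.2
    have := hz.1.1
    linarith
  have h9 := lt_of_mul_lt_mul_left h7 hn0.le
  have h10 := lt_of_mul_lt_mul_left h8 hn0.le
  have h11 : c = 0 := by omega
  rw [h11, mul_zero] at hc
  omega

/-- the number of incidences of the classes with the covered set -/
theorem incidences_cov {n X : ℕ} (P : Finset ℕ)
    (hP : ∀ p ∈ P, X ≤ p ∧ p < 2 * X) (a : (p : ℕ) → ZMod p) :
    P.card * (n / (2 * X)) ≤
      ∑ p ∈ P, ((Cov P a n).filter (fun x : ℕ => (x : ZMod p) = a p)).card := by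
  classical
  have h1 : ∀ p ∈ P, n / (2 * X) ≤
      ((Cov P a n).filter (fun x : ℕ => (x : ZMod p) = a p)).card := by
    intro p hp
    obtain ⟨hp1, hp2⟩ := hP p hp
    refine le_trans (card_Cl_ge (a := a) (p := p) (N := n) (by omega) ?_) ?_
    · calc n / (2 * X) * p ≤ n / (2 * X) * (2 * X) := Nat.mul_le_mul_left _ hp2.le
        _ ≤ n := Nat.div_mul_le_self _ _
    · apply Finset.card_le_card
      intro x hx
      rw [Cl, mem_filter] at hx
      rw [mem_filter, Cov, mem_filter]
      exact ⟨⟨hx.1, p, hp, hx.2⟩, hx.2⟩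
  have h2 := Finset.sum_le_sum h1
  rwa [sum_const, smul_eq_mul] at h2

end Pool.Agent.H605.Mont
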