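import Pool.Agent.H605.Mont.Signs
import Pool.Agent.H605.Mont.Coherence
import Pool.Graph.R_pool_sql_team_seeded_63374d34.N793.LV.Thr

/-!
# Incidences with residue classes give large values of a Dirichlet polynomial
-/

set_option autoImplicit false

open Finset Real

namespace Pool.Agent.H605.Mont

open Pool.Agent.N793.LV

/-- the coefficients -/
noncomputable def coef (P : Finset ℕ) (a : (d : ℕ) → ZMod d) (s : ℕ → ℝ) (h n : ℕ) : ℂ :=
  if n / h ∈ P then (s (n / h) : ℂ) * Complex.exp ((ph (n / h) (a (n / h)) (n % h) : ℝ) * Complex.I)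
  else 0

theorem coef_norm {P : Finset ℕ} {a : (d : ℕ) → ZMod d} {s : ℕ → ℝ}
    (hs : ∀ p, s p = 1 ∨ s p = -1) (h n : ℕ) : ‖coef P a s h n‖ ≤ 1 := by
  rw [coef]
  split_ifs with hc
  · rw [norm_mul, Complex.norm_exp_ofReal_mul_I, mul_one]
    rcases hs (n / h) with e | e <;> rw [e] <;> simp
  · simp

theorem D_coef {P : Finset ℕ} {a : (d : ℕ) → ZMod d} {s : ℕ → ℝ} {M h : ℕ} (hh : 1 ≤ h)
    (hM : ∀ p ∈ P, M ≤ h * p ∧ h * p + h ≤ 2 * M + 1) (t : ℝ) :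
    D M (coef P a s h) t = ∑ p ∈ P, (s p : ℂ) * Bl h p (a p) t := by
  classical
  rw [D]
  have h1 : ∀ n ∈ Icc M (2 * M),
      coef P a s h n * Complex.exp (Complex.I * (t : ℂ) * (Real.log (n : ℝ) : ℂ))
        = if n / h ∈ P then (s (n / h) : ℂ) *
            (Complex.exp ((ph (n / h) (a (n / h)) (n % h) : ℝ) * Complex.I) *
            Complex.exp (((t * Real.log (n : ℝ) : ℝ) : ℂ) * Complex.I)) else 0 := by
    intro n _
    rw [coef, ite_mul, zero_mul]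
    congr 1
    rw [mul_assoc]
    congr 3
    push_cast
    ring
  rw [Finset.sum_congr rfl h1, ← Finset.sum_filter]
  have h2 : ∑ p ∈ P, (s p : ℂ) * Bl h p (a p) t = ∑ x ∈ P ×ˢ range h, (s x.1 : ℂ) *
      (Complex.exp ((ph x.1 (a x.1) x.2 : ℝ) * Complex.I) *
        Complex.exp (((t * Real.log ((h * x.1 + x.2 : ℕ) : ℝ) : ℝ) : ℂ) * Complex.I)) := by
    rw [Finset.sum_product]
    refine Finset.sum_congr rfl fun p _ => ?_
    rw [Bl, Finset.mul_sum]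
  rw [h2]
  refine Finset.sum_nbij' (fun n => (n / h, n % h)) (fun x => h * x.1 + x.2) ?_ ?_ ?_ ?_ ?_
  · intro n hn
    rw [mem_filter] at hn
    rw [mem_product, mem_range]
    exact ⟨hn.2, Nat.mod_lt _ (by omega)⟩
  · rintro ⟨p, m⟩ hx
    rw [mem_product, mem_range] at hx
    dsimp only at hx
    obtain ⟨hp, hm⟩ := hx
    obtain ⟨hp1, hp2⟩ := hM p hp
    have e : (h * p + m) / h = p := by
      rw [Nat.mul_add_div (by omega), Nat.div_eq_of_lt hm, add_zero]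
    rw [mem_filter, mem_Icc]
    dsimp only
    rw [e]
    refine ⟨⟨?_, ?_⟩, hp⟩
    · exact le_trans hp1 (Nat.le_add_right _ _)
    · omega
  · intro n _
    exact Nat.div_add_mod n h
  · rintro ⟨p, m⟩ hx
    rw [mem_product, mem_range] at hx
    dsimp only at hx
    have e1 : (h * p + m) / h = p := by
      rw [Nat.mul_add_div (by omega), Nat.div_eq_of_lt hx.2, add_zero]
    have e2 : (h * p + m) % h = m := by
      rw [Nat.mul_add_mod, Nat.mod_eq_of_lt hx.2]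
    dsimp only
    rw [e1, e2]
  · intro n _
    dsimp only
    rw [Nat.div_add_mod n h]

/-- the first integer point of the window of `x` -/
noncomputable def cx (h x : ℕ) : ℕ := ⌈2 * π * h * x⌉₊

theorem cx_add {h x y X : ℕ} (hh : 1 ≤ h) (hxy : x + X ≤ y) : cx h x + 6 * X ≤ cx h y := by
  have h1 : cx h x + 6 * X = ⌈2 * π * h * x + (6 * X : ℕ)⌉₊ := by
    rw [Nat.ceil_add_natCast (by positivity), cx]
  rw [h1, cx]
  apply Nat.ceil_le_ceil
  have hpi := Real.pi_gt_three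
  have hh' : (1 : ℝ) ≤ h := by exact_mod_cast hh
  have hxy' : (x : ℝ) + X ≤ y := by exact_mod_cast hxy
  have hX : (0 : ℝ) ≤ X := Nat.cast_nonneg X
  have h2 : 6 ≤ 2 * π * h := by nlinarith
  push_cast
  have h3 : 2 * π * h * (x + X) ≤ 2 * π * h * y := mul_le_mul_of_nonneg_left hxy' (by positivity)
  nlinarith

theorem energy {P : Finset ℕ} {a : (d : ℕ) → ZMod d} {N X h M : ℕ} (E : Finset ℕ)
    (hE : E ⊆ Icc 1 N)
    (hP : ∀ p ∈ P, X ≤ p) (hM : ∀ p ∈ P, M ≤ h * p ∧ h * p + h ≤ 2 * M + 1) (hX : 2 ≤ X) (hXN : X ≤ N) (hh : 1 ≤ h)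
    (h8 : 8 * h * N ≤ X ^ 2) :
    ∃ (b : ℕ → ℂ) (W : Finset ℕ), (∀ n, ‖b n‖ ≤ 1) ∧ (∀ t ∈ W, t ≤ 8 * h * N) ∧
      W.card ≤ E.card * (X / 2) ∧
      (((∑ p ∈ P, (E.filter (fun x : ℕ => (x : ZMod p) = a p)).card) * (X / 2) : ℕ) : ℝ)
        * ((h : ℝ) / 2) ^ 2 ≤ ∑ t ∈ W, ‖D M b (t : ℝ)‖ ^ 2 := by
  classical
  obtain ⟨R, hR⟩ : ∃ R, R = X / 2 := ⟨_, rfl⟩
  have hR1 : 1 ≤ R := by omega
  have hR2 : 2 * R ≤ X := by omega
  obtain ⟨W, hW⟩ : ∃ W : Finset ℕ, W = E.biUnion (fun x => Ico (cx h x) (cx h x + R)) :=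
    ⟨_, rfl⟩
  obtain ⟨s, hs, hsum⟩ := signs P W (fun p t => Bl h p (a p) (t : ℝ))
  have hhr : (1 : ℝ) ≤ h := by exact_mod_cast hh
  have hRX : 2 * (R : ℝ) ≤ X := by exact_mod_cast hR2
  have hXNr : (X : ℝ) ≤ N := by exact_mod_cast hXN
  have hX0 : (2 : ℝ) ≤ X := by exact_mod_cast hX
  -- properties of the points of a window
  have hwin : ∀ x : ℕ, x ≤ N → ∀ t ∈ Ico (cx h x) (cx h x + R),
      |(t : ℝ) - 2 * π * h * x| ≤ (X : ℝ) / 2 ∧ t ≤ 8 * h * N := by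
    intro x hx t ht
    rw [mem_Ico] at ht
    have h1 : 2 * π * h * x ≤ t := le_trans (Nat.le_ceil _) (by exact_mod_cast ht.1)
    have h2 : (t : ℝ) < 2 * π * h * x + R := by
      have h3 : (cx h x : ℝ) < 2 * π * h * x + 1 := Nat.ceil_lt_add_one (by positivity)
      have h4 : (t : ℝ) + 1 ≤ cx h x + R := by exact_mod_cast ht.2
      linarith
    constructor
    · rw [abs_of_nonneg (by linarith)]
      linarith
    · have hxr : (x : ℝ) ≤ N := by exact_mod_cast hx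
      have hpi := Real.pi_lt_d2
      have h5 : 2 * π * h * x ≤ 6.3 * (h * N) := by
        have h6 : (h : ℝ) * x ≤ h * N := mul_le_mul_of_nonneg_left hxr (by positivity)
        have h7 : 0 ≤ (h : ℝ) * x := by positivity
        calc 2 * π * h * x = 2 * π * (h * x) := by ring
          _ ≤ 6.3 * (h * x) := mul_le_mul_of_nonneg_right (by linarith) h7
          _ ≤ _ := mul_le_mul_of_nonneg_left h6 (by norm_num)
      have h8' : (N : ℝ) ≤ h * N := le_mul_of_one_le_left (by positivity) hhr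
      have h9 : (t : ℝ) ≤ ((8 * h * N : ℕ) : ℝ) := by
        push_cast
        nlinarith
      exact_mod_cast h9
  refine ⟨coef P a s h, W, coef_norm hs h, ?_, ?_, ?_⟩
  · intro t ht
    rw [hW, mem_biUnion] at ht
    obtain ⟨x, hx, hxt⟩ := ht
    exact (hwin x (mem_Icc.1 (hE hx)).2 t hxt).2
  · rw [hW, ← hR]
    refine le_trans Finset.card_biUnion_le ?_
    rw [Finset.sum_congr rfl (fun x _ => by rw [Nat.card_Ico, Nat.add_sub_cancel_left]),
      sum_const, smul_eq_mul]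
  · have hD : ∑ t ∈ W, ‖D M (coef P a s h) (t : ℝ)‖ ^ 2
        = ∑ t ∈ W, ‖∑ p ∈ P, (s p : ℂ) * Bl h p (a p) (t : ℝ)‖ ^ 2 :=
      Finset.sum_congr rfl fun t _ => by rw [D_coef hh hM]
    rw [hD]
    refine le_trans ?_ hsum
    rw [Finset.sum_comm]
    have hp : ∀ p ∈ P, (((E.filter (fun x : ℕ => (x : ZMod p) = a p)).card * R : ℕ) : ℝ)
        * ((h : ℝ) / 2) ^ 2 ≤ ∑ t ∈ W, ‖Bl h p (a p) (t : ℝ)‖ ^ 2 := by
      intro p hpP
      have hp1 := hP p hpP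
      obtain ⟨U, hU⟩ : ∃ U : Finset ℕ, U = (E.filter (fun x : ℕ => (x : ZMod p) = a p)).biUnion
          (fun x => Ico (cx h x) (cx h x + R)) := ⟨_, rfl⟩
      have hUW : U ⊆ W := by
        rw [hU, hW]
        apply Finset.biUnion_subset_biUnion_of_subset_left
        exact Finset.filter_subset _ _
      have hUc : U.card = (E.filter (fun x : ℕ => (x : ZMod p) = a p)).card * R := by
        rw [hU, Finset.card_biUnion, Finset.sum_congr rfl
          (fun x _ => by rw [Nat.card_Ico, Nat.add_sub_cancel_left]), sum_const, smul_eq_mul]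
        have hdis : ∀ x ∈ E.filter (fun x : ℕ => (x : ZMod p) = a p),
            ∀ y ∈ E.filter (fun x : ℕ => (x : ZMod p) = a p), x < y →
            Disjoint (Ico (cx h x) (cx h x + R)) (Ico (cx h y) (cx h y + R)) := by
          intro x hx y hy hxy
          rw [mem_filter] at hx hy
          have hmod : (x : ZMod p) = (y : ZMod p) := by rw [hx.2, hy.2]
          have hmod2 : (p : ℕ) ∣ y - x := by
            rw [ZMod.natCast_eq_natCast_iff] at hmod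
            exact (Nat.modEq_iff_dvd' hxy.le).1 hmod
          have hge : p ≤ y - x := Nat.le_of_dvd (by omega) hmod2
          have h1 := cx_add (h := h) (x := x) (y := y) (X := X) hh (by omega)
          rw [Finset.disjoint_left]
          intro t ht1 ht2
          rw [mem_Ico] at ht1 ht2
          omega
        intro x hx y hy hxy
        rcases lt_or_gt_of_ne hxy with h1 | h1
        · exact hdis x hx y hy h1
        · exact (hdis y hy x hx h1).symm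
      calc (((E.filter (fun x : ℕ => (x : ZMod p) = a p)).card * R : ℕ) : ℝ) * ((h : ℝ) / 2) ^ 2
          = (U.card : ℝ) * ((h : ℝ) / 2) ^ 2 := by rw [hUc]
        _ = ∑ t ∈ U, ((h : ℝ) / 2) ^ 2 := by rw [sum_const, nsmul_eq_mul]
        _ ≤ ∑ t ∈ U, ‖Bl h p (a p) (t : ℝ)‖ ^ 2 := by
            apply Finset.sum_le_sum
            intro t ht
            rw [hU, mem_biUnion] at ht
            obtain ⟨x, hx, hxt⟩ := ht
            rw [mem_filter] at hx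
            obtain ⟨h1, h2⟩ := hwin x (mem_Icc.1 (hE hx.1)).2 t hxt
            have hpX : (X : ℝ) ≤ p := by exact_mod_cast hp1
            have hco := coherence (h := h) (p := p) hh (by omega) (a p) x hx.2 (t : ℝ)
              (Nat.cast_nonneg t) (le_trans h1 (by linarith)) (by
                have h3 : t ≤ p ^ 2 := le_trans h2 (le_trans h8 (Nat.pow_le_pow_left hp1 2))
                exact_mod_cast h3)
            exact pow_le_pow_left₀ (by positivity) hco 2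
        _ ≤ ∑ t ∈ W, ‖Bl h p (a p) (t : ℝ)‖ ^ 2 :=
            Finset.sum_le_sum_of_subset_of_nonneg hUW fun _ _ _ => by positivity
    have := Finset.sum_le_sum hp
    refine le_trans (le_of_eq ?_) this
    rw [← hR, ← Finset.sum_mul]
    push_cast
    rw [Finset.sum_mul]

/-- Incidences give large values. -/
theorem incidencesM {P : Finset ℕ} {a : (d : ℕ) → ZMod d} {N X h M : ℕ} (E : Finset ℕ)
    (hE : E ⊆ Icc 1 N)
    (hP : ∀ p ∈ P, X ≤ p) (hM : ∀ p ∈ P, M ≤ h * p ∧ h * p + h ≤ 2 * M + 1) (hX : 2 ≤ X) (hXN : X ≤ N) (hh : 1 ≤ h)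
    (h8 : 8 * h * N ≤ X ^ 2) :
    ∃ (b : ℕ → ℂ) (G : Finset ℤ), (∀ n, ‖b n‖ ≤ 1) ∧
      (∀ t ∈ G, 0 ≤ (t : ℝ) ∧ (t : ℝ) ≤ 8 * h * N ∧
        ((∑ p ∈ P, (E.filter (fun x : ℕ => (x : ZMod p) = a p)).card : ℕ) : ℝ) * (h : ℝ) ^ 2
          ≤ 8 * (E.card : ℝ) * ‖D M b (t : ℝ)‖ ^ 2) ∧
      ((∑ p ∈ P, (E.filter (fun x : ℕ => (x : ZMod p) = a p)).card : ℕ) : ℝ) * X * (h : ℝ) ^ 2
        ≤ 32 * ∑ t ∈ G, ‖D M b (t : ℝ)‖ ^ 2 := by
  classical
  obtain ⟨b, W, hb, hWT, hWc, hWe⟩ := energy (a := a) E hE hP hM hX hXN hh h8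
  obtain ⟨I, hI⟩ : ∃ I : ℕ, I = ∑ p ∈ P, (E.filter (fun x : ℕ => (x : ZMod p) = a p)).card :=
    ⟨_, rfl⟩
  rw [← hI] at hWe ⊢
  obtain ⟨R, hR⟩ : ∃ R, R = X / 2 := ⟨_, rfl⟩
  rw [← hR] at hWe hWc
  have hR4 : X ≤ 4 * R := by omega
  have hR0 : 1 ≤ R := by omega
  have hR4r : (X : ℝ) ≤ 4 * R := by exact_mod_cast hR4
  have hR0r : (0 : ℝ) < R := by exact_mod_cast hR0
  have hWcr : (W.card : ℝ) ≤ E.card * R := by exact_mod_cast hWc
  obtain ⟨G, hG⟩ : ∃ G : Finset ℕ, G = W.filter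
    (fun t : ℕ => (I : ℝ) * (h : ℝ) ^ 2 ≤ 8 * (E.card : ℝ) * ‖D M b (t : ℝ)‖ ^ 2) := ⟨_, rfl⟩
  have hsplit := Finset.sum_filter_add_sum_filter_not W
    (fun t : ℕ => (I : ℝ) * (h : ℝ) ^ 2 ≤ 8 * (E.card : ℝ) * ‖D M b (t : ℝ)‖ ^ 2)
    (fun t : ℕ => ‖D M b (t : ℝ)‖ ^ 2)
  rw [← hG] at hsplit
  have hsmall : ∑ t ∈ W.filter (fun t : ℕ => ¬ (I : ℝ) * (h : ℝ) ^ 2 ≤
        8 * (E.card : ℝ) * ‖D M b (t : ℝ)‖ ^ 2), ‖D M b (t : ℝ)‖ ^ 2
      ≤ I * R * (h : ℝ) ^ 2 / 8 := by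
    rcases Nat.eq_zero_or_pos E.card with h0 | h0
    · have hW0 : W = ∅ := by
        rw [← Finset.card_eq_zero]
        have : W.card ≤ 0 := by rw [h0, zero_mul] at hWc; exact hWc
        omega
      rw [hW0, Finset.filter_empty, Finset.sum_empty]
      positivity
    · have hE0 : (0 : ℝ) < E.card := by exact_mod_cast h0
      have h1 : ∀ t ∈ W.filter (fun t : ℕ => ¬ (I : ℝ) * (h : ℝ) ^ 2 ≤
          8 * (E.card : ℝ) * ‖D M b (t : ℝ)‖ ^ 2), ‖D M b (t : ℝ)‖ ^ 2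
          ≤ I * (h : ℝ) ^ 2 / (8 * E.card) := by
        intro t ht
        rw [mem_filter, not_le] at ht
        rw [le_div_iff₀ (by positivity)]
        linarith [ht.2]
      have h2 := Finset.sum_le_card_nsmul _ _ _ h1
      refine le_trans h2 ?_
      rw [nsmul_eq_mul]
      have h3 : (((W.filter (fun t : ℕ => ¬ (I : ℝ) * (h : ℝ) ^ 2 ≤
          8 * (E.card : ℝ) * ‖D M b (t : ℝ)‖ ^ 2)).card : ℕ) : ℝ) ≤ E.card * R := by
        refine le_trans ?_ hWcr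
        exact_mod_cast Finset.card_filter_le _ _
      calc _ ≤ (E.card * R) * (I * (h : ℝ) ^ 2 / (8 * E.card)) :=
            mul_le_mul_of_nonneg_right h3 (by positivity)
        _ = _ := by field_simp
  refine ⟨b, G.map Nat.castEmbedding, hb, ?_, ?_⟩
  · intro t ht
    rw [Finset.mem_map] at ht
    obtain ⟨m, hm, rfl⟩ := ht
    rw [hG, mem_filter] at hm
    simp only [Nat.castEmbedding_apply, Int.cast_natCast]
    refine ⟨Nat.cast_nonneg m, ?_, hm.2⟩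
    exact_mod_cast hWT m hm.1
  · rw [Finset.sum_map]
    simp only [Nat.castEmbedding_apply, Int.cast_natCast]
    push_cast at hWe
    have h5 : (I : ℝ) * R * (h : ℝ) ^ 2 / 8 ≤ ∑ t ∈ G, ‖D M b (t : ℝ)‖ ^ 2 := by
      have : (I : ℝ) * R * ((h : ℝ) / 2) ^ 2 = I * R * (h : ℝ) ^ 2 / 4 := by ring
      linarith
    have h6 : (I : ℝ) * (h : ℝ) ^ 2 * X ≤ I * (h : ℝ) ^ 2 * (4 * R) :=
      mul_le_mul_of_nonneg_left hR4r (by positivity)
    linarith

theorem incidences {P : Finset ℕ} {a : (d : ℕ) → ZMod d} {N X h : ℕ} (E : Finset ℕ)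
    (hE : E ⊆ Icc 1 N)
    (hP : ∀ p ∈ P, X ≤ p ∧ p < 2 * X) (hX : 2 ≤ X) (hXN : X ≤ N) (hh : 1 ≤ h)
    (h8 : 8 * h * N ≤ X ^ 2) :
    ∃ (b : ℕ → ℂ) (G : Finset ℤ), (∀ n, ‖b n‖ ≤ 1) ∧
      (∀ t ∈ G, 0 ≤ (t : ℝ) ∧ (t : ℝ) ≤ 8 * h * N ∧
        ((∑ p ∈ P, (E.filter (fun x : ℕ => (x : ZMod p) = a p)).card : ℕ) : ℝ) * (h : ℝ) ^ 2
          ≤ 8 * (E.card : ℝ) * ‖D (h * X) b (t : ℝ)‖ ^ 2) ∧
      ((∑ p ∈ P, (E.filter (fun x : ℕ => (x : ZMod p) = a p)).card : ℕ) : ℝ) * X * (h : ℝ) ^ 2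
        ≤ 32 * ∑ t ∈ G, ‖D (h * X) b (t : ℝ)‖ ^ 2 := by
  refine incidencesM E hE (fun p hp => (hP p hp).1) (fun p hp => ?_) hX hXN hh h8
  obtain ⟨h1, h2⟩ := hP p hp
  refine ⟨Nat.mul_le_mul_left h h1, ?_⟩
  have : h * (p + 1) ≤ h * (2 * X) := Nat.mul_le_mul_left h (by omega)
  nlinarith

end Pool.Agent.H605.Mont
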