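import Pool.Agent.H605.Kak.Core
import Pool.Agent.H605.Web.Impl2

/-!
# Sparse sets with progressions of a given length for all differences
-/

set_option autoImplicit false

open Finset Filter

namespace Pool.Agent.H605.Mont

open Pool.Agent.H605.Web Pool.Agent.H605.Kak

/-- a base set -/
theorem base (k : ℕ) : ∃ (Q : ℕ) (A : Finset ℕ) (st : ℕ → ℕ), 2 ≤ Q ∧ 2 * A.card ≤ Q ∧
    ∀ d j : ℕ, d < Q → j ≤ k → st d + j * d ∈ A := by
  classical
  obtain ⟨r, hr⟩ : ∃ r : ℕ, 2 * (k + 2) ^ 2 * 2 ^ r ≤ 3 ^ r := by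
    obtain ⟨r, hr⟩ := pow_unbounded_of_one_lt (2 * ((k : ℝ) + 2) ^ 2)
      (show (1 : ℝ) < 3 / 2 by norm_num)
    refine ⟨r, ?_⟩
    have h1 : 2 * ((k : ℝ) + 2) ^ 2 * 2 ^ r ≤ 3 ^ r := by
      rw [div_pow] at hr
      rw [lt_div_iff₀ (by positivity)] at hr
      exact hr.le
    exact_mod_cast h1
  have hr0 : 1 ≤ r := by
    by_contra hc
    have : r = 0 := by omega
    rw [this] at hr
    simp only [pow_zero, mul_one] at hr
    have h1 : 1 ≤ (k + 2) ^ 2 := Nat.one_le_pow _ _ (by omega)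
    omega
  -- `r` primes, at least `3`
  obtain ⟨P, hPsub, hPc⟩ := (Nat.infinite_setOfPred_prime.sdiff (Set.finite_le_nat 2)).exists_subset_card_eq r
  have hP : ∀ p ∈ P, p.Prime ∧ 3 ≤ p := by
    intro p hp
    have h1 := hPsub (mem_coe.2 hp)
    rw [Set.mem_sdiff] at h1
    refine ⟨h1.1, ?_⟩
    have h2 : ¬ p ≤ 2 := h1.2
    omega
  obtain ⟨Q, hQ⟩ : ∃ Q, Q = ∏ p ∈ P, p := ⟨_, rfl⟩
  have hQ0 : 0 < Q := by rw [hQ]; exact Finset.prod_pos fun p hp => (hP p hp).1.pos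
  obtain ⟨A, hA⟩ : ∃ A : Finset ℕ, A = (range (k + 1) ×ˢ range (k + 2)).biUnion
    (fun x => (R P x.1).image (fun r => r + x.2 * Q)) := ⟨_, rfl⟩
  refine ⟨Q, A, fun d => al Q d, ?_, ?_, ?_⟩
  · obtain ⟨p, hp⟩ : P.Nonempty := Finset.card_pos.1 (by omega)
    have h1 := (hP p hp).2
    have h2 : p ≤ Q := by
      rw [hQ]
      exact Nat.le_of_dvd (by rw [← hQ]; exact hQ0) (Finset.dvd_prod_of_mem _ hp)
    omega
  · have h1 : A.card ≤ ∑ x ∈ range (k + 1) ×ˢ range (k + 2), (R P x.1).card := by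
      rw [hA]
      refine Finset.card_biUnion_le.trans (Finset.sum_le_sum fun x _ => Finset.card_image_le)
    have h2 : 3 ^ r * A.card ≤ (k + 2) ^ 2 * (2 ^ r * Q) := by
      calc 3 ^ r * A.card ≤ 3 ^ r * ∑ x ∈ range (k + 1) ×ˢ range (k + 2), (R P x.1).card :=
            Nat.mul_le_mul_left _ h1
        _ = ∑ x ∈ range (k + 1) ×ˢ range (k + 2), 3 ^ r * (R P x.1).card := by rw [mul_sum]
        _ ≤ ∑ x ∈ range (k + 1) ×ˢ range (k + 2), 2 ^ r * Q := by
            refine Finset.sum_le_sum fun x _ => ?_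
            have := card_R hP x.1
            rw [hPc, ← hQ] at this
            exact this
        _ = (k + 1) * (k + 2) * (2 ^ r * Q) := by
            rw [sum_const, card_product, card_range, card_range, smul_eq_mul]
        _ ≤ (k + 2) ^ 2 * (2 ^ r * Q) := by
            apply Nat.mul_le_mul_right
            nlinarith
    have h3 : 2 * (k + 2) ^ 2 * 2 ^ r * (2 * A.card) ≤ 2 * (k + 2) ^ 2 * 2 ^ r * Q := by
      calc 2 * (k + 2) ^ 2 * 2 ^ r * (2 * A.card) ≤ 3 ^ r * (2 * A.card) :=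
            Nat.mul_le_mul_right _ hr
        _ = 2 * (3 ^ r * A.card) := by ring
        _ ≤ 2 * ((k + 2) ^ 2 * (2 ^ r * Q)) := Nat.mul_le_mul_left _ h2
        _ = _ := by ring
    exact Nat.le_of_mul_le_mul_left h3 (by positivity)
  · intro d j hd hj
    rw [hA, mem_biUnion]
    refine ⟨(j, (al Q d + j * d) / Q), ?_, ?_⟩
    · rw [mem_product, mem_range, mem_range]
      refine ⟨by omega, ?_⟩
      rw [Nat.div_lt_iff_lt_mul hQ0]
      have h1 := al_lt hQ0 d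
      have h2 : j * d ≤ k * Q := Nat.mul_le_mul hj hd.le
      nlinarith
    · rw [mem_image]
      refine ⟨(al Q d + j * d) % Q, ?_, ?_⟩
      · have := mem_R hP j d
        rw [← hQ] at this
        exact this
      · exact Nat.mod_add_div' _ _

/-- powers of the base set -/
theorem power {Q k : ℕ} (hQ : 2 ≤ Q) (A : Finset ℕ) (st : ℕ → ℕ)
    (h : ∀ d j : ℕ, d < Q → j ≤ k → st d + j * d ∈ A) (n : ℕ) :
    ∃ E : Finset ℕ, E.card ≤ A.card ^ n ∧
      ∀ d : ℕ, d < Q ^ n → ∃ a : ℕ, ∀ j ≤ k, a + j * d ∈ E := by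
  classical
  induction n with
  | zero =>
    refine ⟨{0}, by simp, fun d hd => ⟨0, fun j _ => ?_⟩⟩
    rw [pow_zero] at hd
    have : d = 0 := by omega
    rw [this]
    simp
  | succ n ih =>
    obtain ⟨E, hE1, hE2⟩ := ih
    refine ⟨(A ×ˢ E).image (fun x => x.1 + Q * x.2), ?_, fun d hd => ?_⟩
    · refine Finset.card_image_le.trans ?_
      rw [card_product, pow_succ, mul_comm]
      exact Nat.mul_le_mul_right _ hE1
    · have h1 : d / Q < Q ^ n := by
        rw [Nat.div_lt_iff_lt_mul (by omega)]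
        rw [pow_succ] at hd
        exact hd
      obtain ⟨a, ha⟩ := hE2 (d / Q) h1
      refine ⟨st (d % Q) + Q * a, fun j hj => ?_⟩
      rw [mem_image]
      refine ⟨(st (d % Q) + j * (d % Q), a + j * (d / Q)), ?_, ?_⟩
      · rw [mem_product]
        exact ⟨h _ _ (Nat.mod_lt _ (by omega)) hj, ha j hj⟩
      · dsimp only
        have h2 := Nat.mod_add_div d Q
        calc st (d % Q) + j * (d % Q) + Q * (a + j * (d / Q))
            = st (d % Q) + Q * a + j * (d % Q + Q * (d / Q)) := by ring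
          _ = st (d % Q) + Q * a + j * d := by rw [h2]

/-- For every `k` there are sets of at most `N^(1-γ)` integers with progressions of length `k` for
all differences `1, …, N`. -/
theorem sparse (k : ℕ) : ∃ γ : ℝ, 0 < γ ∧ γ ≤ 1 ∧ ∃ N₀ : ℕ, ∀ N : ℕ, N₀ ≤ N → ∃ E : Finset ℤ,
    (E.card : ℝ) ≤ (N : ℝ) ^ (1 - γ) ∧ ∀ d : ℕ, 1 ≤ d → d ≤ N → HasAP E k d := by
  classical
  obtain ⟨Q, A, st, hQ, hA, hst⟩ := base k
  have hQr : (2 : ℝ) ≤ Q := by exact_mod_cast hQ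
  have hlogQ : 0 < Real.log Q := Real.log_pos (by linarith)
  have hlog2 : 0 < Real.log 2 := Real.log_pos (by norm_num)
  obtain ⟨g, hg⟩ : ∃ g, g = Real.log 2 / Real.log Q := ⟨_, rfl⟩
  have hg0 : 0 < g := by rw [hg]; positivity
  have hg1 : g ≤ 1 := by
    rw [hg, div_le_one hlogQ]
    exact Real.log_le_log (by norm_num) hQr
  have hQg : (Q : ℝ) ^ g = 2 := by
    rw [Real.rpow_def_of_pos (by linarith), hg, mul_div_cancel₀ _ hlogQ.ne', Real.exp_log (by norm_num)]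
  obtain ⟨N₁, hN₁⟩ := eventually_atTop.1 (ev_pow (Q : ℝ) (half_pos hg0))
  refine ⟨g / 2, half_pos hg0, by linarith, max N₁ 1, fun N hN => ?_⟩
  have hN1 : 1 ≤ N := le_trans (le_max_right _ _) hN
  have hn : (1 : ℝ) ≤ N := by exact_mod_cast hN1
  have hn0 : (0 : ℝ) < N := by linarith
  have hQN := hN₁ N (le_trans (le_max_left _ _) hN)
  obtain ⟨n, hn'⟩ : ∃ n, n = Nat.log Q N := ⟨_, rfl⟩
  have h1 : Q ^ n ≤ N := by rw [hn']; exact Nat.pow_log_le_self Q (by omega)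
  have h2 : N < Q ^ (n + 1) := by rw [hn']; exact Nat.lt_pow_succ_log_self (by omega) N
  obtain ⟨E, hE1, hE2⟩ := power hQ A st hst (n + 1)
  refine ⟨E.map Nat.castEmbedding, ?_, fun d _ hd => ?_⟩
  · rw [Finset.card_map]
    have h3 : (2 : ℝ) ^ (n + 1) * E.card ≤ (Q : ℝ) ^ (n + 1) := by
      have h4 : 2 ^ (n + 1) * E.card ≤ Q ^ (n + 1) := by
        calc 2 ^ (n + 1) * E.card ≤ 2 ^ (n + 1) * A.card ^ (n + 1) := Nat.mul_le_mul_left _ hE1
          _ = (2 * A.card) ^ (n + 1) := by rw [mul_pow]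
          _ ≤ Q ^ (n + 1) := Nat.pow_le_pow_left hA _
      exact_mod_cast h4
    have h5 : (N : ℝ) ^ g ≤ 2 ^ (n + 1) := by
      have h6 : (N : ℝ) ≤ (Q : ℝ) ^ (n + 1) := by exact_mod_cast h2.le
      calc (N : ℝ) ^ g ≤ ((Q : ℝ) ^ (n + 1)) ^ g := Real.rpow_le_rpow hn0.le h6 hg0.le
        _ = ((Q : ℝ) ^ g) ^ (n + 1) := by
            rw [← Real.rpow_natCast, ← Real.rpow_mul (by linarith), mul_comm,
              Real.rpow_mul (by linarith), Real.rpow_natCast]
        _ = 2 ^ (n + 1) := by rw [hQg]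
    have h7 : (Q : ℝ) ^ (n + 1) ≤ Q * N := by
      have h8 : (Q : ℝ) ^ n ≤ N := by exact_mod_cast h1
      rw [pow_succ, mul_comm]
      exact mul_le_mul_of_nonneg_left h8 (by linarith)
    have h9 : (N : ℝ) ^ g * E.card ≤ (N : ℝ) ^ (g / 2) * N := by
      calc (N : ℝ) ^ g * E.card ≤ 2 ^ (n + 1) * E.card :=
            mul_le_mul_of_nonneg_right h5 (Nat.cast_nonneg _)
        _ ≤ _ := h3
        _ ≤ _ := h7
        _ ≤ _ := mul_le_mul_of_nonneg_right hQN hn0.le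
    have h10 : (N : ℝ) ^ g * (N : ℝ) ^ (1 - g / 2) = (N : ℝ) ^ (g / 2) * N := by
      rw [← Real.rpow_add hn0, ← Real.rpow_add_one hn0.ne']
      congr 1
      ring
    rw [← h10] at h9
    exact le_of_mul_le_mul_left h9 (by positivity)
  · obtain ⟨a, ha⟩ := hE2 d (lt_of_le_of_lt hd h2)
    refine ⟨(a : ℤ), fun j hj => ?_⟩
    rw [Finset.mem_map]
    refine ⟨a + j * d, ha j (by exact_mod_cast hj), ?_⟩
    rw [Nat.castEmbedding_apply]
    push_cast
    ring

end Pool.Agent.H605.Mont
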