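import Pool.Agent.H605.Mont.Energy
import Pool.Agent.H605.Mont.Cover
import Pool.Agent.H605.Mont.Sparse
import Pool.Agent.H605.Fix.Basic

/-!
# The range `T ≤ K N`
-/

set_option autoImplicit false

open Finset Real Filter

namespace Pool.Agent.H605.Mont

open Pool.Agent.H170R2.PC Pool.Agent.N793.LV Pool.Agent.H605.Web

/-- The finite statement: a set with progressions of length `4 q` for all differences up to `2 X`
gives a polynomial of length `N` with many large values in `[0, 16 q N]`. -/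
theorem fixed_core {q h N : ℕ} (hq : 1 ≤ q) (hh : 6 ≤ h) (h1 : 16 * q * h ^ 2 ≤ N)
    (h2 : N < 16 * q * (h + 1) ^ 2) (E : Finset ℤ)
    (hE : ∀ d : ℕ, 1 ≤ d → d ≤ 2 * (16 * q * h) → HasAP E ((4 * q : ℕ) : ℝ) d) :
    ∃ (b : ℕ → ℂ) (G : Finset ℤ), (∀ n, ‖b n‖ ≤ 1) ∧
      (∀ t ∈ G, 0 ≤ (t : ℝ) ∧ (t : ℝ) ≤ 16 * q * N ∧
        ((16 * q * h : ℕ) : ℝ) * N ≤ 512 * (E.card : ℝ) * ‖D N b (t : ℝ)‖ ^ 2) ∧
      (q : ℝ) * (N : ℝ) ^ 2 ≤ 256 * ∑ t ∈ G, ‖D N b (t : ℝ)‖ ^ 2 := by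
  obtain ⟨X, hX⟩ : ∃ X, X = 16 * q * h := ⟨_, rfl⟩
  rw [← hX] at hE ⊢
  have hXq : 96 * q ≤ X := by rw [hX]; nlinarith
  have hX2 : 2 ≤ X := by omega
  have hNX : h * X ≤ N := by rw [hX]; nlinarith
  obtain ⟨Nw, hNw⟩ : ∃ Nw, Nw = 2 * q * X := ⟨_, rfl⟩
  have hNw1 : X ≤ Nw := by rw [hNw]; nlinarith
  have hNwdiv : Nw / (2 * X) = q := by
    rw [hNw, show 2 * q * X = q * (2 * X) by ring]
    exact Nat.mul_div_cancel _ (by omega)
  have h8 : 8 * h * Nw = X ^ 2 := by rw [hNw]; rw [hX]; ring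
  obtain ⟨P, hP⟩ : ∃ P, P = Ico (X + 48 * q) (2 * X) := ⟨_, rfl⟩
  have hPm : ∀ p ∈ P, X + 48 * q ≤ p ∧ p < 2 * X := by
    intro p hp
    rw [hP, mem_Ico] at hp
    exact hp
  have hPc : P.card = X - 48 * q := by
    rw [hP, Nat.card_Ico]
    omega
  obtain ⟨a, ha⟩ := cover_le (n := Nw) (by omega) P E ((4 * q : ℕ) : ℝ) (fun p hp => by
    obtain ⟨hp1, hp2⟩ := hPm p hp
    refine ⟨by omega, hE p (by omega) (by omega), ?_⟩
    have h3 : 2 * Nw ≤ 4 * q * p := by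
      rw [hNw]
      have : X ≤ p := by omega
      nlinarith
    exact_mod_cast h3)
  obtain ⟨S, hS⟩ : ∃ S, S = Cov P a Nw := ⟨_, rfl⟩
  rw [← hS] at ha
  obtain ⟨b, G, hb, hG, hsum⟩ := incidencesM (P := P) (a := a) (N := Nw) (X := X) (h := h)
    (M := N) S (by
      rw [hS, Cov]
      exact Finset.filter_subset _ _) (fun p hp => by have := (hPm p hp).1; omega)
    (fun p hp => by
      obtain ⟨hp1, hp2⟩ := hPm p hp
      constructor
      · have h3 : h * (X + 48 * q) ≤ h * p := Nat.mul_le_mul_left h hp1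
        have h4 : 16 * q * (h + 1) ^ 2 ≤ h * (X + 48 * q) := by
          rw [hX]
          nlinarith
        omega
      · have h3 : h * (p + 1) ≤ h * (2 * X) := Nat.mul_le_mul_left h (by omega)
        nlinarith) hX2 hNw1 (by omega) h8.le
  have hI := incidences_cov (n := Nw) (X := X) P
    (fun p hp => ⟨by have := (hPm p hp).1; omega, (hPm p hp).2⟩) a
  rw [← hS, hPc, hNwdiv] at hI
  obtain ⟨I, hI'⟩ : ∃ I : ℕ, I = ∑ p ∈ P, (S.filter (fun x : ℕ => (x : ZMod p) = a p)).card :=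
    ⟨_, rfl⟩
  rw [← hI'] at hI hG hsum
  have hI2 : X * q ≤ 2 * I := by
    have h3 : X ≤ 2 * (X - 48 * q) := by omega
    calc X * q ≤ 2 * (X - 48 * q) * q := Nat.mul_le_mul_right q h3
      _ = 2 * ((X - 48 * q) * q) := by ring
      _ ≤ 2 * I := Nat.mul_le_mul_left 2 hI
  have hN2 : N ≤ 2 * (h * X) := by
    have h3 : 16 * q * (h + 1) ^ 2 ≤ 2 * (16 * q * h ^ 2) := by nlinarith
    have h4 : h * X = 16 * q * h ^ 2 := by rw [hX]; ring
    rw [h4]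
    omega
  have hI2r : (X : ℝ) * q ≤ 2 * I := by exact_mod_cast hI2
  have hN2r : (N : ℝ) ≤ 2 * (h * X) := by exact_mod_cast hN2
  have hqr : (1 : ℝ) ≤ q := by exact_mod_cast hq
  have hX0 : (0 : ℝ) ≤ X := Nat.cast_nonneg X
  have hh0 : (0 : ℝ) ≤ h := Nat.cast_nonneg h
  refine ⟨b, G, hb, ?_, ?_⟩
  · intro t ht
    obtain ⟨h5, h6, h7⟩ := hG t ht
    refine ⟨h5, ?_, ?_⟩
    · have h9 : 8 * h * Nw ≤ 16 * q * N := by
        rw [hNw]
        calc 8 * h * (2 * q * X) = 16 * q * (h * X) := by ring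
          _ ≤ 16 * q * N := Nat.mul_le_mul_left _ hNX
      have h10 : 8 * (h : ℝ) * Nw ≤ 16 * q * N := by exact_mod_cast h9
      linarith
    · have h11 : (X : ℝ) * N / 64 ≤ (I : ℝ) * (h : ℝ) ^ 2 := by
        have h12 : (X : ℝ) = 16 * (q * h) := by rw [hX]; push_cast; ring
        have h13 : (X : ℝ) * q * (h : ℝ) ^ 2 ≤ 2 * I * (h : ℝ) ^ 2 :=
          mul_le_mul_of_nonneg_right hI2r (by positivity)
        have h14 : (X : ℝ) * q * (h : ℝ) ^ 2 = X / 16 * (h * X) := by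
          nth_rewrite 3 [h12]
          ring
        have h15 : (X : ℝ) / 16 * (N / 2) ≤ X / 16 * (h * X) :=
          mul_le_mul_of_nonneg_left (by linarith) (by positivity)
        linarith
      have h16 : (S.card : ℝ) ≤ E.card := by exact_mod_cast ha
      have h17 : 8 * (S.card : ℝ) * ‖D N b (t : ℝ)‖ ^ 2 ≤ 8 * (E.card : ℝ) * ‖D N b (t : ℝ)‖ ^ 2 :=
        mul_le_mul_of_nonneg_right (by linarith) (by positivity)
      linarith
  · have h18 : (X : ℝ) * q * (X * (h : ℝ) ^ 2) ≤ 2 * I * (X * (h : ℝ) ^ 2) :=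
      mul_le_mul_of_nonneg_right hI2r (by positivity)
    have h19 : (N : ℝ) ^ 2 ≤ 4 * (h * X) ^ 2 := by
      have := pow_le_pow_left₀ (Nat.cast_nonneg N) hN2r 2
      linarith
    have h20 : (q : ℝ) * (N : ℝ) ^ 2 ≤ q * (4 * (h * X) ^ 2) :=
      mul_le_mul_of_nonneg_left h19 (by linarith)
    nlinarith

/-- The values above `N ^ σ` contribute at most the proportion `1 / 10000` of `K N ^ 2` to the mean
square on `[0, K N]`. -/
def Share (K σ : ℝ) : Prop :=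
  ∃ N₀ : ℕ, ∀ N : ℕ, N₀ ≤ N → ∀ b : ℕ → ℂ, (∀ n ∈ Icc N (2 * N), ‖b n‖ ≤ 1) →
    ∀ W : Finset ℤ, (∀ t ∈ W, 0 ≤ (t : ℝ) ∧ (t : ℝ) ≤ K * N ∧ (N : ℝ) ^ σ < ‖D N b t‖) →
      ∑ t ∈ W, ‖D N b t‖ ^ 2 ≤ K * (N : ℝ) ^ 2 / 10000

theorem fixed_of_share {K σ : ℝ} (hK : 16 ≤ K) (hσ1 : 1 / 2 ≤ σ) (hσ2 : σ ≤ 3 / 4)
    (hS : Share K σ) :
    ∃ N₀ : ℕ, ∀ N : ℕ, N₀ ≤ N → ∀ E : Finset ℤ,
      (∀ d : ℕ, 1 ≤ d → d ≤ N → HasAP E (K / 4) d) →
        (N : ℝ) ^ (3 - 4 * σ) / 2048 ≤ (E.card : ℝ) := by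
  obtain ⟨N₀, hN₀⟩ := hS
  obtain ⟨q, hq⟩ : ∃ q, q = ⌊K / 16⌋₊ := ⟨_, rfl⟩
  have hq1 : 1 ≤ q := by
    rw [hq]
    apply Nat.le_floor
    rw [Nat.cast_one]
    linarith
  have hqr : (1 : ℝ) ≤ q := by exact_mod_cast hq1
  have hqK : 16 * (q : ℝ) ≤ K := by
    have := Nat.floor_le (show 0 ≤ K / 16 by linarith)
    rw [← hq] at this
    linarith
  have hKq : K < 32 * (q : ℝ) := by
    have := Nat.lt_floor_add_one (K / 16)
    rw [← hq] at this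
    linarith
  refine ⟨32 * q * (N₀ + 6), fun M hM E hE => ?_⟩
  by_contra hcon
  rw [not_le] at hcon
  obtain ⟨h, hh⟩ : ∃ h, h = M / (32 * q) := ⟨_, rfl⟩
  have hh1 : 32 * q * h ≤ M := by rw [hh]; exact Nat.mul_div_le _ _
  have hh2 : M < 32 * q * (h + 1) := by
    rw [hh]
    exact Nat.lt_mul_div_succ _ (by omega)
  have hh3 : N₀ + 6 ≤ h := by
    rw [hh, Nat.le_div_iff_mul_le (by omega)]
    calc (N₀ + 6) * (32 * q) = 32 * q * (N₀ + 6) := by ring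
      _ ≤ M := hM
  obtain ⟨N, hN⟩ : ∃ N, N = 16 * q * h ^ 2 := ⟨_, rfl⟩
  obtain ⟨b, G, hb, hG, hsum⟩ := fixed_core (q := q) (h := h) (N := N) hq1 (by omega) hN.symm.le
    (by
      rw [hN]
      apply Nat.mul_lt_mul_of_pos_left _ (by omega)
      nlinarith) E (fun d hd1 hd2 => by
      refine (hE d hd1 (by
        calc d ≤ 2 * (16 * q * h) := hd2
          _ = 32 * q * h := by ring
          _ ≤ M := hh1)).mono ?_
      push_cast
      linarith)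
  obtain ⟨x, hx⟩ : ∃ x : ℝ, x = ((16 * q * h : ℕ) : ℝ) := ⟨_, rfl⟩
  rw [← hx] at hG
  have hNN : N₀ ≤ N := by
    rw [hN]
    nlinarith
  have hxh : x = 16 * q * h := by rw [hx]; push_cast; ring
  have hhr : (6 : ℝ) ≤ h := by exact_mod_cast (by omega : 6 ≤ h)
  have hx1 : 1 ≤ x := by rw [hxh]; nlinarith
  have hx0 : 0 < x := by linarith
  have hMx : (M : ℝ) ≤ 4 * x := by
    have h3 : M ≤ 4 * (16 * q * h) := by nlinarith
    rw [hx]
    exact_mod_cast h3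
  have hM0 : (0 : ℝ) ≤ M := Nat.cast_nonneg M
  have hNr : (N : ℝ) ≤ x ^ 2 := by
    rw [hN, hxh]
    push_cast
    nlinarith [mul_nonneg (by linarith : (0 : ℝ) ≤ (q : ℝ) - 1 + 1) (sq_nonneg (h : ℝ))]
  have hN0 : (0 : ℝ) < N := by
    have hh0 : 0 < h := by omega
    have : 0 < N := by
      rw [hN]
      exact Nat.mul_pos (Nat.mul_pos (by norm_num) hq1) (pow_pos hh0 2)
    exact_mod_cast this
  have hEx : (E.card : ℝ) < x ^ (3 - 4 * σ) / 512 := by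
    have h4 : (M : ℝ) ^ (3 - 4 * σ) ≤ 4 * x ^ (3 - 4 * σ) := by
      calc (M : ℝ) ^ (3 - 4 * σ) ≤ (4 * x) ^ (3 - 4 * σ) :=
            Real.rpow_le_rpow hM0 hMx (by linarith)
        _ = 4 ^ (3 - 4 * σ) * x ^ (3 - 4 * σ) := Real.mul_rpow (by norm_num) hx0.le
        _ ≤ 4 * x ^ (3 - 4 * σ) := by
            apply mul_le_mul_of_nonneg_right _ (by positivity)
            calc (4 : ℝ) ^ (3 - 4 * σ) ≤ 4 ^ (1 : ℝ) :=
                  Real.rpow_le_rpow_of_exponent_le (by norm_num) (by linarith)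
              _ = 4 := Real.rpow_one _
    linarith
  have hN2σ : (N : ℝ) ^ (2 * σ - 1) ≤ x ^ (4 * σ - 2) := by
    calc (N : ℝ) ^ (2 * σ - 1) ≤ (x ^ 2) ^ (2 * σ - 1) :=
          Real.rpow_le_rpow hN0.le hNr (by linarith)
      _ = x ^ (4 * σ - 2) := by
          rw [← Real.rpow_natCast, ← Real.rpow_mul hx0.le]
          congr 1
          push_cast
          ring
  have hlarge : ∀ t ∈ G, 0 ≤ (t : ℝ) ∧ (t : ℝ) ≤ K * N ∧ (N : ℝ) ^ σ < ‖D N b t‖ := by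
    intro t ht
    obtain ⟨h5, h6, h7⟩ := hG t ht
    refine ⟨h5, le_trans h6 (mul_le_mul_of_nonneg_right hqK hN0.le), ?_⟩
    have hD2 : (N : ℝ) ^ (2 * σ) < ‖D N b (t : ℝ)‖ ^ 2 := by
      by_contra hc
      rw [not_lt] at hc
      have h8 : x * N ≤ 512 * (E.card : ℝ) * (N : ℝ) ^ (2 * σ) :=
        le_trans h7 (mul_le_mul_of_nonneg_left hc (by positivity))
      have h9 : (N : ℝ) ^ (2 * σ) = N * (N : ℝ) ^ (2 * σ - 1) := by
        rw [← Real.rpow_one_add' hN0.le (by linarith)]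
        congr 1
        ring
      have h10 : N * x ≤ N * (512 * (E.card : ℝ) * (N : ℝ) ^ (2 * σ - 1)) := by
        rw [h9] at h8
        linarith
      have h11 := le_of_mul_le_mul_left h10 hN0
      have h12 : 512 * (E.card : ℝ) * (N : ℝ) ^ (2 * σ - 1)
          ≤ 512 * (E.card : ℝ) * x ^ (4 * σ - 2) :=
        mul_le_mul_of_nonneg_left hN2σ (by positivity)
      have h13 : 512 * (E.card : ℝ) * x ^ (4 * σ - 2) < x ^ (3 - 4 * σ) * x ^ (4 * σ - 2) :=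
        mul_lt_mul_of_pos_right (by linarith) (by positivity)
      have h14 : x ^ (3 - 4 * σ) * x ^ (4 * σ - 2) = x := by
        rw [← Real.rpow_add hx0]
        norm_num
      linarith
    have h15 : ((N : ℝ) ^ σ) ^ 2 < ‖D N b (t : ℝ)‖ ^ 2 := by
      refine lt_of_le_of_lt (le_of_eq ?_) hD2
      rw [← Real.rpow_natCast, ← Real.rpow_mul hN0.le]
      congr 1
      push_cast
      ring
    exact lt_of_pow_lt_pow_left₀ 2 (norm_nonneg _) h15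
  have hmean := hN₀ N hNN b (fun n _ => hb n) G hlarge
  have h16 : 0 < (N : ℝ) ^ 2 := by positivity
  have h17 : K * (N : ℝ) ^ 2 < 32 * q * (N : ℝ) ^ 2 := mul_lt_mul_of_pos_right hKq h16
  nlinarith

/-- Unconditionally, a positive proportion of the mean square on `[0, K N]` can be carried by values
above `N ^ (1/2 + η)`. -/
theorem concentration {K : ℝ} (hK : 16 ≤ K) :
    ∃ η : ℝ, 0 < η ∧ ∃ N₀ : ℕ, ∀ N : ℕ, N₀ ≤ N → ∃ (b : ℕ → ℂ) (W : Finset ℤ),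
      (∀ n, ‖b n‖ ≤ 1) ∧
      (∀ t ∈ W, 0 ≤ (t : ℝ) ∧ (t : ℝ) ≤ K * N ∧ (N : ℝ) ^ (1 / 2 + η) < ‖D N b t‖) ∧
      K * (N : ℝ) ^ 2 / 8192 ≤ ∑ t ∈ W, ‖D N b t‖ ^ 2 := by
  obtain ⟨q, hq⟩ : ∃ q, q = ⌊K / 16⌋₊ := ⟨_, rfl⟩
  have hq1 : 1 ≤ q := by
    rw [hq]
    apply Nat.le_floor
    rw [Nat.cast_one]
    linarith
  have hqr : (1 : ℝ) ≤ q := by exact_mod_cast hq1
  have hqK : 16 * (q : ℝ) ≤ K := by
    have := Nat.floor_le (show 0 ≤ K / 16 by linarith)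
    rw [← hq] at this
    linarith
  have hKq : K < 32 * (q : ℝ) := by
    have := Nat.lt_floor_add_one (K / 16)
    rw [← hq] at this
    linarith
  obtain ⟨γ, hγ0, hγ1, M₀, hM₀⟩ := sparse (4 * q)
  obtain ⟨M₁, hM₁⟩ := eventually_atTop.1 (ev_pow 1025 (show 0 < γ / 4 by linarith))
  refine ⟨γ / 8, by linarith, max M₁ (16 * q * (M₀ + 7) ^ 2), fun N hN => ?_⟩
  have hN1 : M₁ ≤ N := le_trans (le_max_left _ _) hN
  have hN2 : 16 * q * (M₀ + 7) ^ 2 ≤ N := le_trans (le_max_right _ _) hN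
  obtain ⟨h, hh⟩ : ∃ h, h = Nat.sqrt (N / (16 * q)) := ⟨_, rfl⟩
  have h1 : 16 * q * h ^ 2 ≤ N := by
    have h3 : h ^ 2 ≤ N / (16 * q) := by rw [hh]; exact Nat.sqrt_le' _
    calc 16 * q * h ^ 2 ≤ 16 * q * (N / (16 * q)) := Nat.mul_le_mul_left _ h3
      _ ≤ N := Nat.mul_div_le _ _
  have h2 : N < 16 * q * (h + 1) ^ 2 := by
    have h3 : N / (16 * q) < (h + 1) ^ 2 := by rw [hh]; exact Nat.lt_succ_sqrt' _
    have h4 : N < 16 * q * (N / (16 * q) + 1) := Nat.lt_mul_div_succ _ (by omega)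
    exact lt_of_lt_of_le h4 (Nat.mul_le_mul_left _ h3)
  have hh6 : M₀ + 6 ≤ h := by
    have h3 : 16 * q * (M₀ + 7) ^ 2 < 16 * q * (h + 1) ^ 2 := lt_of_le_of_lt hN2 h2
    have h4 : (M₀ + 7) ^ 2 < (h + 1) ^ 2 := lt_of_mul_lt_mul_left h3 (by omega)
    have h5 : M₀ + 7 < h + 1 := lt_of_pow_lt_pow_left₀ 2 (by omega) h4
    omega
  obtain ⟨X, hX⟩ : ∃ X, X = 16 * q * h := ⟨_, rfl⟩
  have hX6 : M₀ ≤ 2 * X := by rw [hX]; nlinarith
  obtain ⟨E, hE1, hE2⟩ := hM₀ (2 * X) hX6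
  obtain ⟨b, G, hb, hG, hsum⟩ := fixed_core (q := q) (h := h) (N := N) hq1 (by omega) h1 h2 E
    (fun d hd1 hd2 => hE2 d hd1 (by rw [hX]; exact hd2))
  rw [← hX] at hG
  have hh0 : 1 ≤ h := by omega
  have hXpos : 1 ≤ X := by rw [hX]; nlinarith
  have hXr : (1 : ℝ) ≤ X := by exact_mod_cast hXpos
  have hX0 : (0 : ℝ) < X := by linarith
  have hNX : N ≤ X ^ 2 := by
    rw [hX]
    have h3 : (h + 1) ^ 2 ≤ 4 * h ^ 2 := by nlinarith
    have h4 : 16 * q * (h + 1) ^ 2 ≤ 16 * q * (4 * h ^ 2) := Nat.mul_le_mul_left _ h3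
    have h5 : 16 * q * (4 * h ^ 2) ≤ (16 * q * h) ^ 2 := by
      have : q ≤ q ^ 2 := by nlinarith
      nlinarith [Nat.zero_le (h ^ 2)]
    omega
  have hNXr : (N : ℝ) ≤ (X : ℝ) ^ 2 := by exact_mod_cast hNX
  have hN0 : (0 : ℝ) < N := by
    have : 0 < N := by
      have : 0 < 16 * q * h ^ 2 := by positivity
      omega
    exact_mod_cast this
  have hbig := hM₁ N hN1
  refine ⟨b, G, hb, ?_, ?_⟩
  · intro t ht
    obtain ⟨h5, h6, h7⟩ := hG t ht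
    refine ⟨h5, le_trans h6 (mul_le_mul_of_nonneg_right hqK hN0.le), ?_⟩
    have hcard : (E.card : ℝ) * (X : ℝ) ^ γ ≤ 2 * X := by
      have h8 : (E.card : ℝ) ≤ (2 * X : ℝ) ^ (1 - γ) := by
        refine le_trans hE1 (le_of_eq ?_)
        push_cast
        rfl
      have h9 : (2 * X : ℝ) ^ (1 - γ) ≤ 2 * (X : ℝ) ^ (1 - γ) := by
        rw [Real.mul_rpow (by norm_num) hX0.le]
        apply mul_le_mul_of_nonneg_right _ (by positivity)
        calc (2 : ℝ) ^ (1 - γ) ≤ 2 ^ (1 : ℝ) :=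
              Real.rpow_le_rpow_of_exponent_le (by norm_num) (by linarith)
          _ = 2 := Real.rpow_one _
      calc (E.card : ℝ) * (X : ℝ) ^ γ ≤ 2 * (X : ℝ) ^ (1 - γ) * (X : ℝ) ^ γ :=
            mul_le_mul_of_nonneg_right (h8.trans h9) (by positivity)
        _ = 2 * X := by
            rw [mul_assoc, ← Real.rpow_add hX0]
            norm_num
    have hXN : (N : ℝ) ^ (γ / 2) ≤ (X : ℝ) ^ γ := by
      calc (N : ℝ) ^ (γ / 2) ≤ ((X : ℝ) ^ 2) ^ (γ / 2) :=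
            Real.rpow_le_rpow hN0.le hNXr (by linarith)
        _ = (X : ℝ) ^ γ := by
            rw [← Real.rpow_natCast, ← Real.rpow_mul hX0.le]
            congr 1
            push_cast
            ring
    have hg4 : (N : ℝ) ^ (γ / 4) * (N : ℝ) ^ (γ / 4) = (N : ℝ) ^ (γ / 2) := by
      rw [← Real.rpow_add hN0]
      congr 1
      ring
    obtain ⟨g, hg⟩ : ∃ g, g = (N : ℝ) ^ (γ / 4) := ⟨_, rfl⟩
    rw [← hg] at hg4 hbig
    obtain ⟨z, hz⟩ : ∃ z, z = ‖D N b (t : ℝ)‖ ^ 2 := ⟨_, rfl⟩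
    have hz0 : 0 ≤ z := by rw [hz]; positivity
    rw [← hz] at h7
    -- `X N X^γ ≤ 1024 X z`
    have h10 : (X : ℝ) * N * (X : ℝ) ^ γ ≤ 512 * (2 * X) * z := by
      calc (X : ℝ) * N * (X : ℝ) ^ γ ≤ 512 * (E.card : ℝ) * z * (X : ℝ) ^ γ :=
            mul_le_mul_of_nonneg_right h7 (by positivity)
        _ = 512 * ((E.card : ℝ) * (X : ℝ) ^ γ) * z := by ring
        _ ≤ 512 * (2 * X) * z := by
            apply mul_le_mul_of_nonneg_right _ hz0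
            linarith
    have h11 : (N : ℝ) * (X : ℝ) ^ γ ≤ 1024 * z := by
      have h12 : (X : ℝ) * (N * (X : ℝ) ^ γ) ≤ X * (1024 * z) := by linarith
      exact le_of_mul_le_mul_left h12 hX0
    have h13 : (N : ℝ) * (g * g) ≤ 1024 * z := by
      rw [hg4]
      exact le_trans (mul_le_mul_of_nonneg_left hXN hN0.le) h11
    have h14 : (N : ℝ) * g < z := by
      have h15 : 0 < (N : ℝ) * g := by rw [hg]; positivity
      nlinarith
    have h16 : ((N : ℝ) ^ (1 / 2 + γ / 8)) ^ 2 = N * g := by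
      rw [hg, ← Real.rpow_natCast, ← Real.rpow_mul hN0.le, ← Real.rpow_one_add' hN0.le (by linarith)]
      congr 1
      push_cast
      ring
    have h17 : ((N : ℝ) ^ (1 / 2 + γ / 8)) ^ 2 < ‖D N b (t : ℝ)‖ ^ 2 := by
      rw [h16, ← hz]
      exact h14
    exact lt_of_pow_lt_pow_left₀ 2 (norm_nonneg _) h17
  · have h16 : 0 < (N : ℝ) ^ 2 := by positivity
    have h17 : K * (N : ℝ) ^ 2 < 32 * q * (N : ℝ) ^ 2 := mul_lt_mul_of_pos_right hKq h16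
    nlinarith

theorem fixedFull_of_share (h : ∀ σ : ℝ, 1 / 2 < σ → ∃ K : ℝ, 16 ≤ K ∧ Share K σ) :
    Pool.Agent.H605.Fix.FixedFull := by
  intro ε hε
  obtain ⟨η, hη⟩ : ∃ η, η = min ε 1 / 8 := ⟨_, rfl⟩
  have hmin : 0 < min ε 1 := lt_min hε one_pos
  have hη0 : 0 < η := by rw [hη]; positivity
  have hη1 : 8 * η ≤ ε := by
    rw [hη]
    have := min_le_left ε 1
    linarith
  have hη2 : 8 * η ≤ 1 := by
    rw [hη]
    have := min_le_right ε 1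
    linarith
  obtain ⟨K, hK, hS⟩ := h (1 / 2 + η) (by linarith)
  obtain ⟨N₁, hN₁⟩ := fixed_of_share hK (by linarith) (by linarith) hS
  obtain ⟨N₂, hN₂⟩ := eventually_atTop.1 (ev_pow 2048 (show 0 < 4 * η by linarith))
  refine ⟨⌈K / 4⌉₊, max (max N₁ N₂) 1, fun N hN E hE => ?_⟩
  have h1 : N₁ ≤ N := le_trans (le_trans (le_max_left _ _) (le_max_left _ _)) hN
  have h2 : N₂ ≤ N := le_trans (le_trans (le_max_right _ _) (le_max_left _ _)) hN
  have h3 : 1 ≤ N := le_trans (le_max_right _ _) hN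
  have hn : (1 : ℝ) ≤ N := by exact_mod_cast h3
  have hn0 : (0 : ℝ) < N := by linarith
  have h4 := hN₁ N h1 E (fun d hd1 hd2 => (hE d hd1 hd2).mono (Nat.le_ceil _))
  have h5 := hN₂ N h2
  refine le_trans ?_ h4
  rw [le_div_iff₀ (by norm_num)]
  calc (N : ℝ) ^ (1 - ε) * 2048 ≤ (N : ℝ) ^ (1 - ε) * (N : ℝ) ^ (4 * η) :=
        mul_le_mul_of_nonneg_left h5 (by positivity)
    _ = (N : ℝ) ^ (1 - ε + 4 * η) := by rw [Real.rpow_add hn0]
    _ ≤ (N : ℝ) ^ (3 - 4 * (1 / 2 + η)) :=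
        Real.rpow_le_rpow_of_exponent_le hn (by linarith)

end Pool.Agent.H605.Mont
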