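import Pool.Graph.R_pool_sql_team_seeded_63374d34.N793.LV.Thr

/-!
# From one threshold to the mean square over the large values
-/

set_option autoImplicit false

open Finset Real

namespace Pool.Agent.H605.Mont

open Pool.Agent.N793.LV

theorem D_le (N : ℕ) (hN : 1 ≤ N) (b : ℕ → ℂ) (hb : ∀ n ∈ Icc N (2 * N), ‖b n‖ ≤ 1) (t : ℝ) :
    ‖D N b t‖ ≤ 2 * N := by
  rw [D]
  refine le_trans (norm_sum_le _ _) ?_
  have h1 : ∀ n ∈ Icc N (2 * N),
      ‖b n * Complex.exp (Complex.I * (t : ℂ) * (Real.log (n : ℝ) : ℂ))‖ ≤ 1 := by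
    intro n hn
    rw [norm_mul, norm_e, mul_one]
    exact hb n hn
  refine le_trans (Finset.sum_le_sum h1) ?_
  rw [sum_const, nsmul_eq_mul, mul_one, Nat.card_Icc]
  have : 2 * N + 1 - N = N + 1 := by omega
  rw [this]
  push_cast
  have : (1 : ℝ) ≤ N := by exact_mod_cast hN
  linarith

theorem log_absorb {κ : ℝ} (hκ : 0 < κ) {x : ℝ} (hx : 1 ≤ x) :
    1 + Real.log x ≤ (1 + 2 / κ) * x ^ (κ / 2) := by
  have h1 := Real.log_le_rpow_div (show (0 : ℝ) ≤ x by linarith) (show 0 < κ / 2 by linarith)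
  have h2 : 1 ≤ x ^ (κ / 2) := Real.one_le_rpow hx (by linarith)
  have h3 : x ^ (κ / 2) / (κ / 2) = 2 / κ * x ^ (κ / 2) := by field_simp
  rw [h3] at h1
  linarith

/-- the part of the mean square over the values at most `N ^ (σ + j κ / 4)` -/
theorem level {A ρ σ κ : ℝ} (hA : 1 ≤ A) (hρ : ρ < A) (hκ : 0 < κ)
    (h : Bd A σ (fun x => x ^ ρ)) (j : ℕ) :
    ∃ C : ℝ, 0 ≤ C ∧ ∀ (N : ℕ) (T : ℝ) (b : ℕ → ℂ) (W : Finset ℤ), 1 ≤ N → (N : ℝ) ≤ T →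
      T ≤ (N : ℝ) ^ A → (∀ n ∈ Icc N (2 * N), ‖b n‖ ≤ 1) →
      (∀ t ∈ W, 0 ≤ (t : ℝ) ∧ (t : ℝ) ≤ T ∧ (N : ℝ) ^ σ < ‖D N b t‖) →
      ∑ t ∈ W.filter (fun t : ℤ => ‖D N b (t : ℝ)‖ ≤ (N : ℝ) ^ (σ + j * (κ / 4))), ‖D N b t‖ ^ 2
        ≤ C * (N : ℝ) ^ (ρ + 2 * σ + κ) := by
  induction j with
  | zero =>
    refine ⟨0, le_rfl, fun N T b W hN hNT hTA hb hW => ?_⟩
    rw [zero_mul]
    apply le_of_eq
    apply Finset.sum_eq_zero
    intro t ht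
    rw [mem_filter] at ht
    have h1 := (hW t ht.1).2.2
    have h2 := ht.2
    rw [Nat.cast_zero, zero_mul, add_zero] at h2
    exact absurd h1 (not_lt.2 h2)
  | succ j ih =>
    obtain ⟨C, hC0, hC⟩ := ih
    obtain ⟨C', hC'⟩ := transfer (σ := σ + j * (κ / 4)) hA hρ
      (by have : 0 ≤ (j : ℝ) * (κ / 4) := by positivity
          linarith) h
    refine ⟨C + max C' 0 * (1 + 2 / κ), by positivity, fun N T b W hN hNT hTA hb hW => ?_⟩
    have hN1 : (1 : ℝ) ≤ N := by exact_mod_cast hN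
    have hN0 : (0 : ℝ) < N := by linarith
    have h1 := hC N T b W hN hNT hTA hb hW
    obtain ⟨U, hU⟩ : ∃ U : Finset ℤ, U = W.filter (fun t : ℤ =>
      (N : ℝ) ^ (σ + j * (κ / 4)) < ‖D N b (t : ℝ)‖ ∧
        ‖D N b (t : ℝ)‖ ≤ (N : ℝ) ^ (σ + (j + 1 : ℕ) * (κ / 4))) := ⟨_, rfl⟩
    have hsub : W.filter (fun t : ℤ => ‖D N b (t : ℝ)‖ ≤ (N : ℝ) ^ (σ + (j + 1 : ℕ) * (κ / 4)))
        ⊆ W.filter (fun t : ℤ => ‖D N b (t : ℝ)‖ ≤ (N : ℝ) ^ (σ + j * (κ / 4))) ∪ U := by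
      intro t ht
      rw [mem_filter] at ht
      rw [mem_union, mem_filter, hU, mem_filter]
      by_cases hc : ‖D N b (t : ℝ)‖ ≤ (N : ℝ) ^ (σ + j * (κ / 4))
      · exact Or.inl ⟨ht.1, hc⟩
      · exact Or.inr ⟨ht.1, not_le.1 hc, ht.2⟩
    have hUcard := hC' N T b U hN hNT hTA hb (fun t ht => by
      rw [hU, mem_filter] at ht
      exact ⟨(hW t ht.1).1, (hW t ht.1).2.1, ht.2.1⟩)
    have hUsum : ∑ t ∈ U, ‖D N b t‖ ^ 2 ≤ (U.card : ℝ) * ((N : ℝ) ^ (σ + (j + 1 : ℕ) * (κ / 4))) ^ 2 := by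
      rw [← nsmul_eq_mul]
      apply Finset.sum_le_card_nsmul
      intro t ht
      rw [hU, mem_filter] at ht
      exact pow_le_pow_left₀ (norm_nonneg _) ht.2.2 2
    have hlog := log_absorb hκ hN1
    have e1 : ρ - 2 * (σ + j * (κ / 4) - σ) + 2 * (σ + (j + 1 : ℕ) * (κ / 4)) + κ / 2
        = ρ + 2 * σ + κ := by push_cast; ring
    calc _ ≤ ∑ t ∈ W.filter (fun t : ℤ => ‖D N b (t : ℝ)‖ ≤ (N : ℝ) ^ (σ + j * (κ / 4))) ∪ U,
          ‖D N b t‖ ^ 2 :=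
        Finset.sum_le_sum_of_subset_of_nonneg hsub fun _ _ _ => by positivity
      _ ≤ ∑ t ∈ W.filter (fun t : ℤ => ‖D N b (t : ℝ)‖ ≤ (N : ℝ) ^ (σ + j * (κ / 4))),
          ‖D N b t‖ ^ 2 + ∑ t ∈ U, ‖D N b t‖ ^ 2 := by
        rw [← Finset.sum_union_inter]
        have : 0 ≤ ∑ t ∈ W.filter (fun t : ℤ => ‖D N b (t : ℝ)‖ ≤ (N : ℝ) ^ (σ + j * (κ / 4))) ∩ U,
          ‖D N b t‖ ^ 2 := Finset.sum_nonneg fun _ _ => by positivity
        linarith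
      _ ≤ C * (N : ℝ) ^ (ρ + 2 * σ + κ)
          + max C' 0 * (1 + 2 / κ) * (N : ℝ) ^ (ρ + 2 * σ + κ) := by
        apply add_le_add h1
        refine le_trans hUsum ?_
        have h3 : (U.card : ℝ) ≤ max C' 0 * (((1 + 2 / κ) * (N : ℝ) ^ (κ / 2)) *
            (N : ℝ) ^ (ρ - 2 * (σ + j * (κ / 4) - σ))) := by
          refine le_trans hUcard ?_
          have hlog0 : 0 ≤ 1 + Real.log N := by
            have := Real.log_nonneg hN1
            linarith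
          apply mul_le_mul (le_max_left _ _) _ (by positivity) (le_max_right _ _)
          exact mul_le_mul_of_nonneg_right hlog (by positivity)
        have h4 : ((N : ℝ) ^ (σ + (j + 1 : ℕ) * (κ / 4))) ^ 2
            = (N : ℝ) ^ (2 * (σ + (j + 1 : ℕ) * (κ / 4))) := by
          rw [← Real.rpow_natCast, ← Real.rpow_mul hN0.le]
          congr 1
          push_cast
          ring
        rw [h4]
        refine le_trans (mul_le_mul_of_nonneg_right h3 (by positivity)) (le_of_eq ?_)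
        rw [← e1, Real.rpow_add hN0, Real.rpow_add hN0]
        ring
      _ = _ := by ring

/-- A bound at the threshold `N ^ σ` controls the mean square over all the values above it. -/
theorem moment {A ρ σ κ : ℝ} (hA : 1 ≤ A) (hρ : ρ < A) (hκ : 0 < κ) (hρσ : 0 ≤ ρ + 2 * σ)
    (h : Bd A σ (fun x => x ^ ρ)) :
    ∃ C : ℝ, 0 ≤ C ∧ ∀ (N : ℕ) (T : ℝ) (b : ℕ → ℂ) (W : Finset ℤ), 1 ≤ N → (N : ℝ) ≤ T →
      T ≤ (N : ℝ) ^ A → (∀ n ∈ Icc N (2 * N), ‖b n‖ ≤ 1) →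
      (∀ t ∈ W, 0 ≤ (t : ℝ) ∧ (t : ℝ) ≤ T ∧ (N : ℝ) ^ σ < ‖D N b t‖) →
      ∑ t ∈ W, ‖D N b t‖ ^ 2 ≤ C * (N : ℝ) ^ (ρ + 2 * σ + κ) := by
  obtain ⟨j, hj⟩ := exists_nat_gt ((2 - σ) / (κ / 4))
  rw [div_lt_iff₀ (by linarith)] at hj
  obtain ⟨C, hC0, hC⟩ := level hA hρ hκ h j
  refine ⟨C + 8, by linarith, fun N T b W hN hNT hTA hb hW => ?_⟩
  have hN1 : (1 : ℝ) ≤ N := by exact_mod_cast hN
  have hN0 : (0 : ℝ) < N := by linarith
  have hpow : 1 ≤ (N : ℝ) ^ (ρ + 2 * σ + κ) := Real.one_le_rpow hN1 (by linarith)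
  rcases Nat.lt_or_ge N 2 with h1 | h2
  · have hN' : N = 1 := by omega
    subst hN'
    have hT1 : T ≤ 1 := by
      rw [Nat.cast_one, Real.one_rpow] at hTA
      exact hTA
    have hcard : (W.card : ℝ) ≤ T + 1 := card_le_T W (fun t ht => ⟨(hW t ht).1, (hW t ht).2.1⟩)
      (by
        rw [Nat.cast_one] at hNT
        linarith)
    have hs : ∑ t ∈ W, ‖D 1 b t‖ ^ 2 ≤ (W.card : ℝ) * 4 := by
      rw [← nsmul_eq_mul]
      apply Finset.sum_le_card_nsmul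
      intro t _
      have := D_le 1 le_rfl b hb (t : ℝ)
      rw [Nat.cast_one] at this
      have h0 := norm_nonneg (D 1 b (t : ℝ))
      nlinarith
    nlinarith
  · have hall : W.filter (fun t : ℤ => ‖D N b (t : ℝ)‖ ≤ (N : ℝ) ^ (σ + j * (κ / 4))) = W := by
      apply Finset.filter_true_of_mem
      intro t _
      refine le_trans (D_le N hN b hb t) ?_
      have h3 : (2 : ℝ) * N ≤ (N : ℝ) ^ (2 : ℝ) := by
        rw [Real.rpow_two]
        have : (2 : ℝ) ≤ N := by exact_mod_cast h2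
        nlinarith
      exact le_trans h3 (Real.rpow_le_rpow_of_exponent_le hN1 (by linarith))
    have h4 := hC N T b W hN hNT hTA hb hW
    rw [hall] at h4
    nlinarith

end Pool.Agent.H605.Mont
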