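import Pool.Agent.H605.Mont.Energy
import Pool.Agent.H605.Mont.Levels
import Pool.Agent.H605.Mont.Cover

/-!
# Large values and the discrete Kakeya statement
-/

set_option autoImplicit false

open Finset Real Filter

namespace Pool.Agent.H605.Mont

open Pool.Agent.H170R2.PC Pool.Agent.N793.LV Pool.Agent.H605.Web

/-- The values above `N ^ σ` carry an arbitrarily small proportion of the mean square. -/
def Unsat (σ δ : ℝ) : Prop :=
  ∀ c : ℝ, 0 < c → ∃ N₀ : ℕ, ∀ N : ℕ, N₀ ≤ N → ∀ b : ℕ → ℂ,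
    (∀ n ∈ Icc N (2 * N), ‖b n‖ ≤ 1) → ∀ W : Finset ℤ,
    (∀ t ∈ W, 0 ≤ (t : ℝ) ∧ (t : ℝ) ≤ (N : ℝ) ^ (1 + δ) ∧ (N : ℝ) ^ σ < ‖D N b t‖) →
      ∑ t ∈ W, ‖D N b t‖ ^ 2 ≤ c * (N : ℝ) ^ (2 + δ)

theorem unsat_of_saving {σ δ ρ : ℝ} (hσ : 1 / 2 ≤ σ) (hδ : 0 < δ) (hρ : ρ < 2 + δ - 2 * σ)
    (h : Bd (1 + δ) σ (fun x => x ^ ρ)) : Unsat σ δ := by
  obtain ⟨r, hr⟩ : ∃ r, r = max ρ (-(2 * σ)) := ⟨_, rfl⟩
  have hr1 : 0 ≤ r + 2 * σ := by
    have := le_max_right ρ (-(2 * σ))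
    rw [← hr] at this
    linarith
  have hr2 : r < 2 + δ - 2 * σ := by
    rw [hr]
    exact max_lt hρ (by linarith)
  have h' : Bd (1 + δ) σ (fun x => x ^ r) := Bd_pow (by rw [hr]; exact le_max_left _ _) h
  obtain ⟨k, hk⟩ : ∃ k, k = (2 + δ - 2 * σ - r) / 2 := ⟨_, rfl⟩
  have hk0 : 0 < k := by rw [hk]; linarith
  obtain ⟨C, hC0, hC⟩ := moment (A := 1 + δ) (ρ := r) (σ := σ) (κ := k) (by linarith)
    (by linarith) hk0 hr1 h'
  intro c hc
  obtain ⟨N₀, hN₀⟩ := eventually_atTop.1 (ev_const (C / c) hk0)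
  refine ⟨max N₀ 1, fun N hN b hb W hW => ?_⟩
  have hN1 : 1 ≤ N := le_trans (le_max_right _ _) hN
  have hn : (1 : ℝ) ≤ N := by exact_mod_cast hN1
  have hn0 : (0 : ℝ) < N := by linarith
  have h1 := hC N ((N : ℝ) ^ (1 + δ)) b W hN1 (by
    calc (N : ℝ) = (N : ℝ) ^ (1 : ℝ) := (Real.rpow_one _).symm
      _ ≤ _ := Real.rpow_le_rpow_of_exponent_le hn (by linarith)) le_rfl hb hW
  have h2 := hN₀ N (le_trans (le_max_left _ _) hN)
  rw [div_le_iff₀ hc] at h2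
  refine le_trans h1 ?_
  calc C * (N : ℝ) ^ (r + 2 * σ + k) ≤ ((N : ℝ) ^ k * c) * (N : ℝ) ^ (r + 2 * σ + k) :=
        mul_le_mul_of_nonneg_right h2 (by positivity)
    _ = c * ((N : ℝ) ^ k * (N : ℝ) ^ (r + 2 * σ + k)) := by ring
    _ = c * (N : ℝ) ^ (2 + δ) := by
        rw [← Real.rpow_add hn0]
        congr 2
        rw [hk]
        ring

/-- a moment bound controls the mean square over the large values -/
theorem unsat_of_moment {σ δ e : ℝ} (hδ : 0 < δ) (he : e < δ * (2 * σ - 1))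
    (h : ∃ C : ℝ, ∀ N : ℕ, 1 ≤ N → ∀ b : ℕ → ℂ, (∀ n ∈ Icc N (2 * N), ‖b n‖ ≤ 1) →
      ∀ W : Finset ℤ, (∀ t ∈ W, 0 ≤ (t : ℝ) ∧ (t : ℝ) ≤ (N : ℝ) ^ (1 + δ)) →
        ∑ t ∈ W, ‖D N b t‖ ^ (2 + 2 * δ) ≤ C * (N : ℝ) ^ (2 + 2 * δ + e)) : Unsat σ δ := by
  obtain ⟨C, hC⟩ := h
  intro c hc
  obtain ⟨k, hk⟩ : ∃ k, k = δ * (2 * σ - 1) - e := ⟨_, rfl⟩
  have hk0 : 0 < k := by rw [hk]; linarith
  obtain ⟨N₀, hN₀⟩ := eventually_atTop.1 (ev_const (max C 0 / c) hk0)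
  refine ⟨max N₀ 1, fun N hN b hb W hW => ?_⟩
  have hN1 : 1 ≤ N := le_trans (le_max_right _ _) hN
  have hn : (1 : ℝ) ≤ N := by exact_mod_cast hN1
  have hn0 : (0 : ℝ) < N := by linarith
  have h1 := hC N hN1 b hb W (fun t ht => ⟨(hW t ht).1, (hW t ht).2.1⟩)
  have h2 := hN₀ N (le_trans (le_max_left _ _) hN)
  rw [div_le_iff₀ hc] at h2
  have h3 : ∀ t ∈ W, ‖D N b t‖ ^ 2 * (N : ℝ) ^ (2 * δ * σ) ≤ ‖D N b t‖ ^ (2 + 2 * δ) := by
    intro t ht
    have h4 := (hW t ht).2.2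
    have h5 : 0 < (N : ℝ) ^ σ := by positivity
    have h6 : 0 < ‖D N b (t : ℝ)‖ := lt_trans h5 h4
    rw [Real.rpow_add h6, Real.rpow_two]
    apply mul_le_mul_of_nonneg_left _ (by positivity)
    rw [show 2 * δ * σ = σ * (2 * δ) by ring, Real.rpow_mul hn0.le]
    exact Real.rpow_le_rpow h5.le h4.le (by linarith)
  have h7 := Finset.sum_le_sum h3
  rw [← Finset.sum_mul] at h7
  have h8 : (∑ t ∈ W, ‖D N b t‖ ^ 2) * (N : ℝ) ^ (2 * δ * σ)
      ≤ (c * (N : ℝ) ^ (2 + δ)) * (N : ℝ) ^ (2 * δ * σ) := by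
    calc _ ≤ _ := h7
      _ ≤ C * (N : ℝ) ^ (2 + 2 * δ + e) := h1
      _ ≤ max C 0 * (N : ℝ) ^ (2 + 2 * δ + e) :=
          mul_le_mul_of_nonneg_right (le_max_left _ _) (by positivity)
      _ ≤ ((N : ℝ) ^ k * c) * (N : ℝ) ^ (2 + 2 * δ + e) :=
          mul_le_mul_of_nonneg_right h2 (by positivity)
      _ = c * ((N : ℝ) ^ k * (N : ℝ) ^ (2 + 2 * δ + e)) := by ring
      _ = c * ((N : ℝ) ^ (2 + δ) * (N : ℝ) ^ (2 * δ * σ)) := by
          rw [← Real.rpow_add hn0, ← Real.rpow_add hn0]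
          congr 2
          rw [hk]
          ring
      _ = _ := by ring
  exact le_of_mul_le_mul_right h8 (by positivity)

/-- the numerical part -/
theorem finish {σ κ lam x y L D2 e : ℝ} (hx : 1 ≤ x) (hσ1 : 1 / 2 ≤ σ)
    (hlam : 0 < lam) (hy : y = x ^ κ) (hL0 : 0 < L) (hL : L ≤ 4 * (x ^ 2 / y)) (hD0 : 0 ≤ D2)
    (he : e < lam / (128 * 4 ^ (2 * σ - 1)) * x ^ (1 - (2 - κ) * (2 * σ - 1)))
    (hDe : lam * x * L / 128 ≤ D2 * e) : L ^ (2 * σ) < D2 := by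
  by_contra hc
  rw [not_lt] at hc
  have hx0 : 0 < x := by linarith
  have hLp : 0 < L ^ (2 * σ) := by positivity
  have h2 : L ^ (2 * σ) = L * L ^ (2 * σ - 1) := by
    rw [← Real.rpow_one_add' hL0.le (by linarith)]
    congr 1
    ring
  have hyx : x ^ 2 / y = x ^ (2 - κ) := by
    rw [hy, Real.rpow_sub hx0, Real.rpow_two]
  have h3 : L ^ (2 * σ - 1) ≤ 4 ^ (2 * σ - 1) * x ^ ((2 - κ) * (2 * σ - 1)) := by
    calc L ^ (2 * σ - 1) ≤ (4 * (x ^ 2 / y)) ^ (2 * σ - 1) :=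
          Real.rpow_le_rpow hL0.le hL (by linarith)
      _ = 4 ^ (2 * σ - 1) * (x ^ 2 / y) ^ (2 * σ - 1) := by
          rw [hyx]
          exact Real.mul_rpow (by norm_num) (by positivity)
      _ = _ := by rw [hyx, ← Real.rpow_mul hx0.le]
  obtain ⟨A, hA⟩ : ∃ A, A = (4 : ℝ) ^ (2 * σ - 1) := ⟨_, rfl⟩
  have hA0 : 0 < A := by rw [hA]; positivity
  rw [← hA] at he h3
  obtain ⟨B, hB⟩ : ∃ B, B = x ^ ((2 - κ) * (2 * σ - 1)) := ⟨_, rfl⟩
  have hB0 : 0 < B := by rw [hB]; positivity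
  have hB1 : x ^ (1 - (2 - κ) * (2 * σ - 1)) = x / B := by
    rw [hB, Real.rpow_sub hx0, Real.rpow_one]
  rw [← hB] at h3
  rw [hB1] at he
  -- `D2 * e < lam x L / 128`
  have he0 : 0 < e := by
    by_contra hcon
    rw [not_lt] at hcon
    have h4 : D2 * e ≤ 0 := mul_nonpos_of_nonneg_of_nonpos hD0 hcon
    have h5 : 0 < lam * x * L / 128 := by positivity
    linarith
  have h5 : D2 * e ≤ L * (A * B) * e := by
    apply mul_le_mul_of_nonneg_right _ he0.le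
    refine le_trans hc ?_
    rw [h2]
    exact mul_le_mul_of_nonneg_left h3 hL0.le
  have h6 : L * (A * B) * e < L * (A * B) * (lam / (128 * A) * (x / B)) :=
    mul_lt_mul_of_pos_left he (by positivity)
  have h7 : L * (A * B) * (lam / (128 * A) * (x / B)) = lam * x * L / 128 := by
    field_simp
  linarith

/-- the length of the window: `⌊X^{1+κ}/16⌋`, `κ = 2δ/(1+δ)` -/
noncomputable def win (δ : ℝ) (X : ℕ) : ℕ := ⌊(X : ℝ) ^ (1 + 2 * δ / (1 + δ)) / 16⌋₊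

/-- A set of integers of `[1, win δ X]` containing a positive proportion of the incidences of a
choice of residue classes modulo all integers of `[X, 2X)` is large. -/
theorem rich {σ δ lam : ℝ} (hσ : 1 / 2 ≤ σ) (hδ0 : 0 < δ) (hδ1 : δ < 1) (hlam : 0 < lam)
    (hU : Unsat σ δ) :
    ∃ X₀ : ℕ, ∀ X : ℕ, X₀ ≤ X → ∀ a : (d : ℕ) → ZMod d, ∀ E : Finset ℕ,
      E ⊆ Icc 1 (win δ X) →
      lam * (win δ X : ℝ) ≤
        ((∑ d ∈ Ico X (2 * X), (E.filter (fun x : ℕ => (x : ZMod d) = a d)).card : ℕ) : ℝ) →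
      lam / (128 * 4 ^ (2 * σ - 1)) * (X : ℝ) ^ (1 - (2 - 2 * δ / (1 + δ)) * (2 * σ - 1))
        ≤ (E.card : ℝ) := by
  obtain ⟨N₀, hN₀⟩ := hU (lam / 16384) (by positivity)
  obtain ⟨κ, hκ⟩ : ∃ κ, κ = 2 * δ / (1 + δ) := ⟨_, rfl⟩
  have hκ0 : 0 < κ := by rw [hκ]; positivity
  have hκe : κ * (1 + δ) = 2 * δ := by rw [hκ]; field_simp
  have hκ1 : κ < 1 := by nlinarith
  obtain ⟨M₁, hM₁⟩ := eventually_atTop.1 (ev_const 128 hκ0)
  obtain ⟨M₂, hM₂⟩ := eventually_atTop.1 (ev_const 16 (show 0 < 1 - κ by linarith))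
  refine ⟨M₁ + M₂ + N₀ + 2, fun X hX1 a E hEN hI => ?_⟩
  by_contra hcon
  rw [not_le, ← hκ] at hcon
  obtain ⟨x, hx⟩ : ∃ x : ℝ, x = X := ⟨_, rfl⟩
  have hx2 : (2 : ℝ) ≤ x := by
    rw [hx]
    exact_mod_cast (by omega : 2 ≤ X)
  have hx0 : 0 < x := by linarith
  obtain ⟨y, hy⟩ : ∃ y, y = x ^ κ := ⟨_, rfl⟩
  have hy128 : 128 ≤ y := by
    rw [hy, hx]
    exact hM₁ X (by omega)
  have hy0 : 0 < y := by linarith
  have hyx : 16 * y ≤ x := by
    have h1 : 16 ≤ x ^ (1 - κ) := by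
      rw [hx]
      exact hM₂ X (by omega)
    have h2 : x ^ (1 - κ) * y = x := by
      rw [hy, ← Real.rpow_add hx0]
      norm_num
    calc 16 * y ≤ x ^ (1 - κ) * y := mul_le_mul_of_nonneg_right h1 hy0.le
      _ = x := h2
  -- the window
  obtain ⟨N, hN⟩ : ∃ N, N = win δ X := ⟨_, rfl⟩
  rw [← hN] at hEN hI
  have hN' : N = ⌊x * y / 16⌋₊ := by
    rw [hN, win, ← hκ, ← hx, Real.rpow_add hx0, Real.rpow_one, ← hy]
  have hN1 : (N : ℝ) ≤ x * y / 16 := by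
    rw [hN']
    exact Nat.floor_le (by positivity)
  have hN2 : x * y / 32 ≤ N := by
    have h1 := Nat.lt_floor_add_one (x * y / 16)
    rw [← hN'] at h1
    have h2 : (32 : ℝ) ≤ x * y := by nlinarith
    linarith
  have hN4 : 4 * x ≤ N := by nlinarith
  have hN0 : (0 : ℝ) < N := by linarith
  have hXN : X ≤ N := by
    have : (X : ℝ) ≤ N := by rw [← hx]; linarith
    exact_mod_cast this
  have hNx : (N : ℝ) ≤ x ^ 2 / 256 := by nlinarith
  obtain ⟨k, hk⟩ : ∃ k, k = X ^ 2 / (8 * N) := ⟨_, rfl⟩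
  have hNpos : 0 < N := by exact_mod_cast hN0
  have hk1 : 8 * N * k ≤ X ^ 2 := by rw [hk]; exact Nat.mul_div_le _ _
  have hk2 : X ^ 2 < 8 * N * (k + 1) := by
    rw [hk]
    exact Nat.lt_mul_div_succ _ (by omega)
  have hk1r : 8 * (N : ℝ) * k ≤ x ^ 2 := by rw [hx]; exact_mod_cast hk1
  have hk2r : x ^ 2 < 8 * (N : ℝ) * (k + 1) := by rw [hx]; exact_mod_cast hk2
  have hkup : (k : ℝ) ≤ 4 * x / y := by
    rw [le_div_iff₀ hy0]
    have h1 : 8 * (x * y / 32) * k ≤ 8 * (N : ℝ) * k := by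
      apply mul_le_mul_of_nonneg_right _ (Nat.cast_nonneg k)
      linarith
    have h2 : x * (y * k / 4) ≤ x * x := by nlinarith
    have := le_of_mul_le_mul_left h2 hx0
    linarith
  have hklow : x / y ≤ k := by
    rw [div_le_iff₀ hy0]
    have h1 : 8 * (N : ℝ) * (k + 1) ≤ 8 * (x * y / 16) * (k + 1) := by
      apply mul_le_mul_of_nonneg_right _ (by positivity)
      linarith
    have h2 : x * x < x * (y * (k + 1) / 2) := by nlinarith
    have := lt_of_mul_lt_mul_left h2 hx0.le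
    nlinarith
  have hk0 : 1 ≤ k := by
    have h1 : 0 < x / y := by positivity
    have h2 : (0 : ℝ) < k := by linarith
    have h3 : 0 < k := by exact_mod_cast h2
    omega
  have hkr : (1 : ℝ) ≤ k := by exact_mod_cast hk0
  have hPm : ∀ p ∈ Ico X (2 * X), X ≤ p ∧ p < 2 * X := fun p hp => mem_Ico.1 hp
  obtain ⟨b, G, hb, hG, hsum⟩ := incidences (P := Ico X (2 * X)) (a := a) (N := N) (X := X)
    (h := k) E hEN hPm (by omega) hXN hk0
    (by rw [show 8 * k * N = 8 * N * k by ring]; exact hk1)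
  obtain ⟨I, hI'⟩ : ∃ I : ℕ, I = ∑ p ∈ Ico X (2 * X),
    (E.filter (fun x : ℕ => (x : ZMod p) = a p)).card := ⟨_, rfl⟩
  rw [← hI'] at hI hG hsum
  have hNk : x ^ 2 / 16 ≤ N * k := by nlinarith
  have hIk : lam * (x ^ 2 / 16) * k ≤ (I : ℝ) * (k : ℝ) ^ 2 := by
    calc lam * (x ^ 2 / 16) * k ≤ lam * (N * k) * k := by
          apply mul_le_mul_of_nonneg_right _ (by positivity)
          exact mul_le_mul_of_nonneg_left hNk hlam.le
      _ = (lam * N) * (k : ℝ) ^ 2 := by ring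
      _ ≤ _ := mul_le_mul_of_nonneg_right hI (by positivity)
  -- the length
  obtain ⟨L, hL⟩ : ∃ L : ℝ, L = ((k * X : ℕ) : ℝ) := ⟨_, rfl⟩
  have hL1 : L = k * x := by rw [hL, hx]; push_cast; ring
  have hLlow : x ^ 2 / y ≤ L := by
    rw [hL1]
    calc x ^ 2 / y = x / y * x := by ring
      _ ≤ k * x := mul_le_mul_of_nonneg_right hklow hx0.le
  have hLup : L ≤ 4 * (x ^ 2 / y) := by
    rw [hL1]
    calc k * x ≤ 4 * x / y * x := mul_le_mul_of_nonneg_right hkup hx0.le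
      _ = 4 * (x ^ 2 / y) := by ring
  have hL0 : 0 < L := by rw [hL1]; positivity
  have hpow : (x ^ 2 / y) ^ (1 + δ) = x ^ 2 := by
    have h1 : x ^ 2 / y = x ^ (2 - κ) := by
      rw [hy, Real.rpow_sub hx0, Real.rpow_two]
    rw [h1, ← Real.rpow_mul hx0.le, ← Real.rpow_two]
    congr 1
    linarith
  have hT1 : x ^ 2 ≤ L ^ (1 + δ) := by
    rw [← hpow]
    exact Real.rpow_le_rpow (by positivity) hLlow (by linarith)
  have hT2 : L ^ (1 + δ) ≤ 16 * x ^ 2 := by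
    calc L ^ (1 + δ) ≤ (4 * (x ^ 2 / y)) ^ (1 + δ) :=
          Real.rpow_le_rpow hL0.le hLup (by linarith)
      _ = 4 ^ (1 + δ) * (x ^ 2 / y) ^ (1 + δ) := Real.mul_rpow (by norm_num) (by positivity)
      _ ≤ 16 * x ^ 2 := by
          rw [hpow]
          apply mul_le_mul_of_nonneg_right _ (by positivity)
          calc (4 : ℝ) ^ (1 + δ) ≤ 4 ^ (2 : ℝ) :=
                Real.rpow_le_rpow_of_exponent_le (by norm_num) (by linarith)
            _ = 16 := by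
                rw [Real.rpow_two]
                norm_num
  have hL2 : L ^ (2 + δ) ≤ 16 * x ^ 2 * L := by
    have h1 : L ^ (2 + δ) = L ^ (1 + δ) * L := by
      rw [← Real.rpow_add_one hL0.ne']
      congr 1
      ring
    rw [h1]
    exact mul_le_mul_of_nonneg_right hT2 hL0.le
  have hLN : N₀ ≤ k * X := by
    calc N₀ ≤ X := by omega
      _ = 1 * X := (one_mul X).symm
      _ ≤ k * X := Nat.mul_le_mul_right X hk0
  rw [← hx] at hcon hsum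
  -- large values
  have hlarge : ∀ t ∈ G, 0 ≤ (t : ℝ) ∧ (t : ℝ) ≤ ((k * X : ℕ) : ℝ) ^ (1 + δ) ∧
      ((k * X : ℕ) : ℝ) ^ σ < ‖D (k * X) b t‖ := by
    intro t ht
    obtain ⟨h5, h6, h7⟩ := hG t ht
    rw [← hL]
    refine ⟨h5, ?_, ?_⟩
    · refine le_trans h6 (le_trans ?_ hT1)
      linarith
    · have h10 : lam * x * L / 128 ≤ ‖D (k * X) b (t : ℝ)‖ ^ 2 * E.card := by
        rw [hL1]
        linarith
      have h12 := finish (σ := σ) (κ := κ) (lam := lam) (x := x) (y := y) (L := L)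
        (D2 := ‖D (k * X) b (t : ℝ)‖ ^ 2) (e := E.card) (by linarith) hσ hlam hy hL0 hLup
        (by positivity) hcon h10
      have h13 : (L ^ σ) ^ 2 < ‖D (k * X) b (t : ℝ)‖ ^ 2 := by
        refine lt_of_le_of_lt (le_of_eq ?_) h12
        rw [← Real.rpow_natCast, ← Real.rpow_mul hL0.le]
        congr 1
        push_cast
        ring
      exact lt_of_pow_lt_pow_left₀ 2 (norm_nonneg _) h13
  have hmean := hN₀ (k * X) hLN b (fun n _ => hb n) G hlarge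
  rw [← hL] at hmean
  have h20 : lam * (x ^ 2 * L) / 512 ≤ ∑ t ∈ G, ‖D (k * X) b (t : ℝ)‖ ^ 2 := by
    have := mul_le_mul_of_nonneg_right hIk hx0.le
    rw [hL1]
    linarith
  have h30 : 0 < lam * (x ^ 2 * L) := by positivity
  have h31 : lam * L ^ (2 + δ) ≤ lam * (16 * x ^ 2 * L) := mul_le_mul_of_nonneg_left hL2 hlam.le
  linarith

theorem kakeya_of_unsat {σ : ℝ} (hσ : 1 / 2 ≤ σ)
    (h : ∀ η : ℝ, 0 < η → ∃ δ : ℝ, 0 < δ ∧ δ < η ∧ Unsat (σ + η) δ) :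
    DKfull (3 - 4 * σ) := by
  intro ε hε
  obtain ⟨η, hη⟩ : ∃ η, η = min ε 1 / 32 := ⟨_, rfl⟩
  have hmin : 0 < min ε 1 := lt_min hε one_pos
  have hη0 : 0 < η := by rw [hη]; positivity
  have hη1 : 32 * η ≤ ε := by
    rw [hη]
    have := min_le_left ε 1
    linarith
  have hη2 : 32 * η ≤ 1 := by
    rw [hη]
    have := min_le_right ε 1
    linarith
  obtain ⟨δ, hδ0, hδη, hU⟩ := h η hη0
  obtain ⟨X₀, hX₀⟩ := rich (σ := σ + η) (δ := δ) (lam := 1 / 4) (by linarith) hδ0 (by linarith)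
    (by norm_num) hU
  obtain ⟨κ, hκ⟩ : ∃ κ, κ = 2 * δ / (1 + δ) := ⟨_, rfl⟩
  have hκ0 : 0 < κ := by rw [hκ]; positivity
  have hκe : κ * (1 + δ) = 2 * δ := by rw [hκ]; field_simp
  have hκ1 : κ ≤ 2 * δ := by nlinarith
  obtain ⟨M₁, hM₁⟩ := eventually_atTop.1 (ev_const 128 hκ0)
  obtain ⟨c, hc⟩ : ∃ c, c = (1 / 4 : ℝ) / (128 * 4 ^ (2 * (σ + η) - 1)) := ⟨_, rfl⟩
  have hc0 : 0 < c := by rw [hc]; positivity
  obtain ⟨M₃, hM₃⟩ := eventually_atTop.1 (ev_const (4 / c) (show 0 < 28 * η by linarith))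
  refine ⟨2 * (M₁ + M₃ + X₀ + 2), fun M hM E hE => ?_⟩
  obtain ⟨X, hX⟩ : ∃ X, X = M / 2 := ⟨_, rfl⟩
  have hX1 : M₁ + M₃ + X₀ + 2 ≤ X := by omega
  have hMX : 2 * X ≤ M := by omega
  have hMX2 : M ≤ 3 * X := by omega
  have hM1 : 1 ≤ M := by omega
  have hMr : (1 : ℝ) ≤ M := by exact_mod_cast hM1
  have hM0 : (0 : ℝ) < M := by linarith
  -- `E` is not empty
  have hEne : 1 ≤ E.card := by
    obtain ⟨a, ha⟩ := hE 1 le_rfl hM1
    have h1 := ha 0 (by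
      rw [Nat.cast_zero]
      positivity)
    exact Finset.card_pos.2 ⟨_, h1⟩
  have hEr : (1 : ℝ) ≤ E.card := by exact_mod_cast hEne
  by_contra hcon
  rw [not_le] at hcon
  have hθ0 : 0 < 3 - 4 * σ - ε := by
    by_contra hc
    rw [not_lt] at hc
    have := Real.rpow_le_one_of_one_le_of_nonpos hMr hc
    linarith
  obtain ⟨x, hx⟩ : ∃ x : ℝ, x = X := ⟨_, rfl⟩
  have hx2 : (2 : ℝ) ≤ x := by
    rw [hx]
    exact_mod_cast (by omega : 2 ≤ X)
  have hx0 : 0 < x := by linarith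
  obtain ⟨y, hy⟩ : ∃ y, y = x ^ κ := ⟨_, rfl⟩
  have hy128 : 128 ≤ y := by
    rw [hy, hx]
    exact hM₁ X (by omega)
  have hy0 : 0 < y := by linarith
  -- the window
  obtain ⟨N, hN⟩ : ∃ N, N = win δ X := ⟨_, rfl⟩
  have hN' : N = ⌊x * y / 16⌋₊ := by
    rw [hN, win, ← hκ, ← hx, Real.rpow_add hx0, Real.rpow_one, ← hy]
  have hN1 : (N : ℝ) ≤ x * y / 16 := by
    rw [hN']
    exact Nat.floor_le (by positivity)
  have hN2 : x * y / 32 ≤ N := by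
    have h1 := Nat.lt_floor_add_one (x * y / 16)
    rw [← hN'] at h1
    have h2 : (32 : ℝ) ≤ x * y := by nlinarith
    linarith
  have hN4 : 4 * x ≤ N := by nlinarith
  have hN0 : (0 : ℝ) < N := by linarith
  have hNpos : 0 < N := by exact_mod_cast hN0
  have hPm : ∀ p ∈ Ico X (2 * X), X ≤ p ∧ p < 2 * X := fun p hp => mem_Ico.1 hp
  obtain ⟨a, ha⟩ := cover_le (n := N) hNpos (Ico X (2 * X)) E ((M : ℝ) ^ ε) (fun p hp => by
    obtain ⟨hp1, hp2⟩ := hPm p hp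
    refine ⟨by omega, hE p (by omega) (by omega), ?_⟩
    have hpx : x ≤ p := by rw [hx]; exact_mod_cast hp1
    have hyM : y ≤ (M : ℝ) ^ ε := by
      have hxM : x ≤ M := by
        rw [hx]
        exact_mod_cast (by omega : X ≤ M)
      calc y = x ^ κ := hy
        _ ≤ (M : ℝ) ^ κ := Real.rpow_le_rpow hx0.le hxM hκ0.le
        _ ≤ (M : ℝ) ^ ε := Real.rpow_le_rpow_of_exponent_le hMr (by linarith)
    calc 2 * (N : ℝ) ≤ y * x := by nlinarith
      _ ≤ (M : ℝ) ^ ε * p := mul_le_mul hyM hpx hx0.le (by positivity))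
  have hI := incidences_cov (n := N) (X := X) (Ico X (2 * X)) hPm a
  rw [Nat.card_Ico, show 2 * X - X = X by omega] at hI
  have hIr : (1 / 4 : ℝ) * (win δ X : ℝ) ≤ ((∑ p ∈ Ico X (2 * X),
      ((Cov (Ico X (2 * X)) a N).filter (fun x : ℕ => (x : ZMod p) = a p)).card : ℕ) : ℝ) := by
    rw [← hN]
    obtain ⟨I, hI'⟩ : ∃ I : ℕ, I = ∑ p ∈ Ico X (2 * X),
      ((Cov (Ico X (2 * X)) a N).filter (fun x : ℕ => (x : ZMod p) = a p)).card := ⟨_, rfl⟩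
    rw [← hI'] at hI ⊢
    have h1 : N < 2 * X * (N / (2 * X) + 1) := Nat.lt_mul_div_succ _ (by omega)
    have h2 : N < 2 * I + 2 * X := by
      calc N < 2 * X * (N / (2 * X) + 1) := h1
        _ = 2 * (X * (N / (2 * X))) + 2 * X := by ring
        _ ≤ 2 * I + 2 * X := by omega
    have h3 : (N : ℝ) < 2 * I + 2 * x := by rw [hx]; exact_mod_cast h2
    linarith
  have key := hX₀ X (by omega) a (Cov (Ico X (2 * X)) a N) (by
    rw [Cov, ← hN]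
    exact Finset.filter_subset _ _) hIr
  rw [← hc, ← hκ, ← hx] at key
  have h8 : ((Cov (Ico X (2 * X)) a N).card : ℝ) ≤ E.card := by exact_mod_cast ha
  have h9 : (M : ℝ) ≤ 3 * x := by rw [hx]; exact_mod_cast hMX2
  have h10 : (M : ℝ) ^ (3 - 4 * σ - ε) ≤ 3 * x ^ (3 - 4 * σ - ε) := by
    calc (M : ℝ) ^ (3 - 4 * σ - ε) ≤ (3 * x) ^ (3 - 4 * σ - ε) :=
          Real.rpow_le_rpow hM0.le h9 hθ0.le
      _ = 3 ^ (3 - 4 * σ - ε) * x ^ (3 - 4 * σ - ε) :=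
          Real.mul_rpow (by norm_num) hx0.le
      _ ≤ 3 * x ^ (3 - 4 * σ - ε) := by
          apply mul_le_mul_of_nonneg_right _ (by positivity)
          calc (3 : ℝ) ^ (3 - 4 * σ - ε) ≤ 3 ^ (1 : ℝ) :=
                Real.rpow_le_rpow_of_exponent_le (by norm_num) (by linarith)
            _ = 3 := Real.rpow_one _
  have h11 : x ^ (3 - 4 * σ - ε) * x ^ (28 * η) ≤ x ^ (1 - (2 - κ) * (2 * (σ + η) - 1)) := by
    rw [← Real.rpow_add hx0]
    apply Real.rpow_le_rpow_of_exponent_le (by linarith)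
    nlinarith
  have h12 := hM₃ X (by omega)
  rw [← hx] at h12
  have h13 : 0 < x ^ (3 - 4 * σ - ε) := by positivity
  have h14 : 4 ≤ c * x ^ (28 * η) := by
    have := (div_le_iff₀ hc0).1 h12
    linarith
  have h15 : 4 * x ^ (3 - 4 * σ - ε) ≤ c * x ^ (1 - (2 - κ) * (2 * (σ + η) - 1)) := by
    calc 4 * x ^ (3 - 4 * σ - ε) ≤ (c * x ^ (28 * η)) * x ^ (3 - 4 * σ - ε) :=
          mul_le_mul_of_nonneg_right h14 h13.le
      _ = c * (x ^ (3 - 4 * σ - ε) * x ^ (28 * η)) := by ring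
      _ ≤ _ := mul_le_mul_of_nonneg_left h11 hc0.le
  linarith

end Pool.Agent.H605.Mont
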