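import Pool.Agent.H605.Mont.Fixed
import Pool.Agent.H605.Kak.Asym

/-!
# Sparse sets with long progressions for all differences, with explicit dependence on the length
-/

set_option autoImplicit false

open Finset Real Filter

namespace Pool.Agent.H605.Mont

open Pool.Agent.H170R2.PC Pool.Agent.N793.LV Pool.Agent.H605.Web Pool.Agent.H605.Kak

/-- the base set for all differences below `M`, `M ≥ ∏ p ∈ P, p` -/
theorem base_general {k M : ℕ} {P : Finset ℕ} (hP : ∀ p ∈ P, p.Prime ∧ 3 ≤ p)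
    (hM : ∏ p ∈ P, p ≤ M) :
    ∃ A : Finset ℕ, 3 ^ P.card * A.card ≤ 2 ^ P.card * ((k + 2) ^ 2 * M) ∧
      ∀ d j : ℕ, d < M → j ≤ k → al (∏ p ∈ P, p) d + j * d ∈ A := by
  classical
  obtain ⟨Q, hQ⟩ : ∃ Q, Q = ∏ p ∈ P, p := ⟨_, rfl⟩
  have hQ0 : 0 < Q := by rw [hQ]; exact Finset.prod_pos fun p hp => (hP p hp).1.pos
  rw [← hQ] at hM ⊢
  obtain ⟨L, hL⟩ : ∃ L, L = (k + 1) * M / Q + 1 := ⟨_, rfl⟩
  obtain ⟨A, hA⟩ : ∃ A : Finset ℕ, A = (range (k + 1) ×ˢ range L).biUnion
    (fun x => (R P x.1).image (fun r => r + x.2 * Q)) := ⟨_, rfl⟩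
  refine ⟨A, ?_, ?_⟩
  · have h1 : A.card ≤ ∑ x ∈ range (k + 1) ×ˢ range L, (R P x.1).card := by
      rw [hA]
      refine Finset.card_biUnion_le.trans (Finset.sum_le_sum fun x _ => Finset.card_image_le)
    have h2 : L * Q ≤ (k + 2) * M := by
      rw [hL, add_mul, one_mul]
      have := Nat.div_mul_le_self ((k + 1) * M) Q
      nlinarith
    calc 3 ^ P.card * A.card ≤ 3 ^ P.card * ∑ x ∈ range (k + 1) ×ˢ range L, (R P x.1).card :=
          Nat.mul_le_mul_left _ h1
      _ = ∑ x ∈ range (k + 1) ×ˢ range L, 3 ^ P.card * (R P x.1).card := by rw [mul_sum]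
      _ ≤ ∑ x ∈ range (k + 1) ×ˢ range L, 2 ^ P.card * Q := by
          refine Finset.sum_le_sum fun x _ => ?_
          have := card_R hP x.1
          rw [← hQ] at this
          exact this
      _ = 2 ^ P.card * ((k + 1) * (L * Q)) := by
          rw [sum_const, card_product, card_range, card_range, smul_eq_mul]
          ring
      _ ≤ 2 ^ P.card * ((k + 2) ^ 2 * M) := by
          apply Nat.mul_le_mul_left
          calc (k + 1) * (L * Q) ≤ (k + 1) * ((k + 2) * M) := Nat.mul_le_mul_left _ h2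
            _ ≤ (k + 2) * ((k + 2) * M) := Nat.mul_le_mul_right _ (by omega)
            _ = (k + 2) ^ 2 * M := by ring
  · intro d j hd hj
    rw [hA, mem_biUnion]
    refine ⟨(j, (al Q d + j * d) / Q), ?_, ?_⟩
    · rw [mem_product, mem_range, mem_range, hL]
      refine ⟨by omega, Nat.lt_succ_of_le (Nat.div_le_div_right ?_)⟩
      have h1 := al_lt hQ0 d
      have h2 : j * d ≤ k * M := Nat.mul_le_mul hj hd.le
      have h3 : (k + 1) * M = k * M + M := by ring
      omega
    · rw [mem_image]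
      refine ⟨(al Q d + j * d) % Q, ?_, ?_⟩
      · have := mem_R hP j d
        rw [← hQ] at this
        exact this
      · exact Nat.mod_add_div' _ _

theorem log_bounds {k : ℕ} (hk : 4 ≤ k) :
    (277 : ℝ) / 100 ≤ Real.log ((k : ℝ) + 16) ∧ 1 ≤ Real.log (Real.log ((k : ℝ) + 16)) := by
  have h1 : (277 : ℝ) / 100 ≤ Real.log ((k : ℝ) + 16) := by
    have h2 : Real.log 16 ≤ Real.log ((k : ℝ) + 16) := by
      apply Real.log_le_log (by norm_num)
      have : (0 : ℝ) ≤ k := Nat.cast_nonneg k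
      linarith
    have h3 : Real.log 16 = 4 * Real.log 2 := by
      rw [show (16 : ℝ) = 2 ^ 4 by norm_num, Real.log_pow]
      push_cast
      ring
    have h4 := Real.log_two_gt_d9
    linarith
  refine ⟨h1, ?_⟩
  rw [Real.le_log_iff_exp_le (by linarith)]
  have := Real.exp_one_lt_d9
  linarith

/-- many primes with a small product -/
theorem primes_exist {k : ℕ} (hk : 4 ≤ k) : ∃ P : Finset ℕ, (∀ p ∈ P, p.Prime ∧ 3 ≤ p) ∧
    (k + 2) ^ 3 * 2 ^ P.card ≤ 3 ^ P.card ∧ 2 ≤ ∏ p ∈ P, p ∧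
    Real.log ((∏ p ∈ P, p : ℕ) : ℝ) ≤
      302 * Real.log ((k : ℝ) + 16) * Real.log (Real.log ((k : ℝ) + 16)) := by
  obtain ⟨hL1, ht1⟩ := log_bounds hk
  obtain ⟨L, hL⟩ : ∃ L, L = Real.log ((k : ℝ) + 16) := ⟨_, rfl⟩
  rw [← hL] at hL1 ht1 ⊢
  obtain ⟨t, ht⟩ : ∃ t, t = Real.log L := ⟨_, rfl⟩
  rw [← ht] at ht1 ⊢
  have hL0 : 0 < L := by linarith
  have ht0 : 0 < t := by linarith
  have hLt : 277 / 100 ≤ L * t := by nlinarith
  obtain ⟨z, hz⟩ : ∃ z, z = ⌈200 * (L * t)⌉₊ := ⟨_, rfl⟩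
  have hz1 : 200 * (L * t) ≤ z := by rw [hz]; exact Nat.le_ceil _
  have hz2 : (z : ℝ) ≤ 201 * (L * t) := by
    have : (z : ℝ) < 200 * (L * t) + 1 := by rw [hz]; exact Nat.ceil_lt_add_one (by positivity)
    linarith
  have hz0 : (554 : ℝ) ≤ z := by linarith
  have hzpos : (0 : ℝ) < z := by linarith
  have hlogz : Real.log z ≤ 38 / 5 * t := by
    have h1 : Real.log z ≤ Real.log (256 * (L * t)) := Real.log_le_log hzpos (by linarith)
    have h2 : Real.log (256 * (L * t)) = Real.log 256 + (t + Real.log t) := by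
      rw [Real.log_mul (by norm_num) (by positivity), Real.log_mul hL0.ne' ht0.ne', ht]
    have h3 : Real.log 256 = 8 * Real.log 2 := by
      rw [show (256 : ℝ) = 2 ^ 8 by norm_num, Real.log_pow]
      push_cast
      ring
    have h4 := Real.log_two_lt_d9
    have h5 : Real.log t ≤ t := (Real.log_le_sub_one_of_pos ht0).trans (by linarith)
    linarith
  have hlogz0 : 0 < Real.log z := Real.log_pos (by linarith)
  have hlogz1 : Real.log ((z : ℝ) + 1) ≤ 9 / 100 * z := by
    have h1 : Real.log ((z : ℝ) + 1) = Real.log 32 + Real.log (((z : ℝ) + 1) / 32) := by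
      rw [← Real.log_mul (by norm_num) (by positivity)]
      congr 1
      ring
    have h2 : Real.log 32 = 5 * Real.log 2 := by
      rw [show (32 : ℝ) = 2 ^ 5 by norm_num, Real.log_pow]
      push_cast
      ring
    have h3 := Real.log_two_lt_d9
    have h4 := Real.log_le_sub_one_of_pos (show 0 < ((z : ℝ) + 1) / 32 by positivity)
    linarith
  obtain ⟨P, hPd⟩ : ∃ P, P = (Nat.primesLE z).erase 2 := ⟨_, rfl⟩
  have hP : ∀ p ∈ P, p.Prime ∧ 3 ≤ p := by
    intro p hp
    rw [hPd, Finset.mem_erase, Nat.mem_primesLE] at hp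
    have := hp.2.2.two_le
    exact ⟨hp.2.2, by omega⟩
  obtain ⟨Q, hQ⟩ : ∃ Q, Q = ∏ p ∈ P, p := ⟨_, rfl⟩
  have hQ0 : 0 < Q := by rw [hQ]; exact Finset.prod_pos fun p hp => (hP p hp).1.pos
  have hQ1 : Q ≤ 4 ^ z := by
    refine le_trans ?_ (primorial_le_four_pow z)
    rw [primorial_eq_prod_primesLE, hQ, hPd]
    apply Finset.prod_le_prod_of_subset_of_one_le' (Finset.erase_subset _ _)
    intro p hp _
    exact (Nat.mem_primesLE.1 hp).2.one_le
  have hm1 : 15 * L ≤ P.card := by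
    have h1 : (Nat.primeCounting z : ℝ) - 1 ≤ P.card := by
      have h2 : Nat.primeCounting z = (Nat.primesLE z).card := by
        rw [Nat.primeCounting, Nat.primeCounting', Nat.count_eq_card_filter_range]
        rfl
      have h3 := Finset.pred_card_le_card_erase (s := Nat.primesLE z) (a := 2)
      rw [← hPd, ← h2] at h3
      have h4 : Nat.primeCounting z ≤ P.card + 1 := by omega
      have h5 : (Nat.primeCounting z : ℝ) ≤ P.card + 1 := by exact_mod_cast h4
      linarith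
    have h6 := Chebyshev.pi_ge z
    have h7 : 3 / 5 * (z : ℝ) ≤ z * Real.log 2 - Real.log (z + 1) := by
      have h8 := Real.log_two_gt_d9
      have h11 : (z : ℝ) * (69 / 100) ≤ z * Real.log 2 :=
        mul_le_mul_of_nonneg_left (by linarith only [h8]) (Nat.cast_nonneg _)
      linarith only [h11, hlogz1]
    have h10 : (157 : ℝ) / 10 * L ≤ Nat.primeCounting z := by
      refine le_trans ?_ h6
      rw [le_div_iff₀ hlogz0]
      calc (157 : ℝ) / 10 * L * Real.log z ≤ 157 / 10 * L * (38 / 5 * t) :=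
            mul_le_mul_of_nonneg_left hlogz (by positivity)
        _ ≤ 3 / 5 * z := by linarith
        _ ≤ _ := h7
    linarith
  refine ⟨P, hP, ?_, ?_, ?_⟩
  · have h1 : ((k : ℝ) + 2) ^ 3 ≤ (3 / 2 : ℝ) ^ P.card := by
      have h2 : (3 / 2 : ℝ) ^ P.card = Real.exp (P.card * Real.log (3 / 2)) := by
        rw [mul_comm, Real.exp_mul, Real.exp_log (by norm_num), Real.rpow_natCast]
      have hk0 : (0 : ℝ) < (k : ℝ) + 2 := by positivity
      have h3 : ((k : ℝ) + 2) ^ 3 = Real.exp (3 * Real.log ((k : ℝ) + 2)) := by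
        rw [mul_comm, Real.exp_mul, Real.exp_log hk0]
        norm_cast
      rw [h2, h3]
      apply Real.exp_le_exp.2
      have h4 : Real.log ((k : ℝ) + 2) ≤ L := by
        rw [hL]
        exact Real.log_le_log hk0 (by linarith)
      have h5 := log_three_halves
      have h6 : 15 * L * (2 / 5) ≤ P.card * Real.log (3 / 2) :=
        mul_le_mul hm1 h5 (by norm_num) (Nat.cast_nonneg _)
      linarith
    rw [div_pow, le_div_iff₀ (by positivity)] at h1
    exact_mod_cast h1
  · have h1 : 0 < P.card := by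
      have : (0 : ℝ) < P.card := by linarith
      exact_mod_cast this
    obtain ⟨p, hp⟩ : P.Nonempty := Finset.card_pos.1 h1
    have h2 := (hP p hp).2
    have h3 : p ≤ ∏ p ∈ P, p := by
      exact Nat.le_of_dvd (by rw [← hQ]; exact hQ0) (Finset.dvd_prod_of_mem _ hp)
    omega
  · rw [← hQ]
    have h1 : Real.log (Q : ℝ) ≤ Real.log ((4 : ℝ) ^ z) := by
      apply Real.log_le_log (by exact_mod_cast hQ0)
      exact_mod_cast hQ1
    rw [Real.log_pow] at h1
    have h2 : (z : ℝ) * Real.log 4 ≤ 201 * (L * t) * (3 / 2) :=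
      mul_le_mul hz2 log_four (Real.log_nonneg (by norm_num)) (by positivity)
    nlinarith

/-- For `k ≥ 4` and `N ≥ k^(C log log k)` there are sets of at most `N^(1-γ)` integers,
`γ = c / log log k`, with progressions of length `k` for all differences `1, …, N`. -/
theorem sparse_quant {k : ℕ} (hk : 4 ≤ k) {N : ℕ}
    (hN : 302 * Real.log ((k : ℝ) + 16) * Real.log (Real.log ((k : ℝ) + 16)) ≤ Real.log N) :
    ∃ E : Finset ℤ,
      (E.card : ℝ) ≤ (N : ℝ) ^ (1 - 1 / (2416 * Real.log (Real.log ((k : ℝ) + 16)))) ∧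
      ∀ d : ℕ, 1 ≤ d → d ≤ N → HasAP E k d := by
  classical
  obtain ⟨P, hP, hP3, hQ2, hQlog⟩ := primes_exist hk
  obtain ⟨hL1, ht1⟩ := log_bounds hk
  obtain ⟨L, hL⟩ : ∃ L, L = Real.log ((k : ℝ) + 16) := ⟨_, rfl⟩
  rw [← hL] at hL1 ht1 hN hQlog ⊢
  obtain ⟨t, ht⟩ : ∃ t, t = Real.log L := ⟨_, rfl⟩
  rw [← ht] at ht1 hN hQlog ⊢
  have hL0 : 0 < L := by linarith
  have ht0 : 0 < t := by linarith
  obtain ⟨Q, hQ⟩ : ∃ Q, Q = ∏ p ∈ P, p := ⟨_, rfl⟩
  rw [← hQ] at hQ2 hQlog
  have hlogN : 0 < Real.log N := lt_of_lt_of_le (by positivity) hN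
  have hN0 : (0 : ℝ) < N := by
    by_contra hc
    have : (N : ℝ) = 0 := le_antisymm (not_lt.1 hc) (Nat.cast_nonneg _)
    rw [this, Real.log_zero] at hlogN
    exact lt_irrefl _ hlogN
  have hQ0 : (0 : ℝ) < Q := by exact_mod_cast (by omega : 0 < Q)
  have hQN : Q ≤ N := by
    have : (Q : ℝ) ≤ N := (Real.log_le_log_iff hQ0 hN0).1 (hQlog.trans hN)
    exact_mod_cast this
  have hNne : N ≠ 0 := by omega
  obtain ⟨n, hn⟩ : ∃ n, n = Nat.log Q N := ⟨_, rfl⟩
  have h1 : Q ^ n ≤ N := by rw [hn]; exact Nat.pow_log_le_self Q hNne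
  have h2 : N < Q ^ (n + 1) := by rw [hn]; exact Nat.lt_pow_succ_log_self (by omega) N
  have hn1 : 1 ≤ n := by
    by_contra hc
    have : n = 0 := by omega
    rw [this, zero_add, pow_one] at h2
    omega
  -- the smallest `M` with `N < M ^ n`
  have hex : ∃ m : ℕ, N < m ^ n := ⟨N + 1, by
    calc N < N + 1 := Nat.lt_succ_self N
      _ = (N + 1) ^ 1 := (pow_one _).symm
      _ ≤ (N + 1) ^ n := Nat.pow_le_pow_right (Nat.succ_pos N) hn1⟩
  obtain ⟨M, hM1, hM2⟩ : ∃ M, N < M ^ n ∧ ¬ N < (M - 1) ^ n ∧ 1 ≤ M := by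
    refine ⟨Nat.find hex, Nat.find_spec hex, ?_, ?_⟩
    · have hpos : 0 < Nat.find hex := by
        rw [Nat.pos_iff_ne_zero]
        intro h0
        have := Nat.find_spec hex
        rw [h0, zero_pow (by omega)] at this
        omega
      exact Nat.find_min hex (by omega)
    · rw [Nat.one_le_iff_ne_zero]
      intro h0
      have := Nat.find_spec hex
      rw [h0, zero_pow (by omega)] at this
      omega
  obtain ⟨hM3, hM4⟩ := hM2
  rw [not_lt] at hM3
  have hQM : Q ≤ M := by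
    by_contra hc
    rw [not_le] at hc
    have := Nat.pow_le_pow_left hc.le n
    omega
  have hM5 : M ^ n ≤ 2 ^ n * N := by
    calc M ^ n ≤ (2 * (M - 1)) ^ n := Nat.pow_le_pow_left (by omega) n
      _ = 2 ^ n * (M - 1) ^ n := by rw [mul_pow]
      _ ≤ 2 ^ n * N := Nat.mul_le_mul_left _ hM3
  obtain ⟨A, hA, hst⟩ := base_general (k := k) (M := M) hP (by rw [← hQ]; exact hQM)
  have hA2 : (k + 2) * A.card ≤ M := by
    have h3 : 2 ^ P.card * (k + 2) ^ 2 * ((k + 2) * A.card) ≤ 2 ^ P.card * (k + 2) ^ 2 * M := by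
      calc 2 ^ P.card * (k + 2) ^ 2 * ((k + 2) * A.card)
          = (k + 2) ^ 3 * 2 ^ P.card * A.card := by ring
        _ ≤ 3 ^ P.card * A.card := Nat.mul_le_mul_right _ hP3
        _ ≤ 2 ^ P.card * ((k + 2) ^ 2 * M) := hA
        _ = _ := by ring
    exact Nat.le_of_mul_le_mul_left h3 (by positivity)
  obtain ⟨E, hE1, hE2⟩ := power (Q := M) (k := k) (by omega) A (fun d => al (∏ p ∈ P, p) d)
    hst n
  refine ⟨E.map Nat.castEmbedding, ?_, fun d _ hd => ?_⟩
  · rw [Finset.card_map]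
    have h3 : ((k : ℝ) + 2) ^ n * E.card ≤ 2 ^ n * N := by
      have h4 : (k + 2) ^ n * E.card ≤ 2 ^ n * N := by
        calc (k + 2) ^ n * E.card ≤ (k + 2) ^ n * A.card ^ n := Nat.mul_le_mul_left _ hE1
          _ = ((k + 2) * A.card) ^ n := by rw [mul_pow]
          _ ≤ M ^ n := Nat.pow_le_pow_left hA2 _
          _ ≤ 2 ^ n * N := hM5
      exact_mod_cast h4
    have hk2 : (0 : ℝ) < (k : ℝ) + 2 := by positivity
    have hkr : (4 : ℝ) ≤ k := by exact_mod_cast hk
    have h4 : (((k : ℝ) + 2) / 2) ^ n * E.card ≤ N := by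
      rw [div_pow, div_mul_eq_mul_div, div_le_iff₀ (by positivity)]
      linarith
    have hlk : L / 4 ≤ Real.log (((k : ℝ) + 2) / 2) := by
      have h5 : L ≤ 2 * Real.log ((k : ℝ) + 2) := by
        have : Real.log (((k : ℝ) + 2) ^ 2) = 2 * Real.log ((k : ℝ) + 2) := by
          rw [Real.log_pow]; push_cast; ring
        rw [← this, hL]
        apply Real.log_le_log (by positivity)
        nlinarith
      have h6 : Real.log ((k : ℝ) + 2) ≤ 2 * Real.log (((k : ℝ) + 2) / 2) := by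
        have : Real.log ((((k : ℝ) + 2) / 2) ^ 2) = 2 * Real.log (((k : ℝ) + 2) / 2) := by
          rw [Real.log_pow]; push_cast; ring
        rw [← this]
        apply Real.log_le_log (by positivity)
        nlinarith
      linarith
    have hnlog : Real.log N ≤ 2 * n * (302 * L * t) := by
      have h5 : (N : ℝ) ≤ (Q : ℝ) ^ (n + 1) := by exact_mod_cast h2.le
      have h6 : Real.log N ≤ ((n + 1 : ℕ) : ℝ) * Real.log Q := by
        rw [← Real.log_pow]
        exact Real.log_le_log hN0 h5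
      have h7 : ((n + 1 : ℕ) : ℝ) ≤ 2 * n := by
        have : (1 : ℝ) ≤ n := by exact_mod_cast hn1
        push_cast
        linarith
      have h8 : 0 ≤ Real.log Q := Real.log_nonneg (by exact_mod_cast (by omega : 1 ≤ Q))
      calc Real.log N ≤ ((n + 1 : ℕ) : ℝ) * Real.log Q := h6
        _ ≤ 2 * n * (302 * L * t) := mul_le_mul h7 hQlog h8 (by positivity)
    obtain ⟨g, hg⟩ : ∃ g, g = 1 / (2416 * t) := ⟨_, rfl⟩
    rw [← hg]
    have h9 : (N : ℝ) ^ g ≤ (((k : ℝ) + 2) / 2) ^ n := by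
      rw [Real.rpow_def_of_pos hN0]
      have h10 : (((k : ℝ) + 2) / 2) ^ n = Real.exp (Real.log (((k : ℝ) + 2) / 2) * n) := by
        rw [Real.exp_mul, Real.exp_log (by positivity), Real.rpow_natCast]
      rw [h10]
      apply Real.exp_le_exp.2
      rw [hg, mul_one_div, div_le_iff₀ (by positivity)]
      have h11 : L / 4 * n ≤ Real.log (((k : ℝ) + 2) / 2) * n :=
        mul_le_mul_of_nonneg_right hlk (Nat.cast_nonneg _)
      calc Real.log N ≤ 2 * n * (302 * L * t) := hnlog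
        _ = L / 4 * n * (2416 * t) := by ring
        _ ≤ Real.log (((k : ℝ) + 2) / 2) * n * (2416 * t) :=
            mul_le_mul_of_nonneg_right h11 (by positivity)
    have h12 : (N : ℝ) ^ g * E.card ≤ (N : ℝ) ^ g * (N : ℝ) ^ (1 - g) := by
      rw [← Real.rpow_add hN0]
      have : g + (1 - g) = 1 := by ring
      rw [this, Real.rpow_one]
      exact (mul_le_mul_of_nonneg_right h9 (Nat.cast_nonneg _)).trans h4
    exact le_of_mul_le_mul_left h12 (by positivity)
  · obtain ⟨a, ha⟩ := hE2 d (lt_of_le_of_lt hd hM1)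
    refine ⟨(a : ℤ), fun j hj => ?_⟩
    rw [Finset.mem_map]
    refine ⟨a + j * d, ha j (by exact_mod_cast hj), ?_⟩
    rw [Nat.castEmbedding_apply]
    push_cast
    ring

end Pool.Agent.H605.Mont
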