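import Pool.Agent.H605.Mont.Quant

/-!
# Concentration of the mean square on large values, with explicit exponents
-/

set_option autoImplicit false

open Finset Real Filter

namespace Pool.Agent.H605.Mont

open Pool.Agent.H170R2.PC Pool.Agent.N793.LV Pool.Agent.H605.Web

theorem logK_bounds {K : ℝ} (hK : 16 ≤ K) :
    (277 : ℝ) / 100 ≤ Real.log K ∧ 1 ≤ Real.log (Real.log K) := by
  have h1 : (277 : ℝ) / 100 ≤ Real.log K := by
    have h2 : Real.log 16 ≤ Real.log K := Real.log_le_log (by norm_num) hK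
    have h3 : Real.log 16 = 4 * Real.log 2 := by
      rw [show (16 : ℝ) = 2 ^ 4 by norm_num, Real.log_pow]
      push_cast
      ring
    have h4 := Real.log_two_gt_d9
    linarith
  refine ⟨h1, ?_⟩
  rw [Real.le_log_iff_exp_le (by linarith)]
  have := Real.exp_one_lt_d9
  linarith

/-- For `16 ≤ K` and `N ≥ K^(C log log K)` a positive proportion of the mean square on `[0, K N]`
can be carried by values above `N^(1/2 + c / log log K)`. -/
theorem concentration_quant {K : ℝ} (hK : 16 ≤ K) {N : ℕ}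
    (hN : 100000 * (Real.log K * Real.log (Real.log K)) ≤ Real.log N) :
    ∃ (b : ℕ → ℂ) (W : Finset ℤ), (∀ n, ‖b n‖ ≤ 1) ∧
      (∀ t ∈ W, 0 ≤ (t : ℝ) ∧ (t : ℝ) ≤ K * N ∧
        (N : ℝ) ^ (1 / 2 + 1 / (100000 * Real.log (Real.log K))) < ‖D N b t‖) ∧
      K * (N : ℝ) ^ 2 / 8192 ≤ ∑ t ∈ W, ‖D N b t‖ ^ 2 := by
  obtain ⟨hK1, hK2⟩ := logK_bounds hK
  obtain ⟨s, hs⟩ : ∃ s, s = Real.log K := ⟨_, rfl⟩
  rw [← hs] at hN hK1 hK2 ⊢
  obtain ⟨r, hr⟩ : ∃ r, r = Real.log s := ⟨_, rfl⟩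
  rw [← hr] at hN hK2 ⊢
  have hs0 : 0 < s := by linarith
  have hr0 : 0 < r := by linarith
  have hK0 : 0 < K := by linarith
  have hsr : s ≤ s * r := by nlinarith
  have hlogN0 : 0 < Real.log N := lt_of_lt_of_le (by positivity) hN
  have hN0 : (0 : ℝ) < N := by
    by_contra hc
    have : (N : ℝ) = 0 := le_antisymm (not_lt.1 hc) (Nat.cast_nonneg _)
    rw [this, Real.log_zero] at hlogN0
    exact lt_irrefl _ hlogN0
  obtain ⟨q, hq⟩ : ∃ q, q = ⌊K / 16⌋₊ := ⟨_, rfl⟩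
  have hq1 : 1 ≤ q := by
    rw [hq]
    apply Nat.le_floor
    rw [Nat.cast_one]
    linarith
  have hqr : (1 : ℝ) ≤ q := by exact_mod_cast hq1
  have hqK : 16 * (q : ℝ) ≤ K := by
    have := Nat.floor_le (show 0 ≤ K / 16 by linarith)
    rw [← hq] at this
    linarith
  have hKq : K < 32 * (q : ℝ) := by
    have := Nat.lt_floor_add_one (K / 16)
    rw [← hq] at this
    linarith
  -- `N` is large
  have hNbig : 49 * K ≤ N := by
    have h1 : Real.log (49 * K) ≤ Real.log N := by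
      have h2 : Real.log 49 ≤ 6 * Real.log 2 := by
        have : Real.log (2 ^ 6 : ℝ) = 6 * Real.log 2 := by rw [Real.log_pow]; push_cast; ring
        rw [← this]
        exact Real.log_le_log (by norm_num) (by norm_num)
      have h3 := Real.log_two_lt_d9
      rw [Real.log_mul (by norm_num) hK0.ne', ← hs]
      linarith
    exact (Real.log_le_log_iff (by positivity) hN0).1 h1
  obtain ⟨h, hh⟩ : ∃ h, h = Nat.sqrt (N / (16 * q)) := ⟨_, rfl⟩
  have h1 : 16 * q * h ^ 2 ≤ N := by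
    have h3 : h ^ 2 ≤ N / (16 * q) := by rw [hh]; exact Nat.sqrt_le' _
    calc 16 * q * h ^ 2 ≤ 16 * q * (N / (16 * q)) := Nat.mul_le_mul_left _ h3
      _ ≤ N := Nat.mul_div_le _ _
  have h2 : N < 16 * q * (h + 1) ^ 2 := by
    have h3 : N / (16 * q) < (h + 1) ^ 2 := by rw [hh]; exact Nat.lt_succ_sqrt' _
    have h4 : N < 16 * q * (N / (16 * q) + 1) := Nat.lt_mul_div_succ _ (by omega)
    exact lt_of_lt_of_le h4 (Nat.mul_le_mul_left _ h3)
  have hh6 : 6 ≤ h := by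
    have h3 : 16 * q * 7 ^ 2 < 16 * q * (h + 1) ^ 2 := by
      refine lt_of_le_of_lt ?_ h2
      have : ((16 * q * 7 ^ 2 : ℕ) : ℝ) ≤ N := by
        push_cast
        linarith
      exact_mod_cast this
    have h4 : 7 ^ 2 < (h + 1) ^ 2 := lt_of_mul_lt_mul_left h3 (by omega)
    have h5 : 7 < h + 1 := lt_of_pow_lt_pow_left₀ 2 (by omega) h4
    omega
  obtain ⟨X, hX⟩ : ∃ X, X = 16 * q * h := ⟨_, rfl⟩
  have hh0 : 1 ≤ h := by omega
  have hXpos : 1 ≤ X := by rw [hX]; nlinarith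
  have hXr : (1 : ℝ) ≤ X := by exact_mod_cast hXpos
  have hX0 : (0 : ℝ) < X := by linarith
  have hNX : N ≤ X ^ 2 := by
    rw [hX]
    have h3 : (h + 1) ^ 2 ≤ 4 * h ^ 2 := by nlinarith
    have h4 : 16 * q * (h + 1) ^ 2 ≤ 16 * q * (4 * h ^ 2) := Nat.mul_le_mul_left _ h3
    have h5 : 16 * q * (4 * h ^ 2) ≤ (16 * q * h) ^ 2 := by
      have : q ≤ q ^ 2 := by nlinarith
      nlinarith [Nat.zero_le (h ^ 2)]
    omega
  have hNXr : (N : ℝ) ≤ (X : ℝ) ^ 2 := by exact_mod_cast hNX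
  have hlogX : Real.log N ≤ 2 * Real.log X := by
    have h3 : Real.log ((X : ℝ) ^ 2) = 2 * Real.log X := by
      rw [Real.log_pow]; push_cast; ring
    rw [← h3]
    exact Real.log_le_log hN0 hNXr
  -- the sparse set
  have hk4 : 4 ≤ 4 * q := by omega
  obtain ⟨hL1, ht1⟩ := log_bounds hk4
  obtain ⟨L, hL⟩ : ∃ L, L = Real.log (((4 * q : ℕ) : ℝ) + 16) := ⟨_, rfl⟩
  obtain ⟨t₀, ht₀⟩ : ∃ t₀, t₀ = Real.log L := ⟨_, rfl⟩
  have hLs : L ≤ 2 * s := by
    have h3 : Real.log (K ^ 2) = 2 * s := by rw [hs, Real.log_pow]; push_cast; ring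
    rw [← h3, hL]
    apply Real.log_le_log (by positivity)
    push_cast
    nlinarith
  have htr : t₀ ≤ 2 * r := by
    have h3 : Real.log (2 * s) = Real.log 2 + r := by
      rw [Real.log_mul (by norm_num) hs0.ne', hr]
    have h4 : t₀ ≤ Real.log (2 * s) := by
      rw [ht₀]
      rw [← hL] at hL1
      exact Real.log_le_log (by linarith) hLs
    have h5 := Real.log_two_lt_d9
    linarith
  rw [← hL] at hL1 ht1
  rw [← ht₀] at ht1
  have hcond : 302 * Real.log (((4 * q : ℕ) : ℝ) + 16) *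
      Real.log (Real.log (((4 * q : ℕ) : ℝ) + 16)) ≤ Real.log ((2 * X : ℕ) : ℝ) := by
    rw [← hL, ← ht₀]
    have h3 : L * t₀ ≤ 2 * s * (2 * r) :=
      mul_le_mul hLs htr (by linarith) (by positivity)
    have h4 : Real.log X ≤ Real.log ((2 * X : ℕ) : ℝ) := by
      apply Real.log_le_log hX0
      push_cast
      linarith
    nlinarith [mul_pos hs0 hr0]
  obtain ⟨E, hE1, hE2⟩ := sparse_quant hk4 hcond
  rw [← hL, ← ht₀] at hE1
  obtain ⟨γ, hγ⟩ : ∃ γ, γ = 1 / (2416 * t₀) := ⟨_, rfl⟩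
  rw [← hγ] at hE1
  have ht00 : 0 < t₀ := by linarith
  have hγ0 : 0 < γ := by rw [hγ]; positivity
  have hγ1 : γ ≤ 1 := by
    rw [hγ, div_le_one (by positivity)]
    linarith
  have hγr : 1 / (4832 * r) ≤ γ := by
    rw [hγ]
    apply one_div_le_one_div_of_le (by positivity)
    linarith
  obtain ⟨b, G, hb, hG, hsum⟩ := fixed_core (q := q) (h := h) (N := N) hq1 hh6 h1 h2 E
    (fun d hd1 hd2 => hE2 d hd1 (by rw [hX]; exact hd2))
  rw [← hX] at hG
  have hbig : 1025 ≤ (N : ℝ) ^ (γ / 4) := by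
    rw [Real.rpow_def_of_pos hN0]
    have h3 : Real.log 2048 ≤ Real.log N * (γ / 4) := by
      have h4 : Real.log 2048 = 11 * Real.log 2 := by
        rw [show (2048 : ℝ) = 2 ^ 11 by norm_num, Real.log_pow]
        push_cast
        ring
      have h5 := Real.log_two_lt_d9
      have h6 : 100000 * (s * r) * (1 / (4832 * r) / 4) ≤ Real.log N * (γ / 4) :=
        mul_le_mul hN (by linarith) (by positivity) hlogN0.le
      have h7 : 100000 * (s * r) * (1 / (4832 * r) / 4) = 100000 / 19328 * s := by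
        field_simp
        norm_num
      rw [h7] at h6
      linarith
    calc (1025 : ℝ) ≤ 2048 := by norm_num
      _ = Real.exp (Real.log 2048) := (Real.exp_log (by norm_num)).symm
      _ ≤ _ := Real.exp_le_exp.2 h3
  refine ⟨b, G, hb, ?_, ?_⟩
  · intro t ht
    obtain ⟨h5, h6, h7⟩ := hG t ht
    refine ⟨h5, le_trans h6 (mul_le_mul_of_nonneg_right hqK hN0.le), ?_⟩
    have hcard : (E.card : ℝ) * (X : ℝ) ^ γ ≤ 2 * X := by
      have h8 : (E.card : ℝ) ≤ (2 * X : ℝ) ^ (1 - γ) := by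
        refine le_trans hE1 (le_of_eq ?_)
        push_cast
        rfl
      have h9 : (2 * X : ℝ) ^ (1 - γ) ≤ 2 * (X : ℝ) ^ (1 - γ) := by
        rw [Real.mul_rpow (by norm_num) hX0.le]
        apply mul_le_mul_of_nonneg_right _ (by positivity)
        calc (2 : ℝ) ^ (1 - γ) ≤ 2 ^ (1 : ℝ) :=
              Real.rpow_le_rpow_of_exponent_le (by norm_num) (by linarith)
          _ = 2 := Real.rpow_one _
      calc (E.card : ℝ) * (X : ℝ) ^ γ ≤ 2 * (X : ℝ) ^ (1 - γ) * (X : ℝ) ^ γ :=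
            mul_le_mul_of_nonneg_right (h8.trans h9) (by positivity)
        _ = 2 * X := by
            rw [mul_assoc, ← Real.rpow_add hX0]
            norm_num
    have hXN : (N : ℝ) ^ (γ / 2) ≤ (X : ℝ) ^ γ := by
      calc (N : ℝ) ^ (γ / 2) ≤ ((X : ℝ) ^ 2) ^ (γ / 2) :=
            Real.rpow_le_rpow hN0.le hNXr (by linarith)
        _ = (X : ℝ) ^ γ := by
            rw [← Real.rpow_natCast, ← Real.rpow_mul hX0.le]
            congr 1
            push_cast
            ring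
    have hg4 : (N : ℝ) ^ (γ / 4) * (N : ℝ) ^ (γ / 4) = (N : ℝ) ^ (γ / 2) := by
      rw [← Real.rpow_add hN0]
      congr 1
      ring
    obtain ⟨g, hg⟩ : ∃ g, g = (N : ℝ) ^ (γ / 4) := ⟨_, rfl⟩
    rw [← hg] at hg4 hbig
    obtain ⟨z, hz⟩ : ∃ z, z = ‖D N b (t : ℝ)‖ ^ 2 := ⟨_, rfl⟩
    have hz0 : 0 ≤ z := by rw [hz]; positivity
    rw [← hz] at h7
    have h10 : (X : ℝ) * N * (X : ℝ) ^ γ ≤ 512 * (2 * X) * z := by
      calc (X : ℝ) * N * (X : ℝ) ^ γ ≤ 512 * (E.card : ℝ) * z * (X : ℝ) ^ γ :=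
            mul_le_mul_of_nonneg_right h7 (by positivity)
        _ = 512 * ((E.card : ℝ) * (X : ℝ) ^ γ) * z := by ring
        _ ≤ 512 * (2 * X) * z := by
            apply mul_le_mul_of_nonneg_right _ hz0
            linarith
    have h11 : (N : ℝ) * (X : ℝ) ^ γ ≤ 1024 * z := by
      have h12 : (X : ℝ) * (N * (X : ℝ) ^ γ) ≤ X * (1024 * z) := by linarith
      exact le_of_mul_le_mul_left h12 hX0
    have h13 : (N : ℝ) * (g * g) ≤ 1024 * z := by
      rw [hg4]
      exact le_trans (mul_le_mul_of_nonneg_left hXN hN0.le) h11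
    have h14 : (N : ℝ) * g < z := by
      have h15 : 0 < (N : ℝ) * g := by rw [hg]; positivity
      nlinarith
    have hN1 : (1 : ℝ) ≤ N := by linarith
    have hexp : 1 / (100000 * r) ≤ γ / 8 := by
      have h15 : 1 / (100000 * r) ≤ 1 / (4832 * r) / 8 := by
        rw [div_div]
        apply one_div_le_one_div_of_le (by positivity)
        nlinarith
      linarith
    refine lt_of_le_of_lt (Real.rpow_le_rpow_of_exponent_le hN1
      (by linarith : (1 : ℝ) / 2 + 1 / (100000 * r) ≤ 1 / 2 + γ / 8)) ?_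
    have h16 : ((N : ℝ) ^ (1 / 2 + γ / 8)) ^ 2 = N * g := by
      rw [hg, ← Real.rpow_natCast, ← Real.rpow_mul hN0.le,
        ← Real.rpow_one_add' hN0.le (by linarith)]
      congr 1
      push_cast
      ring
    have h17 : ((N : ℝ) ^ (1 / 2 + γ / 8)) ^ 2 < ‖D N b (t : ℝ)‖ ^ 2 := by
      rw [h16, ← hz]
      exact h14
    exact lt_of_pow_lt_pow_left₀ 2 (norm_nonneg _) h17
  · have h16 : 0 < (N : ℝ) ^ 2 := by positivity
    have h17 : K * (N : ℝ) ^ 2 < 32 * q * (N : ℝ) ^ 2 := mul_lt_mul_of_pos_right hKq h16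
    nlinarith

end Pool.Agent.H605.Mont
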