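import Pool.Agent.H605.Mont.Quant2
import Pool.Agent.H605.Mont.Levels

/-!
# Many large values at a given threshold, and the constant in the large value conjecture
-/

set_option autoImplicit false

open Finset Real Filter

namespace Pool.Agent.H605.Mont

open Pool.Agent.H170R2.PC Pool.Agent.N793.LV Pool.Agent.H605.Web

theorem sum_biUnion_le' (s : Finset ℕ) (U : ℕ → Finset ℤ) (f : ℤ → ℝ) (hf : ∀ t, 0 ≤ f t) :
    ∑ t ∈ s.biUnion U, f t ≤ ∑ i ∈ s, ∑ t ∈ U i, f t := by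
  classical
  induction s using Finset.induction_on with
  | empty => simp
  | insert i s hi ih =>
    rw [biUnion_insert, sum_insert hi]
    have h1 := Finset.sum_union_inter (s₁ := U i) (s₂ := s.biUnion U) (f := f)
    have h2 : 0 ≤ ∑ t ∈ U i ∩ s.biUnion U, f t := Finset.sum_nonneg fun t _ => hf t
    linarith

/-- a dyadic level which carries its share of the mean square -/
theorem pigeon {N : ℕ} (hN : 1 ≤ N) (b : ℕ → ℂ) (hb : ∀ n, ‖b n‖ ≤ 1) {V₀ S : ℝ} (hV₀ : 1 ≤ V₀)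
    (W : Finset ℤ) (hW : ∀ t ∈ W, V₀ < ‖D N b t‖) (hS : S ≤ ∑ t ∈ W, ‖D N b t‖ ^ 2) :
    ∃ (V : ℝ) (U : Finset ℤ), V₀ ≤ V ∧ U ⊆ W ∧ (∀ t ∈ U, V ≤ ‖D N b t‖) ∧
      S ≤ 8 * (1 + Real.log N) * (U.card * V ^ 2) := by
  classical
  obtain ⟨J, hJ⟩ : ∃ J, J = Nat.log 2 (2 * N) + 1 := ⟨_, rfl⟩
  have hJ1 : 2 * N < 2 ^ J := by
    rw [hJ]
    exact Nat.lt_pow_succ_log_self (by norm_num) _
  have hJ2 : (J : ℝ) ≤ 2 * (1 + Real.log N) := by
    have h1 : 2 ^ Nat.log 2 (2 * N) ≤ 2 * N := Nat.pow_log_le_self 2 (by omega)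
    have h2 : (2 : ℝ) ^ Nat.log 2 (2 * N) ≤ 2 * N := by exact_mod_cast h1
    have hN0 : (0 : ℝ) < N := by exact_mod_cast (by omega : 0 < N)
    have h3 : (Nat.log 2 (2 * N) : ℝ) * Real.log 2 ≤ Real.log 2 + Real.log N := by
      rw [← Real.log_pow, ← Real.log_mul (by norm_num) hN0.ne']
      exact Real.log_le_log (by positivity) h2
    have h4 := Real.log_two_gt_d9
    have h5 : 0 ≤ Real.log N := Real.log_nonneg (by exact_mod_cast hN)
    have h6 : (Nat.log 2 (2 * N) : ℝ) ≤ 1 + 2 * Real.log N := by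
      by_contra hc
      rw [not_le] at hc
      have h7 : (1 + 2 * Real.log N) * Real.log 2 < (Nat.log 2 (2 * N) : ℝ) * Real.log 2 :=
        mul_lt_mul_of_pos_right hc (by linarith)
      nlinarith
    rw [hJ]
    push_cast
    linarith
  obtain ⟨U, hU⟩ : ∃ U : ℕ → Finset ℤ, U = fun i => W.filter
    (fun t : ℤ => V₀ * 2 ^ i ≤ ‖D N b (t : ℝ)‖ ∧ ‖D N b (t : ℝ)‖ < V₀ * 2 ^ (i + 1)) := ⟨_, rfl⟩
  have hcover : W ⊆ (range J).biUnion U := by
    intro t ht
    have hex : ∃ i : ℕ, ‖D N b (t : ℝ)‖ < V₀ * 2 ^ (i + 1) := by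
      refine ⟨J, ?_⟩
      have h1 := D_le N hN b (fun n _ => hb n) (t : ℝ)
      have h2 : (2 : ℝ) * N < 2 ^ J := by exact_mod_cast hJ1
      have h3 : (0 : ℝ) < 2 ^ J := by positivity
      rw [pow_succ]
      nlinarith
    have hi := Nat.find_spec hex
    have hmin : ∀ m < Nat.find hex, ¬ ‖D N b (t : ℝ)‖ < V₀ * 2 ^ (m + 1) :=
      fun m hm => Nat.find_min hex hm
    have hlow : V₀ * 2 ^ (Nat.find hex) ≤ ‖D N b (t : ℝ)‖ := by
      rcases Nat.eq_zero_or_pos (Nat.find hex) with h0 | h0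
      · rw [h0, pow_zero, mul_one]
        exact (hW t ht).le
      · have := hmin (Nat.find hex - 1) (by omega)
        rw [not_lt, Nat.sub_add_cancel h0] at this
        exact this
    rw [mem_biUnion]
    refine ⟨Nat.find hex, ?_, ?_⟩
    · rw [mem_range]
      by_contra hc
      rw [not_lt] at hc
      have h1 := D_le N hN b (fun n _ => hb n) (t : ℝ)
      have h2 : (2 : ℝ) * N < 2 ^ J := by exact_mod_cast hJ1
      have h3 : (2 : ℝ) ^ J ≤ 2 ^ (Nat.find hex) := pow_le_pow_right₀ (by norm_num) hc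
      have h4 : (2 : ℝ) ^ (Nat.find hex) ≤ V₀ * 2 ^ (Nat.find hex) :=
        le_mul_of_one_le_left (by positivity) hV₀
      linarith
    · rw [hU, mem_filter]
      exact ⟨ht, hlow, hi⟩
  have hsum : S ≤ ∑ i ∈ range J, ((U i).card : ℝ) * (V₀ * 2 ^ (i + 1)) ^ 2 := by
    calc S ≤ ∑ t ∈ W, ‖D N b t‖ ^ 2 := hS
      _ ≤ ∑ t ∈ (range J).biUnion U, ‖D N b t‖ ^ 2 :=
          Finset.sum_le_sum_of_subset_of_nonneg hcover fun _ _ _ => by positivity
      _ ≤ ∑ i ∈ range J, ∑ t ∈ U i, ‖D N b t‖ ^ 2 :=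
          sum_biUnion_le' _ _ _ (fun _ => by positivity)
      _ ≤ _ := by
          refine Finset.sum_le_sum fun i _ => ?_
          rw [← nsmul_eq_mul]
          apply Finset.sum_le_card_nsmul
          intro t ht
          rw [hU, mem_filter] at ht
          exact pow_le_pow_left₀ (norm_nonneg _) ht.2.2.le 2
  have hJpos : 0 < J := by omega
  obtain ⟨i, hi, hmax⟩ := Finset.exists_max_image (range J)
    (fun i => ((U i).card : ℝ) * (V₀ * 2 ^ (i + 1)) ^ 2) ⟨0, mem_range.2 hJpos⟩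
  refine ⟨V₀ * 2 ^ i, U i, ?_, ?_, ?_, ?_⟩
  · exact le_mul_of_one_le_right (by linarith) (one_le_pow₀ (by norm_num))
  · rw [hU]
    exact Finset.filter_subset _ _
  · intro t ht
    rw [hU, mem_filter] at ht
    exact ht.2.1
  · have h1 : ∑ j ∈ range J, ((U j).card : ℝ) * (V₀ * 2 ^ (j + 1)) ^ 2 ≤
        J * (((U i).card : ℝ) * (V₀ * 2 ^ (i + 1)) ^ 2) := by
      have := Finset.sum_le_card_nsmul (range J) _ _ hmax
      rw [card_range, nsmul_eq_mul] at this
      exact this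
    have h2 : ((U i).card : ℝ) * (V₀ * 2 ^ (i + 1)) ^ 2
        = 4 * (((U i).card : ℝ) * (V₀ * 2 ^ i) ^ 2) := by
      rw [pow_succ]
      ring
    rw [h2] at h1
    have h3 : (0 : ℝ) ≤ 4 * (((U i).card : ℝ) * (V₀ * 2 ^ i) ^ 2) := by positivity
    calc S ≤ _ := hsum
      _ ≤ _ := h1
      _ ≤ 2 * (1 + Real.log N) * (4 * (((U i).card : ℝ) * (V₀ * 2 ^ i) ^ 2)) :=
          mul_le_mul_of_nonneg_right hJ2 h3
      _ = _ := by ring

/-- For `σ ≤ 1/2 + c / log log K` the mean value bound for the number of values above `N ^ σ` on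
`[0, K N]` is sharp up to the square of a logarithm. -/
theorem many_large {K : ℝ} (hK : 16 ≤ K) {N : ℕ}
    (hN : 100000 * (Real.log K * Real.log (Real.log K)) ≤ Real.log N) {σ : ℝ} (hσ : 1 / 2 ≤ σ)
    (hσ1 : σ ≤ 1 / 2 + 1 / (200000 * Real.log (Real.log K))) :
    ∃ (b : ℕ → ℂ) (W : Finset ℤ), (∀ n ∈ Icc N (2 * N), ‖b n‖ ≤ 1) ∧
      (∀ t ∈ W, 0 ≤ (t : ℝ) ∧ (t : ℝ) ≤ K * N ∧ (N : ℝ) ^ σ < ‖D N b t‖) ∧
      K * (N : ℝ) ^ (2 - 2 * σ) ≤ 2 ^ 27 * (1 + Real.log N) ^ 2 * W.card := by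
  obtain ⟨b, W, hb, hW, hsum⟩ := concentration_quant hK hN
  obtain ⟨hK1, hK2⟩ := logK_bounds hK
  obtain ⟨s, hs⟩ : ∃ s, s = Real.log K := ⟨_, rfl⟩
  rw [← hs] at hN hK1 hK2 hW hσ1
  obtain ⟨r, hr⟩ : ∃ r, r = Real.log s := ⟨_, rfl⟩
  rw [← hr] at hN hK2 hW hσ1
  have hs0 : 0 < s := by linarith
  have hr0 : 0 < r := by linarith
  have hK0 : 0 < K := by linarith
  have hlogN0 : 0 < Real.log N := lt_of_lt_of_le (by positivity) hN
  have hN0 : (0 : ℝ) < N := by
    by_contra hc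
    have : (N : ℝ) = 0 := le_antisymm (not_lt.1 hc) (Nat.cast_nonneg _)
    rw [this, Real.log_zero] at hlogN0
    exact lt_irrefl _ hlogN0
  have hN1 : 1 ≤ N := by
    have : 0 < N := by exact_mod_cast hN0
    omega
  have hN1r : (1 : ℝ) ≤ N := by exact_mod_cast hN1
  obtain ⟨κ, hκ⟩ : ∃ κ, κ = 1 / (200000 * r) := ⟨_, rfl⟩
  have hκ2 : 1 / (100000 * r) = 2 * κ := by
    rw [hκ]
    field_simp
    norm_num
  rw [hκ2] at hW
  rw [← hκ] at hσ1
  have hκ0 : 0 < κ := by rw [hκ]; positivity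
  have hV₀ : 1 ≤ (N : ℝ) ^ (1 / 2 + 2 * κ) := Real.one_le_rpow hN1r (by linarith)
  obtain ⟨V, U, hV, hUW, hUV, hS⟩ := pigeon hN1 b hb hV₀ W (fun t ht => (hW t ht).2.2) hsum
  -- the threshold
  have h2 : 2 ≤ (N : ℝ) ^ κ := by
    rw [Real.rpow_def_of_pos hN0]
    have h3 : Real.log 2 ≤ Real.log N * κ := by
      have h4 : 100000 * (s * r) * (1 / (200000 * r)) ≤ Real.log N * κ := by
        rw [← hκ]
        exact mul_le_mul_of_nonneg_right hN hκ0.le
      have h5 : 100000 * (s * r) * (1 / (200000 * r)) = s / 2 := by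
        field_simp
        norm_num
      rw [h5] at h4
      have := Real.log_two_lt_d9
      linarith
    calc (2 : ℝ) = Real.exp (Real.log 2) := (Real.exp_log (by norm_num)).symm
      _ ≤ _ := Real.exp_le_exp.2 h3
  have hNσ0 : 0 < (N : ℝ) ^ σ := by positivity
  have hV'V : 2 * (N : ℝ) ^ σ ≤ V := by
    refine le_trans ?_ hV
    calc 2 * (N : ℝ) ^ σ ≤ (N : ℝ) ^ κ * (N : ℝ) ^ (1 / 2 + κ) :=
          mul_le_mul h2 (Real.rpow_le_rpow_of_exponent_le hN1r hσ1) (by positivity) (by positivity)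
      _ = (N : ℝ) ^ (1 / 2 + 2 * κ) := by
          rw [← Real.rpow_add hN0]
          congr 1
          ring
  obtain ⟨b', W', hb', hW'1, hW'2, hmin⟩ := mono_int N hN1 b (T := K * N) (V := V)
    (V' := 2 * (N : ℝ) ^ σ) (by positivity) (fun n _ => hb n) (by positivity) hV'V U
    (fun t ht => ⟨(hW t (hUW ht)).1, (hW t (hUW ht)).2.1⟩) hUV
  refine ⟨b', W', hb', fun t ht => ⟨(hW'1 t ht).1, (hW'1 t ht).2, ?_⟩, ?_⟩
  · have := hW'2 t ht
    linarith
  · have hV0 : 0 < V := by linarith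
    have hl1 : 1 ≤ 1 + Real.log N := by linarith
    obtain ⟨l, hl⟩ : ∃ l, l = 1 + Real.log N := ⟨_, rfl⟩
    rw [← hl] at hS hmin hl1 ⊢
    have hl0 : 0 < l := by linarith
    obtain ⟨m, hm⟩ : ∃ m, m = (N : ℝ) ^ σ := ⟨_, rfl⟩
    rw [← hm] at hmin hNσ0
    have hmm : (N : ℝ) ^ (2 - 2 * σ) * m ^ 2 = (N : ℝ) ^ 2 := by
      rw [hm, ← Real.rpow_natCast ((N : ℝ) ^ σ), ← Real.rpow_mul hN0.le, ← Real.rpow_add hN0,
        ← Real.rpow_natCast]
      congr 1
      push_cast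
      ring
    obtain ⟨A, hA⟩ : ∃ A, A = (N : ℝ) ^ (2 - 2 * σ) := ⟨_, rfl⟩
    rw [← hA] at hmm ⊢
    have hA0 : 0 < A := by rw [hA]; positivity
    have hW'0 : (0 : ℝ) ≤ W'.card := Nat.cast_nonneg _
    rcases min_le_iff.1 hmin with h7 | h7
    · -- first case
      rw [div_le_iff₀ hl0, div_pow, div_mul_eq_mul_div, div_le_iff₀ (by positivity)] at h7
      have h8 : K * (A * m ^ 2) ≤ 2 ^ 27 * l ^ 2 * W'.card * m ^ 2 := by
        rw [hmm]
        have h9 : K * (N : ℝ) ^ 2 ≤ 65536 * l * (U.card * V ^ 2) := by linarith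
        have h10 : 65536 * l * (U.card * V ^ 2) ≤ 65536 * l * (512 * (W'.card : ℝ) * l * (2 * m) ^ 2) :=
          mul_le_mul_of_nonneg_left (by linarith) (by positivity)
        have h11 : 65536 * l * (512 * (W'.card : ℝ) * l * (2 * m) ^ 2)
            = 2 ^ 27 * l ^ 2 * W'.card * m ^ 2 := by ring
        linarith
      have h12 : m ^ 2 * (K * A) ≤ m ^ 2 * (2 ^ 27 * l ^ 2 * W'.card) := by linarith
      exact le_of_mul_le_mul_left h12 (by positivity)
    · have h8 : A ≤ N := by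
        rw [hA]
        calc (N : ℝ) ^ (2 - 2 * σ) ≤ (N : ℝ) ^ (1 : ℝ) :=
              Real.rpow_le_rpow_of_exponent_le hN1r (by linarith)
          _ = N := Real.rpow_one _
      have h9 : K * A ≤ K * N := mul_le_mul_of_nonneg_left h8 hK0.le
      have h10 : (512 : ℝ) * W'.card ≤ 2 ^ 27 * l ^ 2 * W'.card := by
        apply mul_le_mul_of_nonneg_right _ hW'0
        nlinarith
      linarith

/-- The constant in the large value conjecture. -/
theorem constant_lower {η C : ℝ} (hη : 0 < η) (hη1 : η ≤ 1 / 1000000)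
    (h : ∀ (N : ℕ) (T : ℝ) (b : ℕ → ℂ) (W : Finset ℤ), 1 ≤ N → (N : ℝ) ≤ T →
      T ≤ (N : ℝ) ^ (1 + η) → (∀ n ∈ Icc N (2 * N), ‖b n‖ ≤ 1) →
      (∀ t ∈ W, 0 ≤ (t : ℝ) ∧ (t : ℝ) ≤ T ∧ (N : ℝ) ^ (1 / 2 + η) < ‖D N b t‖) →
      (W.card : ℝ) ≤ C * (N : ℝ) ^ (2 - 2 * (1 / 2 + η) + η / 4)) :
    Real.exp (Real.exp (1 / (1000000 * η))) ≤ C := by
  obtain ⟨u, hu⟩ : ∃ u, u = 1 / (200000 * η) := ⟨_, rfl⟩
  have hu5 : 5 ≤ u := by
    rw [hu, le_div_iff₀ (by positivity)]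
    linarith
  have hηu : 1 / η = 200000 * u := by
    rw [hu]
    field_simp
  obtain ⟨L, hL⟩ : ∃ L, L = Real.exp u := ⟨_, rfl⟩
  have hL148 : 148 * (u - 4) ≤ L := by
    have h1 : (148 : ℝ) ≤ Real.exp 5 := by
      have h2 : Real.exp 5 = Real.exp 1 ^ 5 := by
        rw [← Real.exp_nat_mul]
        norm_num
      have h3 := Real.exp_one_gt_d9
      rw [h2]
      calc (148 : ℝ) ≤ 2.7182 ^ 5 := by norm_num
        _ ≤ Real.exp 1 ^ 5 := pow_le_pow_left₀ (by norm_num) (by linarith) 5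
    have h2 : L = Real.exp 5 * Real.exp (u - 5) := by
      rw [hL, ← Real.exp_add]
      congr 1
      ring
    have h3 := Real.add_one_le_exp (u - 5)
    rw [h2]
    exact mul_le_mul h1 (by linarith) (by linarith) (Real.exp_pos _).le
  have hLu : u ≤ L := by
    rw [hL]
    have := Real.add_one_le_exp u
    linarith
  have hL0 : 0 < L := by linarith
  obtain ⟨K, hKd⟩ : ∃ K, K = Real.exp L := ⟨_, rfl⟩
  have hK0 : 0 < K := by rw [hKd]; exact Real.exp_pos _
  have hlogK : Real.log K = L := by rw [hKd, Real.log_exp]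
  have hloglogK : Real.log (Real.log K) = u := by rw [hlogK, hL, Real.log_exp]
  have hK16 : 16 ≤ K := by
    rw [hKd]
    have := Real.add_one_le_exp L
    linarith
  obtain ⟨Y, hY⟩ : ∃ Y, Y = Real.exp (L / η) := ⟨_, rfl⟩
  have hLη : L / η = 200000 * u * L := by
    rw [div_eq_mul_one_div, hηu]
    ring
  have hY1 : 1 ≤ Y := by
    rw [hY]
    exact Real.one_le_exp (by positivity)
  obtain ⟨N, hN⟩ : ∃ N, N = ⌈Y⌉₊ := ⟨_, rfl⟩
  have hN1 : Y ≤ N := by rw [hN]; exact Nat.le_ceil _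
  have hN2 : (N : ℝ) ≤ 2 * Y := by
    have : (N : ℝ) < Y + 1 := by rw [hN]; exact Nat.ceil_lt_add_one (by linarith)
    linarith
  have hNr1 : (1 : ℝ) ≤ N := by linarith
  have hN0 : (0 : ℝ) < N := by linarith
  have hNnat : 1 ≤ N := by exact_mod_cast hNr1
  have hlogN : L / η ≤ Real.log N := by
    rw [Real.le_log_iff_exp_le hN0, ← hY]
    exact hN1
  have hcond : 100000 * (Real.log K * Real.log (Real.log K)) ≤ Real.log N := by
    rw [hloglogK, hlogK]
    rw [hLη] at hlogN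
    nlinarith [mul_pos hL0 (show 0 < u by linarith)]
  have hσ1 : 1 / 2 + η ≤ 1 / 2 + 1 / (200000 * Real.log (Real.log K)) := by
    rw [hloglogK]
    have : η = 1 / (200000 * u) := by
      rw [hu]
      field_simp
    linarith
  obtain ⟨b, W, hb, hW, hcard⟩ := many_large hK16 hcond (σ := 1 / 2 + η) (by linarith) hσ1
  have hKN : K ≤ (N : ℝ) ^ η := by
    calc K = Y ^ η := by
          rw [hKd, hY, ← Real.exp_mul]
          congr 1
          field_simp
      _ ≤ (N : ℝ) ^ η := Real.rpow_le_rpow (by linarith) hN1 hη.le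
  have hbound := h N (K * N) b W hNnat (by nlinarith) (by
    rw [Real.rpow_add hN0, Real.rpow_one, mul_comm]
    exact mul_le_mul_of_nonneg_left hKN hN0.le) hb hW
  -- remove the power of `N`
  obtain ⟨A, hA⟩ : ∃ A, A = (N : ℝ) ^ (2 - 2 * (1 / 2 + η)) := ⟨_, rfl⟩
  have hA0 : 0 < A := by rw [hA]; positivity
  rw [Real.rpow_add hN0, ← hA] at hbound
  rw [← hA] at hcard
  obtain ⟨l, hl⟩ : ∃ l, l = 1 + Real.log N := ⟨_, rfl⟩
  rw [← hl] at hcard
  have hl0 : 0 < l := by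
    rw [hl]
    have := Real.log_nonneg hNr1
    linarith
  have hmain : K ≤ 2 ^ 27 * l ^ 2 * (C * (N : ℝ) ^ (η / 4)) := by
    have h1 : K * A ≤ 2 ^ 27 * l ^ 2 * (C * (A * (N : ℝ) ^ (η / 4))) :=
      hcard.trans (mul_le_mul_of_nonneg_left hbound (by positivity))
    have h2 : A * K ≤ A * (2 ^ 27 * l ^ 2 * (C * (N : ℝ) ^ (η / 4))) := by linarith
    exact le_of_mul_le_mul_left h2 hA0
  have hCpos : 0 < C := by
    by_contra hc
    rw [not_lt] at hc
    have h1 : C * (N : ℝ) ^ (η / 4) ≤ 0 := mul_nonpos_of_nonpos_of_nonneg hc (by positivity)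
    have h2 : 2 ^ 27 * l ^ 2 * (C * (N : ℝ) ^ (η / 4)) ≤ 0 :=
      mul_nonpos_of_nonneg_of_nonpos (by positivity) h1
    linarith
  have hNη : (N : ℝ) ^ (η / 4) ≤ 2 * Real.exp (L / 4) := by
    calc (N : ℝ) ^ (η / 4) ≤ (2 * Y) ^ (η / 4) := Real.rpow_le_rpow hN0.le hN2 (by linarith)
      _ = 2 ^ (η / 4) * Y ^ (η / 4) := Real.mul_rpow (by norm_num) (by linarith)
      _ ≤ 2 * Real.exp (L / 4) := by
          apply mul_le_mul _ _ (by positivity) (by norm_num)
          · calc (2 : ℝ) ^ (η / 4) ≤ 2 ^ (1 : ℝ) :=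
                  Real.rpow_le_rpow_of_exponent_le (by norm_num) (by linarith)
              _ = 2 := Real.rpow_one _
          · rw [hY, ← Real.exp_mul]
            apply le_of_eq
            congr 1
            field_simp
  have hl2 : l ≤ 2 ^ 18 * L ^ 2 := by
    have h1 : Real.log N ≤ Real.log 2 + L / η := by
      calc Real.log N ≤ Real.log (2 * Y) := Real.log_le_log hN0 hN2
        _ = Real.log 2 + L / η := by
            rw [Real.log_mul (by norm_num) (by linarith), hY, Real.log_exp]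
    have h2 := Real.log_two_lt_d9
    rw [hLη] at h1
    have h3 : u * L ≤ L ^ 2 := by nlinarith
    rw [hl]
    nlinarith
  have hfin : Real.exp L ≤ 2 ^ 64 * L ^ 4 * Real.exp (L / 4) * C := by
    have h1 : l ^ 2 ≤ (2 ^ 18 * L ^ 2) ^ 2 := pow_le_pow_left₀ hl0.le hl2 2
    calc Real.exp L = K := hKd.symm
      _ ≤ 2 ^ 27 * l ^ 2 * (C * (N : ℝ) ^ (η / 4)) := hmain
      _ ≤ 2 ^ 27 * (2 ^ 18 * L ^ 2) ^ 2 * (C * (2 * Real.exp (L / 4))) := by
          apply mul_le_mul _ _ (by positivity) (by positivity)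
          · exact mul_le_mul_of_nonneg_left h1 (by norm_num)
          · exact mul_le_mul_of_nonneg_left hNη hCpos.le
      _ = _ := by ring
  -- conclude
  have e1 : 1 / (1000000 * η) = u / 5 := by
    rw [hu]
    field_simp
    norm_num
  rw [e1]
  have hE : Real.exp (u / 5) ≤ L / 4 := by
    have h1 : L = Real.exp (u / 5) * Real.exp (4 * u / 5) := by
      rw [hL, ← Real.exp_add]
      congr 1
      ring
    have h2 : 4 ≤ Real.exp (4 * u / 5) := by
      have := Real.add_one_le_exp (4 * u / 5)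
      linarith
    have h3 := Real.exp_pos (u / 5)
    rw [h1]
    nlinarith
  have hkey : Real.exp (u / 5) + (64 * Real.log 2 + 4 * u) ≤ 3 / 4 * L := by
    have := Real.log_two_lt_d9
    linarith
  have h64 : (2 : ℝ) ^ 64 * L ^ 4 = Real.exp (64 * Real.log 2 + 4 * u) := by
    rw [Real.exp_add]
    congr 1
    · rw [mul_comm, Real.exp_mul, Real.exp_log (by norm_num)]
      norm_num
    · rw [hL, ← Real.exp_nat_mul]
      norm_num
  rw [h64, ← Real.exp_add] at hfin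
  have h5 : Real.exp (Real.exp (u / 5)) * Real.exp (64 * Real.log 2 + 4 * u + L / 4)
      ≤ C * Real.exp (64 * Real.log 2 + 4 * u + L / 4) := by
    calc _ = Real.exp (Real.exp (u / 5) + (64 * Real.log 2 + 4 * u + L / 4)) := by
          rw [← Real.exp_add]
      _ ≤ Real.exp L := Real.exp_le_exp.2 (by linarith)
      _ ≤ _ := hfin
      _ = _ := by ring
  exact le_of_mul_le_mul_right h5 (Real.exp_pos _)

end Pool.Agent.H605.Mont
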