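import Pool.Agent.H605.Mont.Quant3

/-!
# Lower bounds for moments of order slightly above two
-/

set_option autoImplicit false

open Finset Real Filter

namespace Pool.Agent.H605.Mont

open Pool.Agent.H170R2.PC Pool.Agent.N793.LV Pool.Agent.H605.Web

/-- Moments of order `q ≥ 2` on `[1, K N]`. -/
theorem moment_large {K : ℝ} (hK : 65536 ≤ K) {N : ℕ}
    (hN : 100000 * (Real.log K * Real.log (Real.log K)) ≤ Real.log N) {q : ℝ} (hq : 2 ≤ q) :
    ∃ b : ℕ → ℂ, (∀ n, ‖b n‖ ≤ 1) ∧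
      K * (N : ℝ) ^ (1 + q / 2 + (q - 2) * (1 / (100000 * Real.log (Real.log K)))) / 16384 ≤
        ∑ t ∈ Icc 1 ⌊K * N⌋₊, ‖D N b t‖ ^ q := by
  classical
  have hK16 : 16 ≤ K := by linarith
  obtain ⟨b, W, hb, hW, hsum⟩ := concentration_quant hK16 hN
  obtain ⟨hK1, hK2⟩ := logK_bounds hK16
  obtain ⟨κ, hκ⟩ : ∃ κ, κ = 1 / (100000 * Real.log (Real.log K)) := ⟨_, rfl⟩
  rw [← hκ] at hW ⊢
  have hκ0 : 0 < κ := by rw [hκ]; positivity
  have hlogN0 : 0 < Real.log N := lt_of_lt_of_le (by positivity) hN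
  have hN0 : (0 : ℝ) < N := by
    by_contra hc
    have : (N : ℝ) = 0 := le_antisymm (not_lt.1 hc) (Nat.cast_nonneg _)
    rw [this, Real.log_zero] at hlogN0
    exact lt_irrefl _ hlogN0
  have hN1 : 1 ≤ N := by
    have : 0 < N := by exact_mod_cast hN0
    omega
  have hN1r : (1 : ℝ) ≤ N := by exact_mod_cast hN1
  refine ⟨b, hb, ?_⟩
  -- the set without `0`
  have h0 : K * (N : ℝ) ^ 2 / 16384 ≤ ∑ t ∈ W.erase 0, ‖D N b t‖ ^ 2 := by
    have h1 : ∑ t ∈ W, ‖D N b t‖ ^ 2 ≤ ∑ t ∈ W.erase 0, ‖D N b t‖ ^ 2 + 4 * (N : ℝ) ^ 2 := by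
      have h2 : ‖D N b ((0 : ℤ) : ℝ)‖ ^ 2 ≤ 4 * (N : ℝ) ^ 2 := by
        have h3 := D_le N hN1 b (fun n _ => hb n) ((0 : ℤ) : ℝ)
        calc ‖D N b ((0 : ℤ) : ℝ)‖ ^ 2 ≤ (2 * (N : ℝ)) ^ 2 :=
              pow_le_pow_left₀ (norm_nonneg _) h3 2
          _ = 4 * (N : ℝ) ^ 2 := by ring
      by_cases hm : (0 : ℤ) ∈ W
      · rw [← Finset.add_sum_erase W _ hm]
        linarith
      · rw [Finset.erase_eq_of_notMem hm]
        have : 0 ≤ 4 * (N : ℝ) ^ 2 := by positivity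
        linarith
    have h4 : 65536 * (N : ℝ) ^ 2 ≤ K * (N : ℝ) ^ 2 :=
      mul_le_mul_of_nonneg_right hK (by positivity)
    linarith
  -- raise to the power `q`
  have hterm : ∀ t ∈ W.erase 0, (N : ℝ) ^ ((q - 2) * (1 / 2 + κ)) * ‖D N b (t : ℝ)‖ ^ 2 ≤
      ‖D N b (t : ℝ)‖ ^ q := by
    intro t ht
    have h1 := (hW t (Finset.mem_of_mem_erase ht)).2.2
    obtain ⟨x, hx⟩ : ∃ x, x = ‖D N b (t : ℝ)‖ := ⟨_, rfl⟩
    rw [← hx] at h1 ⊢
    have hx0 : 0 < x := lt_trans (by positivity) h1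
    have h2 : x ^ q = x ^ (q - 2) * x ^ 2 := by
      rw [← Real.rpow_natCast x 2, ← Real.rpow_add hx0]
      congr 1
      push_cast
      ring
    rw [h2]
    apply mul_le_mul_of_nonneg_right _ (by positivity)
    rw [mul_comm (q - 2), Real.rpow_mul hN0.le]
    exact Real.rpow_le_rpow (by positivity) h1.le (by linarith)
  have hsum2 : (N : ℝ) ^ ((q - 2) * (1 / 2 + κ)) * (K * (N : ℝ) ^ 2 / 16384) ≤
      ∑ t ∈ W.erase 0, ‖D N b (t : ℝ)‖ ^ q := by
    calc _ ≤ (N : ℝ) ^ ((q - 2) * (1 / 2 + κ)) * ∑ t ∈ W.erase 0, ‖D N b (t : ℝ)‖ ^ 2 :=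
          mul_le_mul_of_nonneg_left h0 (by positivity)
      _ = ∑ t ∈ W.erase 0, (N : ℝ) ^ ((q - 2) * (1 / 2 + κ)) * ‖D N b (t : ℝ)‖ ^ 2 := by
          rw [mul_sum]
      _ ≤ _ := Finset.sum_le_sum hterm
  have hexp : K * (N : ℝ) ^ (1 + q / 2 + (q - 2) * κ) / 16384 =
      (N : ℝ) ^ ((q - 2) * (1 / 2 + κ)) * (K * (N : ℝ) ^ 2 / 16384) := by
    have h1 : (N : ℝ) ^ (1 + q / 2 + (q - 2) * κ) =
        (N : ℝ) ^ ((q - 2) * (1 / 2 + κ)) * (N : ℝ) ^ 2 := by
      rw [← Real.rpow_natCast (N : ℝ) 2, ← Real.rpow_add hN0]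
      congr 1
      push_cast
      ring
    rw [h1]
    ring
  rw [hexp]
  refine hsum2.trans ?_
  -- from integers to natural numbers
  have hmap : ∑ t ∈ W.erase 0, ‖D N b (t : ℝ)‖ ^ q =
      ∑ t ∈ (W.erase 0).image Int.toNat, ‖D N b ((t : ℕ) : ℝ)‖ ^ q := by
    rw [Finset.sum_image]
    · refine Finset.sum_congr rfl fun t ht => ?_
      have h1 : (0 : ℤ) ≤ t := by exact_mod_cast (hW t (Finset.mem_of_mem_erase ht)).1
      have h2 : ((t.toNat : ℕ) : ℝ) = (t : ℝ) := by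
        have : ((t.toNat : ℕ) : ℤ) = t := Int.toNat_of_nonneg h1
        exact_mod_cast congrArg (fun z : ℤ => (z : ℝ)) this
      rw [h2]
    · intro s hs t ht hst
      have h1 : (0 : ℤ) ≤ s := by
        exact_mod_cast (hW s (Finset.mem_of_mem_erase (Finset.mem_coe.1 hs))).1
      have h2 : (0 : ℤ) ≤ t := by
        exact_mod_cast (hW t (Finset.mem_of_mem_erase (Finset.mem_coe.1 ht))).1
      omega
  rw [hmap]
  apply Finset.sum_le_sum_of_subset_of_nonneg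
  · intro t ht
    rw [mem_image] at ht
    obtain ⟨s, hs, rfl⟩ := ht
    rw [mem_erase] at hs
    have h1 : (0 : ℤ) ≤ s := by exact_mod_cast (hW s hs.2).1
    have h2 := (hW s hs.2).2.1
    rw [mem_Icc]
    refine ⟨by omega, ?_⟩
    apply Nat.le_floor
    have h3 : ((s.toNat : ℕ) : ℝ) = (s : ℝ) := by
      have : ((s.toNat : ℕ) : ℤ) = s := Int.toNat_of_nonneg h1
      exact_mod_cast congrArg (fun z : ℤ => (z : ℝ)) this
    rw [h3]
    exact h2
  · intro t _ _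
    positivity

/-- the constant in the moment inequality near `q = 2` -/
theorem moment_constant {δ C : ℝ} (hδ : 0 < δ) (hδ1 : δ ≤ 1 / 2000000)
    (h : ∀ (N T : ℕ) (b : ℕ → ℂ), 1 ≤ N → N ≤ T → (T : ℝ) ≤ (N : ℝ) ^ (1 + δ / 2) →
      (∀ n ∈ Icc N (2 * N), ‖b n‖ ≤ 1) →
      ∑ t ∈ Icc 1 T, ‖D N b t‖ ^ (2 + δ) ≤
        C * (N : ℝ) ^ (δ ^ 2 / 4) * ((N : ℝ) ^ (2 + δ) + T * (N : ℝ) ^ ((2 + δ) / 2))) :
    Real.exp (Real.exp (1 / (2000000 * δ))) ≤ C := by
  obtain ⟨u, hu⟩ : ∃ u, u = 1 / (50000 * δ) := ⟨_, rfl⟩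
  have hu40 : 40 ≤ u := by
    rw [hu, le_div_iff₀ (by positivity)]
    linarith
  have hδu : δ * u = 1 / 50000 := by
    rw [hu]
    field_simp
  obtain ⟨L, hL⟩ : ∃ L, L = Real.exp u := ⟨_, rfl⟩
  have hLu : u + 1 ≤ L := by
    rw [hL]
    exact Real.add_one_le_exp u
  have hL0 : 0 < L := by linarith
  obtain ⟨K, hKd⟩ : ∃ K, K = Real.exp L := ⟨_, rfl⟩
  have hK0 : 0 < K := by rw [hKd]; exact Real.exp_pos _
  have hlogK : Real.log K = L := by rw [hKd, Real.log_exp]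
  have hloglogK : Real.log (Real.log K) = u := by rw [hlogK, hL, Real.log_exp]
  have hK16 : 65536 ≤ K := by
    rw [hKd]
    have h1 : Real.exp 16 ≤ Real.exp L := Real.exp_le_exp.2 (by linarith)
    have h2 : (65536 : ℝ) ≤ Real.exp 16 := by
      have h3 : Real.exp 16 = Real.exp 1 ^ 16 := by
        rw [← Real.exp_nat_mul]
        norm_num
      have h4 := Real.exp_one_gt_d9
      rw [h3]
      calc (65536 : ℝ) = 2 ^ 16 := by norm_num
        _ ≤ Real.exp 1 ^ 16 := pow_le_pow_left₀ (by norm_num) (by linarith) 16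
    linarith
  obtain ⟨Y, hY⟩ : ∃ Y, Y = Real.exp (2 * L / δ) := ⟨_, rfl⟩
  have hY1 : 1 ≤ Y := by
    rw [hY]
    exact Real.one_le_exp (by positivity)
  obtain ⟨N, hN⟩ : ∃ N, N = ⌈Y⌉₊ := ⟨_, rfl⟩
  have hN1 : Y ≤ N := by rw [hN]; exact Nat.le_ceil _
  have hN2 : (N : ℝ) ≤ 2 * Y := by
    have : (N : ℝ) < Y + 1 := by rw [hN]; exact Nat.ceil_lt_add_one (by linarith)
    linarith
  have hNr1 : (1 : ℝ) ≤ N := by linarith
  have hN0 : (0 : ℝ) < N := by linarith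
  have hNnat : 1 ≤ N := by exact_mod_cast hNr1
  have hlogN : 2 * L / δ ≤ Real.log N := by
    rw [Real.le_log_iff_exp_le hN0, ← hY]
    exact hN1
  have hcond : 100000 * (Real.log K * Real.log (Real.log K)) ≤ Real.log N := by
    rw [hloglogK, hlogK]
    have : 2 * L / δ = 100000 * (L * u) := by
      rw [div_eq_iff hδ.ne']
      have : 100000 * (L * u) * δ = 100000 * L * (δ * u) := by ring
      rw [this, hδu]
      ring
    linarith
  obtain ⟨b, hb, hlow⟩ := moment_large hK16 hcond (q := 2 + δ) (by linarith)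
  rw [hloglogK] at hlow
  have hκ : 1 / (100000 * u) = δ / 2 := by
    rw [div_eq_iff (by positivity)]
    have : δ / 2 * (100000 * u) = 50000 * (δ * u) := by ring
    rw [this, hδu]
    norm_num
  rw [hκ] at hlow
  obtain ⟨T, hT⟩ : ∃ T, T = ⌊K * (N : ℝ)⌋₊ := ⟨_, rfl⟩
  rw [← hT] at hlow
  have hKN0 : 0 ≤ K * (N : ℝ) := by positivity
  have hT1 : (T : ℝ) ≤ K * N := by rw [hT]; exact Nat.floor_le hKN0
  have hNT : N ≤ T := by
    rw [hT]
    apply Nat.le_floor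
    nlinarith
  have hKN : K ≤ (N : ℝ) ^ (δ / 2) := by
    calc K = Y ^ (δ / 2) := by
          rw [hKd, hY, ← Real.exp_mul]
          congr 1
          field_simp
      _ ≤ (N : ℝ) ^ (δ / 2) := Real.rpow_le_rpow (by linarith) hN1 (by linarith)
  have hNK : (N : ℝ) ^ (δ / 2) ≤ 2 * K := by
    calc (N : ℝ) ^ (δ / 2) ≤ (2 * Y) ^ (δ / 2) := Real.rpow_le_rpow hN0.le hN2 (by linarith)
      _ = 2 ^ (δ / 2) * Y ^ (δ / 2) := Real.mul_rpow (by norm_num) (by linarith)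
      _ ≤ 2 * K := by
          apply mul_le_mul _ _ (by positivity) (by norm_num)
          · calc (2 : ℝ) ^ (δ / 2) ≤ 2 ^ (1 : ℝ) :=
                  Real.rpow_le_rpow_of_exponent_le (by norm_num) (by linarith)
              _ = 2 := Real.rpow_one _
          · rw [hKd, hY, ← Real.exp_mul]
            apply le_of_eq
            congr 1
            field_simp
  have hup := h N T b hNnat hNT (by
    rw [Real.rpow_add hN0, Real.rpow_one, mul_comm (N : ℝ)]
    exact hT1.trans (mul_le_mul_of_nonneg_right hKN hN0.le)) (fun n _ => hb n)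
  -- compare
  obtain ⟨B, hB⟩ : ∃ B, B = (N : ℝ) ^ (2 + δ / 2) := ⟨_, rfl⟩
  have hB0 : 0 < B := by rw [hB]; positivity
  have e1 : (N : ℝ) ^ (1 + (2 + δ) / 2 + ((2 + δ) - 2) * (δ / 2)) = B * (N : ℝ) ^ (δ ^ 2 / 2) := by
    rw [hB, ← Real.rpow_add hN0]
    congr 1
    ring
  have e2 : (N : ℝ) ^ (2 + δ) = B * (N : ℝ) ^ (δ / 2) := by
    rw [hB, ← Real.rpow_add hN0]
    congr 1
    ring
  have e3 : (N : ℝ) * (N : ℝ) ^ ((2 + δ) / 2) = B := by
    rw [hB, ← Real.rpow_one_add' hN0.le (by linarith)]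
    congr 1
    ring
  rw [e1] at hlow
  have hR : (N : ℝ) ^ (2 + δ) + T * (N : ℝ) ^ ((2 + δ) / 2) ≤ 3 * K * B := by
    have h1 : (T : ℝ) * (N : ℝ) ^ ((2 + δ) / 2) ≤ K * N * (N : ℝ) ^ ((2 + δ) / 2) :=
      mul_le_mul_of_nonneg_right hT1 (by positivity)
    have h2 : K * N * (N : ℝ) ^ ((2 + δ) / 2) = K * B := by rw [mul_assoc, e3]
    have h3 : B * (N : ℝ) ^ (δ / 2) ≤ B * (2 * K) := mul_le_mul_of_nonneg_left hNK hB0.le
    rw [e2]
    linarith
  obtain ⟨g, hg⟩ : ∃ g, g = (N : ℝ) ^ (δ ^ 2 / 4) := ⟨_, rfl⟩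
  have hg0 : 0 < g := by rw [hg]; positivity
  have hgg : (N : ℝ) ^ (δ ^ 2 / 2) = g * g := by
    rw [hg, ← Real.rpow_add hN0]
    congr 1
    ring
  rw [hgg] at hlow
  rw [← hg] at hup
  have hR0 : 0 ≤ (N : ℝ) ^ (2 + δ) + T * (N : ℝ) ^ ((2 + δ) / 2) := by positivity
  have hCpos : 0 < C := by
    by_contra hc
    rw [not_lt] at hc
    have h1 : C * g * ((N : ℝ) ^ (2 + δ) + T * (N : ℝ) ^ ((2 + δ) / 2)) ≤ 0 :=
      mul_nonpos_of_nonpos_of_nonneg (mul_nonpos_of_nonpos_of_nonneg hc hg0.le) hR0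
    have h2 : 0 < K * (B * (g * g)) / 16384 := by positivity
    linarith
  have hmain : g ≤ 49152 * C := by
    have h1 : K * (B * (g * g)) / 16384 ≤ C * g * (3 * K * B) :=
      (hlow.trans hup).trans (mul_le_mul_of_nonneg_left hR (by positivity))
    have h2 : K * B * g * g ≤ K * B * g * (49152 * C) := by linarith
    exact le_of_mul_le_mul_left h2 (by positivity)
  -- the size of `g`
  have hg1 : Real.exp (δ * L / 2) ≤ g := by
    calc Real.exp (δ * L / 2) = Y ^ (δ ^ 2 / 4) := by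
          rw [hY, ← Real.exp_mul]
          congr 1
          field_simp
          norm_num
      _ ≤ g := by
          rw [hg]
          exact Real.rpow_le_rpow (by linarith) hN1 (by positivity)
  have hδL : δ * L / 2 = L / (100000 * u) := by
    rw [eq_div_iff (by positivity)]
    have : δ * L / 2 * (100000 * u) = 50000 * L * (δ * u) := by ring
    rw [this, hδu]
    ring
  obtain ⟨w, hw⟩ : ∃ w, w = Real.exp (u / 5) := ⟨_, rfl⟩
  have hw100 : 100 ≤ w := by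
    have h1 : Real.exp 8 ≤ w := by rw [hw]; exact Real.exp_le_exp.2 (by linarith)
    have h2 : (100 : ℝ) ≤ Real.exp 8 := by
      have h3 : Real.exp 8 = Real.exp 1 ^ 8 := by
        rw [← Real.exp_nat_mul]
        norm_num
      have h4 := Real.exp_one_gt_d9
      rw [h3]
      calc (100 : ℝ) ≤ 2 ^ 8 := by norm_num
        _ ≤ Real.exp 1 ^ 8 := pow_le_pow_left₀ (by norm_num) (by linarith) 8
    linarith
  have hwL : L = w ^ 5 := by
    rw [hL, hw, ← Real.exp_nat_mul]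
    congr 1
    push_cast
    ring
  have huw : u ≤ 5 * w := by
    have := Real.add_one_le_exp (u / 5)
    rw [← hw] at this
    linarith
  have hkey : w + 11 ≤ L / (100000 * u) := by
    rw [le_div_iff₀ (by positivity), hwL]
    have h1 : (w + 11) * (100000 * u) ≤ (w + 11) * (100000 * (5 * w)) :=
      mul_le_mul_of_nonneg_left (by linarith) (by linarith)
    have h2 : (w + 11) * (100000 * (5 * w)) ≤ w ^ 5 := by
      have h3 : (1000000 : ℝ) ≤ w ^ 3 := by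
        calc (1000000 : ℝ) = 100 ^ 3 := by norm_num
          _ ≤ w ^ 3 := pow_le_pow_left₀ (by norm_num) hw100 3
      have h4 : w ^ 5 = w ^ 3 * w ^ 2 := by ring
      have h5 : 1000000 * w ^ 2 ≤ w ^ 3 * w ^ 2 := mul_le_mul_of_nonneg_right h3 (by positivity)
      nlinarith
    linarith
  have h11 : (49152 : ℝ) ≤ Real.exp 11 := by
    have h3 : Real.exp 11 = Real.exp 1 ^ 11 := by
      rw [← Real.exp_nat_mul]
      norm_num
    have h4 := Real.exp_one_gt_d9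
    rw [h3]
    calc (49152 : ℝ) ≤ 2.7 ^ 11 := by norm_num
      _ ≤ Real.exp 1 ^ 11 := pow_le_pow_left₀ (by norm_num) (by linarith) 11
  have e5 : Real.exp (1 / (2000000 * δ)) ≤ w := by
    rw [hw]
    apply Real.exp_le_exp.2
    rw [hu]
    have : 1 / (2000000 * δ) = 1 / (50000 * δ) / 40 := by
      field_simp
      norm_num
    rw [this]
    have h1 : 0 < 1 / (50000 * δ) := by positivity
    linarith
  have hfin : 49152 * Real.exp w ≤ 49152 * C := by
    calc 49152 * Real.exp w ≤ Real.exp 11 * Real.exp w :=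
          mul_le_mul_of_nonneg_right h11 (Real.exp_pos _).le
      _ = Real.exp (w + 11) := by rw [← Real.exp_add, add_comm]
      _ ≤ Real.exp (L / (100000 * u)) := Real.exp_le_exp.2 hkey
      _ = Real.exp (δ * L / 2) := by rw [hδL]
      _ ≤ g := hg1
      _ ≤ _ := hmain
  have hw' : Real.exp w ≤ C := by linarith
  exact le_trans (Real.exp_le_exp.2 e5) hw'

end Pool.Agent.H605.Mont
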