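import Mathlib

/-!
# A choice of signs
-/

set_option autoImplicit false

open Finset

namespace Pool.Agent.H605.Mont

/-- There are signs for which the mean square of the signed sum is at least the sum of the mean
squares. -/
theorem signs {ι κ : Type*} [DecidableEq ι] (P : Finset ι) (W : Finset κ) (B : ι → κ → ℂ) :
    ∃ s : ι → ℝ, (∀ p, s p = 1 ∨ s p = -1) ∧
      ∑ t ∈ W, ∑ p ∈ P, ‖B p t‖ ^ 2 ≤ ∑ t ∈ W, ‖∑ p ∈ P, (s p : ℂ) * B p t‖ ^ 2 := by
  induction P using Finset.induction_on with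
  | empty => exact ⟨fun _ => 1, fun _ => Or.inl rfl, by simp⟩
  | insert q P hq ih =>
    obtain ⟨s, hs, h⟩ := ih
    obtain ⟨A, hA⟩ : ∃ A : κ → ℂ, A = fun t => ∑ p ∈ P, (s p : ℂ) * B p t := ⟨_, rfl⟩
    have key : ∀ u : ℝ, ∀ t, ∑ p ∈ insert q P, (Function.update s q u p : ℂ) * B p t
        = (u : ℂ) * B q t + A t := by
      intro u t
      rw [sum_insert hq, Function.update_self, hA]
      congr 1
      refine sum_congr rfl fun p hp => ?_
      rw [Function.update_of_ne]
      rintro rfl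
      exact hq hp
    have hpar : ∑ t ∈ W, ‖(1 : ℂ) * B q t + A t‖ ^ 2 + ∑ t ∈ W, ‖(-1 : ℂ) * B q t + A t‖ ^ 2
        = 2 * (∑ t ∈ W, ‖B q t‖ ^ 2 + ∑ t ∈ W, ‖A t‖ ^ 2) := by
      rw [← sum_add_distrib, ← sum_add_distrib, mul_sum]
      refine sum_congr rfl fun t _ => ?_
      have h1 := parallelogram_law_with_norm ℝ (A t) (B q t)
      have e1 : (1 : ℂ) * B q t + A t = A t + B q t := by ring
      have e2 : (-1 : ℂ) * B q t + A t = A t - B q t := by ring
      rw [e1, e2]
      nlinarith [h1]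
    have hsum : ∑ t ∈ W, ∑ p ∈ insert q P, ‖B p t‖ ^ 2
        = ∑ t ∈ W, ‖B q t‖ ^ 2 + ∑ t ∈ W, ∑ p ∈ P, ‖B p t‖ ^ 2 := by
      rw [← sum_add_distrib]
      exact sum_congr rfl fun t _ => by rw [sum_insert hq]
    have hAs : ∑ t ∈ W, ∑ p ∈ P, ‖B p t‖ ^ 2 ≤ ∑ t ∈ W, ‖A t‖ ^ 2 := by
      rw [hA]
      exact h
    by_cases hc : ∑ t ∈ W, ‖B q t‖ ^ 2 + ∑ t ∈ W, ‖A t‖ ^ 2 ≤ ∑ t ∈ W, ‖(1 : ℂ) * B q t + A t‖ ^ 2
    · refine ⟨Function.update s q 1, fun p => ?_, ?_⟩
      · by_cases hp : p = q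
        · subst hp
          rw [Function.update_self]
          exact Or.inl rfl
        · rw [Function.update_of_ne hp]
          exact hs p
      · rw [hsum]
        simp only [key, Complex.ofReal_one]
        linarith
    · refine ⟨Function.update s q (-1), fun p => ?_, ?_⟩
      · by_cases hp : p = q
        · subst hp
          rw [Function.update_self]
          exact Or.inr rfl
        · rw [Function.update_of_ne hp]
          exact hs p
      · rw [hsum]
        simp only [key, Complex.ofReal_neg, Complex.ofReal_one]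
        linarith

end Pool.Agent.H605.Mont
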